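import Pool.Agent.H52.SY.Lc

set_option autoImplicit false

namespace Pool.Agent.H52.SY

/-- the functional `u_1` in coordinates -/
def U1 (μ p q : ℝ) : ℝ := -((1-μ)*p) - μ*q

/-- the cluster of three hexagons -/
theorem cluster {x y μ p q : ℝ} (hx : 0 ≤ x) (hx1 : x ≤ 1) (hy : 0 ≤ y) (hy1 : y ≤ 1)
    (hμ : 0 ≤ μ) (hμ1 : μ ≤ 1) (h1 : U1 μ p q ≤ 1/2) (h2 : p - x*q ≤ 1/2) (h3 : q - y*p ≤ 1/2)
    (p1 : p ≤ 1) (p2 : -1 ≤ p) (q1 : q ≤ 1) (q2 : -1 ≤ q) (d1 : p - q ≤ 1) (d2 : -1 ≤ p - q) :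
    Hx (p - 1/2) (q - 1/2) ∨ Hx (p - -(1/2)) (q - 0) ∨ Hx (p - 0) (q - -(1/2)) := by
  unfold U1 at h1
  rcases le_total 0 p with hp | hp
  · rcases le_total 0 q with hq | hq
    · -- first index is the minimum
      left
      have e1 : p - q ≤ 1/2 := by
        have := mul_nonneg (sub_nonneg.2 hx1) hq
        linarith
      have e2 : -(1/2) ≤ p - q := by
        have := mul_nonneg (sub_nonneg.2 hy1) hp
        linarith
      exact ⟨by linarith, by linarith, by linarith, by linarith, by linarith, by linarith⟩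
    · -- third index is the minimum: q ≤ 0 ≤ p
      right; right
      have e1 : p ≤ 1/2 := by
        have := mul_nonneg hx (neg_nonneg.2 hq)
        linarith
      exact ⟨by linarith, by linarith, by linarith, by linarith, by linarith, by linarith⟩
  · rcases le_total 0 q with hq | hq
    · -- second index is the minimum: p ≤ 0 ≤ q
      right; left
      have e1 : q ≤ 1/2 := by
        have := mul_nonneg hy (neg_nonneg.2 hp)
        linarith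
      exact ⟨by linarith, by linarith, by linarith, by linarith, by linarith, by linarith⟩
    · rcases le_total p q with hpq | hpq
      · right; left
        have e1 : -(1/2) ≤ q := by
          have := mul_nonneg (sub_nonneg.2 hμ1) (sub_nonneg.2 hpq)
          linarith
        exact ⟨by linarith, by linarith, by linarith, by linarith, by linarith, by linarith⟩
      · right; right
        have e1 : -(1/2) ≤ p := by
          have := mul_nonneg hμ (sub_nonneg.2 hpq)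
          linarith
        exact ⟨by linarith, by linarith, by linarith, by linarith, by linarith, by linarith⟩

/-- solving for the translation, pair `(2,3)` -/
theorem solve23 {x y : ℝ} (hd : 0 < 1 - x*y) (T2 T3 : ℝ) :
    ∃ p0 q0 : ℝ, p0 - x*q0 = T2 ∧ q0 - y*p0 = T3 := by
  refine ⟨(T2 + x*T3)/(1-x*y), (T3 + y*T2)/(1-x*y), ?_, ?_⟩
  · rw [← mul_div_assoc, ← sub_div, div_eq_iff hd.ne']; ring
  · rw [← mul_div_assoc, ← sub_div, div_eq_iff hd.ne']; ring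

/-- solving for the translation, pair `(1,3)` -/
theorem solve13 {y μ : ℝ} (h2 : 0 < 1 - μ*(1-y)) (T1 T3 : ℝ) :
    ∃ p0 q0 : ℝ, U1 μ p0 q0 = T1 ∧ q0 - y*p0 = T3 := by
  unfold U1
  refine ⟨-(T1 + μ*T3)/(1 - μ*(1-y)), T3 + y*(-(T1 + μ*T3)/(1 - μ*(1-y))), ?_, ?_⟩
  · field_simp; ring
  · ring

/-- cluster covers -/
theorem clu {x y μ : ℝ} (hx : 0 ≤ x) (hx1 : x ≤ 1) (hy : 0 ≤ y) (hy1 : y ≤ 1)
    (hμ : 0 ≤ μ) (hμ1 : μ ≤ 1) (hd : 0 < 1 - x*y) (a2 : 0 < 1 - μ*(1-y))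
    (a3 : 0 < 1 - (1-x)*(1-μ)) {V1 V2 V3 w1 w2 w3 h1 h2 h3 : ℝ}
    (hs : (1-x*y)*(V1-h1) + (1 - μ*(1-y))*(V2-h2) + (1 - (1-x)*(1-μ))*(V3-h3) = 0)
    (g1 : h1 ≤ 1/2) (g2 : h2 ≤ 1/2) (g3 : h3 ≤ 1/2)
    (c1 : μ*h2 + x*(w1-h1) ≤ 1 - (1-x)*(1-μ)) (c2 : μ*(w2-h2) + x*h1 ≤ 1 - (1-x)*(1-μ))
    (c3 : (1-μ)*h3 + y*(w1-h1) ≤ 1 - μ*(1-y)) (c4 : (1-μ)*(w3-h3) + y*h1 ≤ 1 - μ*(1-y))
    (c5 : (1-y)*h2 + (1-x)*(w3-h3) ≤ 1 - x*y) (c6 : (1-y)*(w2-h2) + (1-x)*h3 ≤ 1 - x*y) :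
    Cov (fun p q => (V1 - w1 ≤ U1 μ p q ∧ U1 μ p q ≤ V1) ∧
      (V2 - w2 ≤ p - x*q ∧ p - x*q ≤ V2) ∧ (V3 - w3 ≤ q - y*p ∧ q - y*p ≤ V3)) := by
  obtain ⟨p0, q0, e2, e3⟩ := solve23 hd (V2-h2) (V3-h3)
  have e1 : U1 μ p0 q0 = V1 - h1 := by
    have : (1-x*y)*(U1 μ p0 q0) = (1-x*y)*(V1-h1) := by
      have k : (1-x*y)*(U1 μ p0 q0) + (1 - μ*(1-y))*(p0 - x*q0)
        + (1 - (1-x)*(1-μ))*(q0 - y*p0) = 0 := by unfold U1; ring
      rw [e2, e3] at k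
      linarith
    exact mul_left_cancel₀ hd.ne' this
  refine ⟨p0 + 1/2, q0 + 1/2, p0 - 1/2, q0, p0, q0 - 1/2, fun p q hpq => ?_⟩
  obtain ⟨⟨f1, f2⟩, ⟨f3, f4⟩, ⟨f5, f6⟩⟩ := hpq
  -- relative coordinates
  obtain ⟨P, hP⟩ : ∃ P : ℝ, P = p - p0 := ⟨_, rfl⟩
  obtain ⟨Q, hQ⟩ : ∃ Q : ℝ, Q = q - q0 := ⟨_, rfl⟩
  have hp : p = P + p0 := by linarith
  have hq : q = Q + q0 := by linarith
  have k1 : U1 μ p q = U1 μ P Q + (V1 - h1) := by rw [← e1, hp, hq]; unfold U1; ring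
  have k2 : p - x*q = (P - x*Q) + (V2 - h2) := by rw [← e2, hp, hq]; ring
  have k3 : q - y*p = (Q - y*P) + (V3 - h3) := by rw [← e3, hp, hq]; ring
  rw [k1] at f1 f2
  rw [k2] at f3 f4
  rw [k3] at f5 f6
  have r3 : (1 - (1-x)*(1-μ))*P = μ*(P - x*Q) - x*(U1 μ P Q) := by unfold U1; ring
  have r2 : (1 - μ*(1-y))*Q = (1-μ)*(Q - y*P) - y*(U1 μ P Q) := by unfold U1; ring
  have r1 : (1 - x*y)*(P - Q) = (1-y)*(P - x*Q) - (1-x)*(Q - y*P) := by ring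
  obtain ⟨u, hu⟩ : ∃ u : ℝ, u = U1 μ P Q := ⟨_, rfl⟩
  obtain ⟨v, hv⟩ : ∃ v : ℝ, v = P - x*Q := ⟨_, rfl⟩
  obtain ⟨z, hz⟩ : ∃ z : ℝ, z = Q - y*P := ⟨_, rfl⟩
  rw [← hu, ← hv] at r3
  rw [← hu, ← hz] at r2
  rw [← hv, ← hz] at r1
  rw [← hu] at f1 f2
  rw [← hv] at f3 f4
  rw [← hz] at f5 f6
  have i1 : u ≤ h1 := by linarith
  have i1' : h1 - w1 ≤ u := by linarith
  have i2 : v ≤ h2 := by linarith
  have i2' : h2 - w2 ≤ v := by linarith
  have i3 : z ≤ h3 := by linarith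
  have i3' : h3 - w3 ≤ z := by linarith
  have x1 : 0 ≤ 1 - x := by linarith
  have y1 : 0 ≤ 1 - y := by linarith
  have m1 : 0 ≤ 1 - μ := by linarith
  have P1 : P ≤ 1 := by
    refine le_of_mul_le_mul_left ?_ a3
    rw [r3]
    linarith [mul_le_mul_of_nonneg_left i2 hμ, mul_le_mul_of_nonneg_left i1' hx]
  have P2 : -1 ≤ P := by
    refine le_of_mul_le_mul_left ?_ a3
    rw [r3]
    linarith [mul_le_mul_of_nonneg_left i2' hμ, mul_le_mul_of_nonneg_left i1 hx]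
  have Q1 : Q ≤ 1 := by
    refine le_of_mul_le_mul_left ?_ a2
    rw [r2]
    linarith [mul_le_mul_of_nonneg_left i3 m1, mul_le_mul_of_nonneg_left i1' hy]
  have Q2 : -1 ≤ Q := by
    refine le_of_mul_le_mul_left ?_ a2
    rw [r2]
    linarith [mul_le_mul_of_nonneg_left i3' m1, mul_le_mul_of_nonneg_left i1 hy]
  have D1 : P - Q ≤ 1 := by
    refine le_of_mul_le_mul_left ?_ hd
    rw [r1]
    linarith [mul_le_mul_of_nonneg_left i2 y1, mul_le_mul_of_nonneg_left i3' x1]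
  have D2 : -1 ≤ P - Q := by
    refine le_of_mul_le_mul_left ?_ hd
    rw [r1]
    linarith [mul_le_mul_of_nonneg_left i2' y1, mul_le_mul_of_nonneg_left i3 x1]
  have := cluster hx hx1 hy hy1 hμ hμ1 (p := P) (q := Q) (by rw [← hu]; linarith)
    (by rw [← hv]; linarith) (by rw [← hz]; linarith) P1 P2 Q1 Q2 D1 D2
  rcases this with h | h | h
  · left
    have s1 : P - 1/2 = p - (p0 + 1/2) := by rw [hP]; ring
    have s2 : Q - 1/2 = q - (q0 + 1/2) := by rw [hQ]; ring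
    rw [s1, s2] at h; exact h
  · right; left
    have s1 : P - -(1/2) = p - (p0 - 1/2) := by rw [hP]; ring
    have s2 : Q - 0 = q - q0 := by rw [hQ]; ring
    rw [s1, s2] at h; exact h
  · right; right
    have s1 : P - 0 = p - p0 := by rw [hP]; ring
    have s2 : Q - -(1/2) = q - (q0 - 1/2) := by rw [hQ]; ring
    rw [s1, s2] at h; exact h

end Pool.Agent.H52.SY
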