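import Pool.Agent.H52.SY.Pc

set_option autoImplicit false

namespace Pool.Agent.H52.SY

/-- shifting a parallelogram cover, pair `(2,3)` -/
theorem toStrips23 {x y W H : ℝ} (hd : 0 < 1 - x*y) (h : Cov (Pl x y W H)) (C2 C3 : ℝ) :
    Cov (fun p q => (C2 - W/2 ≤ p - x*q ∧ p - x*q ≤ C2 + W/2) ∧
      (C3 - H/2 ≤ q - y*p ∧ q - y*p ≤ C3 + H/2)) := by
  obtain ⟨p0, q0, e2, e3⟩ := solve23 hd C2 C3
  refine (h.shift p0 q0).mono (fun p q hpq => ?_)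
  obtain ⟨⟨f1, f2⟩, ⟨f3, f4⟩⟩ := hpq
  exact ⟨by linarith, by linarith, by linarith, by linarith⟩

/-- shifting a parallelogram cover, pair `(1,3)` -/
theorem toStrips13 {y μ W H : ℝ} (h2 : 0 < 1 - μ*(1-y)) (h : Cov (Pl μ (1-y) W H)) (C1 C3 : ℝ) :
    Cov (fun p q => (C1 - W/2 ≤ U1 μ p q ∧ U1 μ p q ≤ C1 + W/2) ∧
      (C3 - H/2 ≤ q - y*p ∧ q - y*p ≤ C3 + H/2)) := by
  obtain ⟨p0, q0, e1, e3⟩ := solve13 h2 C1 C3
  refine (h.rot.shift p0 q0).mono (fun p q hpq => ?_)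
  obtain ⟨⟨f1, f2⟩, ⟨f3, f4⟩⟩ := hpq
  unfold U1 at e1 f1 f2
  exact ⟨by linarith, by linarith, by linarith, by linarith⟩

theorem core1 {x y μ a b : ℝ} (hx : 0 ≤ x) (hx1 : x ≤ 1) (hy : 0 ≤ y) (hy1 : y ≤ 1)
    (hμ : 0 ≤ μ) (hμ1 : μ ≤ 1) (ha : 0 < a) (hb : 0 < b)
    (hAB : (1 - (1-x)*(1-μ))*b ≤ (1 - μ*(1-y))*a)
    {l1 l2 l3 : ℝ}
    (c1 : (1-x*y)*l1 + (1 - μ*(1-y))*(l2+1+a) + (1 - (1-x)*(1-μ))*(l3+b) ≤ 0)
    (c2 : 0 ≤ (1-x*y)*(l1+1) + (1 - μ*(1-y))*l2 + (1 - (1-x)*(1-μ))*(l3+1))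
    (c3 : (1-x*y)*l1 + (1 - μ*(1-y))*(l2+a) + (1 - (1-x)*(1-μ))*(l3+1+b) ≤ 0)
    (c4 : 0 ≤ (1-x*y)*(l1+1) + (1 - μ*(1-y))*(l2+1) + (1 - (1-x)*(1-μ))*l3) :
    Cov (fun p q => (l1 ≤ U1 μ p q ∧ U1 μ p q ≤ l1 + 1) ∧
      (l2 + a ≤ p - x*q ∧ p - x*q ≤ l2 + 1) ∧ (l3 ≤ q - y*p ∧ q - y*p ≤ l3 + 1 + b)) ∨
    Cov (fun p q => (l1 ≤ U1 μ p q ∧ U1 μ p q ≤ l1 + 1) ∧
      (l2 ≤ p - x*q ∧ p - x*q ≤ l2 + 1 + a) ∧ (l3 + b ≤ q - y*p ∧ q - y*p ≤ l3 + 1)) := by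
  obtain ⟨A2, hA2⟩ : ∃ A2 : ℝ, A2 = 1 - μ*(1-y) := ⟨_, rfl⟩
  obtain ⟨A3, hA3⟩ : ∃ A3 : ℝ, A3 = 1 - (1-x)*(1-μ) := ⟨_, rfl⟩
  have x1 : 0 ≤ 1 - x := by linarith
  have y1 : 0 ≤ 1 - y := by linarith
  have m1 : 0 ≤ 1 - μ := by linarith
  have rel : 1 - x*y = A2*(1-x) + A3*(1-y) := by rw [hA2, hA3]; ring
  have A20 : 0 ≤ A2 := by
    rw [hA2]
    have := mul_nonneg hμ hy
    linarith
  have A30 : 0 ≤ A3 := by
    rw [hA3]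
    have := mul_nonneg m1 hx
    linarith
  have k2 : A2*(a+x)+(b+y)*A3 ≤ 2*A2 := by
    rw [← hA2, ← hA3, rel] at c3 c4
    linarith
  have k3 : A2*(a+x)+(b+y)*A3 ≤ 2*A3 := by
    rw [← hA2, ← hA3, rel] at c1 c2
    linarith
  have A3p : 0 < A3 := by
    rcases A30.eq_or_lt with h | h
    · exfalso
      rw [← h] at k3
      have z1 : A2 ≤ 0 := by
        by_contra hc
        push Not at hc
        have := mul_pos hc ha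
        have := mul_nonneg A20 hx
        linarith
      have z2 : 1 ≤ μ := by
        have := mul_nonneg hμ hy
        rw [hA2] at z1
        linarith
      have z3 := mul_nonneg x1 (sub_nonneg.2 z2)
      rw [hA3] at h
      linarith
    · exact h
  have A2p : 0 < A2 := by
    rcases A20.eq_or_lt with h | h
    · exfalso
      rw [← h] at k2
      have := mul_pos hb A3p
      have := mul_nonneg hy A30
      linarith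
    · exact h
  have hd : 0 < 1 - x*y := by
    have e1 := mul_pos A2p ha
    have e2 := mul_pos A3p hb
    rw [← hA2, ← hA3] at c1 c2 c3 c4
    linarith
  have hρ : 0 < A2/A3 := div_pos A2p A3p
  by_cases f23 : x + y - 2*x*y < 2*(b*(1-x))
  · have q1 : b ≤ A2/A3*a := by
      rw [div_mul_eq_mul_div, le_div_iff₀ A3p]
      rw [← hA2, ← hA3] at hAB
      linarith
    have q2 : A2/A3*(a+x)+b+y ≤ 2*(A2/A3) := by
      have e : A2/A3*(a+x)+b+y = (A2*(a+x)+(b+y)*A3)/A3 := by field_simp; ring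
      have e' : 2*(A2/A3) = (2*A2)/A3 := by ring
      rw [e, e', div_le_div_iff_of_pos_right A3p]
      exact k2
    have q3 : A2/A3*(a+x)+b+y ≤ 2 := by
      have e : A2/A3*(a+x)+b+y = (A2*(a+x)+(b+y)*A3)/A3 := by field_simp; ring
      rw [e, div_le_iff₀ A3p]
      exact k3
    have q4 : A2/A3*x ≤ 1 := by
      rw [div_mul_eq_mul_div, div_le_one A3p, hA2, hA3]
      have := mul_nonneg hμ x1
      have := mul_nonneg (mul_nonneg hμ hx) hy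
      have := mul_nonneg (mul_nonneg hμ hx) y1
      linarith
    rcases dec23 hx hx1 hy hy1 hd ha.le hb.le hρ q4 q1 q2 q3 f23 with h | h
    · left
      refine (toStrips23 hd h (l2 + (1+a)/2) (l3 + (1+b)/2)).mono (fun p q hpq => ?_)
      obtain ⟨⟨f1, f2⟩, ⟨f3, f4⟩, ⟨f5, f6⟩⟩ := hpq
      exact ⟨⟨by linarith, by linarith⟩, ⟨by linarith, by linarith⟩⟩
    · right
      refine (toStrips23 hd h (l2 + (1+a)/2) (l3 + (1+b)/2)).mono (fun p q hpq => ?_)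
      obtain ⟨⟨f1, f2⟩, ⟨f3, f4⟩, ⟨f5, f6⟩⟩ := hpq
      exact ⟨⟨by linarith, by linarith⟩, ⟨by linarith, by linarith⟩⟩
  · push Not at f23
    rw [hA2] at A2p
    rw [hA3] at A3p
    by_cases f13 : μ*y + (1-y)*(1-μ) < 2*(b*(1-μ))
    · rw [hA2, hA3] at k2 k3
      rcases dec13 hx hx1 hy hy1 hd hμ hμ1 hb.le A2p A3p (by linarith) k2 k3 f23 f13 with h | h
      · right
        refine (toStrips23 hd h (l2 + (1+a)/2) (l3 + (1+b)/2)).mono (fun p q hpq => ?_)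
        obtain ⟨⟨f1, f2⟩, ⟨f3, f4⟩, ⟨f5, f6⟩⟩ := hpq
        exact ⟨⟨by linarith, by linarith⟩, ⟨by linarith, by linarith⟩⟩
      · right
        refine (toStrips13 A2p h (l1 + 1/2) (l3 + (1+b)/2)).mono (fun p q hpq => ?_)
        obtain ⟨⟨f1, f2⟩, ⟨f3, f4⟩, ⟨f5, f6⟩⟩ := hpq
        exact ⟨⟨by linarith, by linarith⟩, ⟨by linarith, by linarith⟩⟩
    · push Not at f13
      left
      exact pcl hx hx1 hy hy1 hμ hμ1 hd A2p A3p ha.le hb.le hAB f23 f13 c1 c2 c3 c4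

/-- the joker case -/
theorem core {x y μ a b : ℝ} (hx : 0 ≤ x) (hx1 : x ≤ 1) (hy : 0 ≤ y) (hy1 : y ≤ 1)
    (hμ : 0 ≤ μ) (hμ1 : μ ≤ 1) (ha : 0 < a) (hb : 0 < b)
    {l1 l2 l3 : ℝ}
    (c1 : (1-x*y)*l1 + (1 - μ*(1-y))*(l2+1+a) + (1 - (1-x)*(1-μ))*(l3+b) ≤ 0)
    (c2 : 0 ≤ (1-x*y)*(l1+1) + (1 - μ*(1-y))*l2 + (1 - (1-x)*(1-μ))*(l3+1))
    (c3 : (1-x*y)*l1 + (1 - μ*(1-y))*(l2+a) + (1 - (1-x)*(1-μ))*(l3+1+b) ≤ 0)
    (c4 : 0 ≤ (1-x*y)*(l1+1) + (1 - μ*(1-y))*(l2+1) + (1 - (1-x)*(1-μ))*l3) :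
    Cov (fun p q => (l1 ≤ U1 μ p q ∧ U1 μ p q ≤ l1 + 1) ∧
      (l2 + a ≤ p - x*q ∧ p - x*q ≤ l2 + 1) ∧ (l3 ≤ q - y*p ∧ q - y*p ≤ l3 + 1 + b)) ∨
    Cov (fun p q => (l1 ≤ U1 μ p q ∧ U1 μ p q ≤ l1 + 1) ∧
      (l2 ≤ p - x*q ∧ p - x*q ≤ l2 + 1 + a) ∧ (l3 + b ≤ q - y*p ∧ q - y*p ≤ l3 + 1)) := by
  rcases le_total ((1 - (1-x)*(1-μ))*b) ((1 - μ*(1-y))*a) with h | h
  · exact core1 hx hx1 hy hy1 hμ hμ1 ha hb h c1 c2 c3 c4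
  · have e1 : 1 - (1-y)*(1-(1-μ)) = 1 - μ*(1-y) := by ring
    have e2 : 1 - (1-μ)*(1-x) = 1 - (1-x)*(1-μ) := by ring
    have e3 : 1 - y*x = 1 - x*y := by ring
    have := core1 (x := y) (y := x) (μ := 1-μ) (a := b) (b := a) (l1 := l1) (l2 := l3) (l3 := l2)
      hy hy1 hx hx1 (by linarith) (by linarith) hb ha (by rw [e1, e2]; exact h)
      (by rw [e1, e2, e3]; linarith) (by rw [e1, e2, e3]; linarith)
      (by rw [e1, e2, e3]; linarith) (by rw [e1, e2, e3]; linarith)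
    have eU : ∀ p q, U1 (1-μ) q p = U1 μ p q := fun p q => by unfold U1; ring
    rcases this with h' | h'
    · right
      refine h'.swap.mono (fun p q hpq => ?_)
      obtain ⟨⟨f1, f2⟩, ⟨f3, f4⟩, ⟨f5, f6⟩⟩ := hpq
      show (l1 ≤ U1 (1-μ) q p ∧ U1 (1-μ) q p ≤ l1 + 1) ∧ _
      rw [eU]
      exact ⟨⟨f1, f2⟩, ⟨f5, f6⟩, ⟨f3, f4⟩⟩
    · left
      refine h'.swap.mono (fun p q hpq => ?_)
      obtain ⟨⟨f1, f2⟩, ⟨f3, f4⟩, ⟨f5, f6⟩⟩ := hpq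
      show (l1 ≤ U1 (1-μ) q p ∧ U1 (1-μ) q p ≤ l1 + 1) ∧ _
      rw [eU]
      exact ⟨⟨f1, f2⟩, ⟨f5, f6⟩, ⟨f3, f4⟩⟩

/-- degenerate parallelograms -/
theorem cov_deg {x : ℝ} (hx : 0 ≤ x) (hx1 : x ≤ 1) : Cov (Pl x 0 (1+0) (1-0)) :=
  rtype (s := 0) hx le_rfl hx1 (by linarith) le_rfl (by norm_num) (by norm_num) (by norm_num)
    (by norm_num) (by linarith) (by linarith) (by linarith)

/-- three strips of width one: one sided -/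
theorem t0U {x y μ : ℝ} (hx : 0 ≤ x) (hx1 : x ≤ 1) (hy : 0 ≤ y) (hy1 : y ≤ 1)
    (hμ : 0 ≤ μ) (hμ1 : μ ≤ 1) (hd : 0 < 1 - x*y) (a2 : 0 < 1 - μ*(1-y))
    (a3 : 0 < 1 - (1-x)*(1-μ)) {V1 V2 V3 s : ℝ}
    (hs : (1-x*y)*V1 + (1 - μ*(1-y))*V2 + (1 - (1-x)*(1-μ))*V3 + s
      = ((1-x*y) + (1 - μ*(1-y)) + (1 - (1-x)*(1-μ)))/2)
    (s0 : 0 ≤ s) (s1 : s ≤ ((1-x*y) + (1 - μ*(1-y)) + (1 - (1-x)*(1-μ)))/2) :
    Cov (fun p q => (V1 - 1 ≤ U1 μ p q ∧ U1 μ p q ≤ V1) ∧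
      (V2 - 1 ≤ p - x*q ∧ p - x*q ≤ V2) ∧ (V3 - 1 ≤ q - y*p ∧ q - y*p ≤ V3)) := by
  have x1 : 0 ≤ 1 - x := by linarith
  have y1 : 0 ≤ 1 - y := by linarith
  have m1 : 0 ≤ 1 - μ := by linarith
  have hS : 0 < (1-x*y) + (1 - μ*(1-y)) + (1 - (1-x)*(1-μ)) := by linarith
  obtain ⟨η, hη⟩ : ∃ η : ℝ, ((1-x*y) + (1 - μ*(1-y)) + (1 - (1-x)*(1-μ)))*η = s :=
    ⟨s/((1-x*y) + (1 - μ*(1-y)) + (1 - (1-x)*(1-μ))), mul_div_cancel₀ _ hS.ne'⟩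
  have η0 : 0 ≤ η := by
    by_contra h
    push Not at h
    have := mul_neg_of_pos_of_neg hS h
    linarith
  have η1 : η ≤ 1/2 := le_of_mul_le_mul_left (by linarith) hS
  have key : ∀ s t : ℝ, 0 ≤ s → s ≤ 1 → 0 ≤ t → t ≤ 1 →
      s*t + η*(t-s) ≤ (s+t)/2 := by
    intro s t hs0 hs1 ht0 ht1
    rcases le_total s t with h | h
    · have k1 := mul_nonneg (sub_nonneg.2 h) (sub_nonneg.2 η1)
      have k2 := mul_nonneg hs0 (sub_nonneg.2 ht1)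
      linarith
    · have k1 := mul_nonneg (sub_nonneg.2 h) η0
      have k2 := mul_nonneg hs0 (sub_nonneg.2 ht1)
      have k3 := mul_nonneg ht0 (sub_nonneg.2 hs1)
      linarith
  refine clu (h1 := 1/2 - η) (h2 := 1/2 - η) (h3 := 1/2 - η) hx hx1 hy hy1 hμ hμ1 hd a2 a3
    ?_ ?_ ?_ ?_ ?_ ?_ ?_ ?_ ?_ ?_
  · linarith
  · linarith
  · linarith
  · linarith
  · linarith [key μ x hμ hμ1 hx hx1]
  · linarith [key x μ hx hx1 hμ hμ1]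
  · linarith [key (1-μ) y m1 (by linarith) hy hy1]
  · linarith [key y (1-μ) hy hy1 m1 (by linarith)]
  · linarith [key (1-y) (1-x) y1 (by linarith) x1 (by linarith)]
  · linarith [key (1-x) (1-y) x1 (by linarith) y1 (by linarith)]

/-- three strips of width one -/
theorem t0 {x y μ : ℝ} (hx : 0 ≤ x) (hx1 : x ≤ 1) (hy : 0 ≤ y) (hy1 : y ≤ 1)
    (hμ : 0 ≤ μ) (hμ1 : μ ≤ 1) (l1 l2 l3 : ℝ) :
    Cov (fun p q => (l1 ≤ U1 μ p q ∧ U1 μ p q ≤ l1 + 1) ∧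
      (l2 ≤ p - x*q ∧ p - x*q ≤ l2 + 1) ∧ (l3 ≤ q - y*p ∧ q - y*p ≤ l3 + 1)) := by
  have x1 : 0 ≤ 1 - x := by linarith
  have y1 : 0 ≤ 1 - y := by linarith
  have m1 : 0 ≤ 1 - μ := by linarith
  have hxy := mul_nonneg hx hy
  rcases le_or_gt (1 - x*y) 0 with hd | hd
  · have hy2 : y = 1 := by
      have := mul_nonneg hy x1
      linarith
    subst hy2
    have h := toStrips13 (y := 1) (μ := μ) (W := 1+0) (H := 1-0) (by linarith)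
      (by rw [sub_self]; exact cov_deg hμ hμ1) (l1+1/2) (l3+1/2)
    refine h.mono (fun p q hpq => ?_)
    obtain ⟨⟨f1, f2⟩, ⟨f3, f4⟩, ⟨f5, f6⟩⟩ := hpq
    exact ⟨⟨by linarith, by linarith⟩, ⟨by linarith, by linarith⟩⟩
  rcases le_or_gt (1 - μ*(1-y)) 0 with a2 | a2
  · have hy2 : y = 0 := by
      have := mul_nonneg m1 y1
      linarith
    subst hy2
    have h := toStrips23 (x := x) (y := 0) (W := 1+0) (H := 1-0) hd (cov_deg hx hx1)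
      (l2+1/2) (l3+1/2)
    refine h.mono (fun p q hpq => ?_)
    obtain ⟨⟨f1, f2⟩, ⟨f3, f4⟩, ⟨f5, f6⟩⟩ := hpq
    exact ⟨⟨by linarith, by linarith⟩, ⟨by linarith, by linarith⟩⟩
  rcases le_or_gt (1 - (1-x)*(1-μ)) 0 with a3 | a3
  · have hx2 : x = 0 := by
      have := mul_nonneg x1 hμ
      linarith
    subst hx2
    have h := (toStrips23 (x := y) (y := 0) (W := 1+0) (H := 1-0) (by linarith) (cov_deg hy hy1)
      (l3+1/2) (l2+1/2)).swap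
    refine h.mono (fun p q hpq => ?_)
    obtain ⟨⟨f1, f2⟩, ⟨f3, f4⟩, ⟨f5, f6⟩⟩ := hpq
    exact ⟨⟨by linarith, by linarith⟩, ⟨by linarith, by linarith⟩⟩
  obtain ⟨S, hS⟩ : ∃ S : ℝ, S = (1-x*y) + (1 - μ*(1-y)) + (1 - (1-x)*(1-μ)) := ⟨_, rfl⟩
  obtain ⟨T, hT⟩ : ∃ T : ℝ, T = (1-x*y)*(l1+1) + (1 - μ*(1-y))*(l2+1)
    + (1 - (1-x)*(1-μ))*(l3+1) := ⟨_, rfl⟩
  have rel : ∀ p q, (1-x*y)*(U1 μ p q) + (1 - μ*(1-y))*(p - x*q)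
        + (1 - (1-x)*(1-μ))*(q - y*p) = 0 := fun p q => by unfold U1; ring
  by_cases hT0 : 0 ≤ T
  · by_cases hT1 : T ≤ S
    · rcases le_total T (S/2) with h | h
      · refine (t0U (V1 := l1+1) (V2 := l2+1) (V3 := l3+1) (s := S/2 - T) hx hx1 hy hy1 hμ hμ1
          hd a2 a3 (by rw [hT, hS]; ring) (by linarith) (by rw [← hS]; linarith)).mono
          (fun p q hpq => ?_)
        obtain ⟨⟨f1, f2⟩, ⟨f3, f4⟩, ⟨f5, f6⟩⟩ := hpq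
        exact ⟨⟨by linarith, by linarith⟩, ⟨by linarith, by linarith⟩, ⟨by linarith, by linarith⟩⟩
      · refine (t0U (V1 := -l1) (V2 := -l2) (V3 := -l3) (s := T - S/2) hx hx1 hy hy1 hμ hμ1
          hd a2 a3 (by rw [hT, hS]; ring) (by linarith) (by rw [← hS]; linarith)).neg.mono
          (fun p q hpq => ?_)
        obtain ⟨⟨f1, f2⟩, ⟨f3, f4⟩, ⟨f5, f6⟩⟩ := hpq
        have e : U1 μ (-p) (-q) = - U1 μ p q := by unfold U1; ring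
        show (-l1 - 1 ≤ U1 μ (-p) (-q) ∧ U1 μ (-p) (-q) ≤ -l1) ∧ _
        rw [e]
        exact ⟨⟨by linarith, by linarith⟩, ⟨by linarith, by linarith⟩, ⟨by linarith, by linarith⟩⟩
    · refine Cov.empty (fun p q hpq => hT1 ?_)
      obtain ⟨⟨f1, f2⟩, ⟨f3, f4⟩, ⟨f5, f6⟩⟩ := hpq
      have := rel p q
      have := mul_le_mul_of_nonneg_left f1 hd.le
      have := mul_le_mul_of_nonneg_left f3 a2.le
      have := mul_le_mul_of_nonneg_left f5 a3.le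
      linarith
  · refine Cov.empty (fun p q hpq => hT0 ?_)
    obtain ⟨⟨f1, f2⟩, ⟨f3, f4⟩, ⟨f5, f6⟩⟩ := hpq
    have := rel p q
    have := mul_le_mul_of_nonneg_left f2 hd.le
    have := mul_le_mul_of_nonneg_left f4 a2.le
    have := mul_le_mul_of_nonneg_left f6 a3.le
    linarith

end Pool.Agent.H52.SY
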