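import Pool.Agent.H52.SY.Ge

set_option autoImplicit false

namespace Pool.Agent.H52.SY

/-! ### coordinates -/

theorem Tri.hex {K : Set E} (S : Sym K) {k1 k2 k3 : E} {u1 u2 u3 : E →ₗ[ℝ] ℝ}
    (T : Tri K k1 k2 k3 u1 u2 u3) {p q : ℝ} (h : Hx p q) : (2*p) • k2 + (2*q) • k3 ∈ K := by
  obtain ⟨h1, h2, h3, h4, h5, h6⟩ := h
  have hk1 : k1 = -(k2 + k3) := by
    have := T.sum
    rw [add_assoc] at this
    exact eq_neg_of_add_eq_zero_left this
  rcases le_total 0 p with hp | hp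
  · rcases le_total 0 q with hq | hq
    · rcases le_total p q with hpq | hpq
      · have := S.combo T.m1 T.m3 (s := -(2*p)) (t := 2*(q-p))
          (by rw [abs_neg, abs_of_nonneg (by linarith), abs_of_nonneg (by linarith)]; linarith)
        have e : -(2*p) • k1 + (2*(q-p)) • k3 = (2*p) • k2 + (2*q) • k3 := by rw [hk1]; module
        rwa [e] at this
      · have := S.combo T.m1 T.m2 (s := -(2*q)) (t := 2*(p-q))
          (by rw [abs_neg, abs_of_nonneg (by linarith), abs_of_nonneg (by linarith)]; linarith)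
        have e : -(2*q) • k1 + (2*(p-q)) • k2 = (2*p) • k2 + (2*q) • k3 := by rw [hk1]; module
        rwa [e] at this
    · exact S.combo T.m2 T.m3
        (by rw [abs_of_nonneg (by linarith), abs_of_nonpos (by linarith)]; linarith)
  · rcases le_total 0 q with hq | hq
    · exact S.combo T.m2 T.m3
        (by rw [abs_of_nonpos (by linarith), abs_of_nonneg (by linarith)]; linarith)
    · rcases le_total p q with hpq | hpq
      · have := S.combo T.m1 T.m2 (s := -(2*q)) (t := 2*(p-q))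
          (by rw [abs_neg, abs_of_nonpos (by linarith), abs_of_nonpos (by linarith)]; linarith)
        have e : -(2*q) • k1 + (2*(p-q)) • k2 = (2*p) • k2 + (2*q) • k3 := by rw [hk1]; module
        rwa [e] at this
      · have := S.combo T.m1 T.m3 (s := -(2*p)) (t := 2*(q-p))
          (by rw [abs_neg, abs_of_nonpos (by linarith), abs_of_nonpos (by linarith)]; linarith)
        have e : -(2*p) • k1 + (2*(q-p)) • k3 = (2*p) • k2 + (2*q) • k3 := by rw [hk1]; module
        rwa [e] at this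

/-- from covers in coordinates to piercing -/
theorem Tri.pierce {K : Set E} (S : Sym K) {k1 k2 k3 : E} {u1 u2 u3 : E →ₗ[ℝ] ℝ}
    (T : Tri K k1 k2 k3 u1 u2 u3) {X : ℝ → ℝ → Prop} (hX : Cov X) (U : Set E)
    (hU : ∀ a ∈ U, ∀ p q : ℝ, a = (2*p) • k2 + (2*q) • k3 → X p q) :
    ∃ P : Finset E, P.card ≤ 3 ∧ ∀ a ∈ U, ∃ p ∈ P, p - a ∈ K := by
  classical
  obtain ⟨c1, d1, c2, d2, c3, d3, hc⟩ := hX
  refine ⟨{(2*c1) • k2 + (2*d1) • k3, (2*c2) • k2 + (2*d2) • k3, (2*c3) • k2 + (2*d3) • k3},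
    Finset.card_le_three, fun a ha => ?_⟩
  have hdet := T.det
  obtain ⟨p, q, hpq⟩ : ∃ p q : ℝ, a = (2*p) • k2 + (2*q) • k3 := by
    refine ⟨det2 a k3 / (2 * det2 k2 k3), det2 k2 a / (2 * det2 k2 k3), ?_⟩
    apply ext2
    · simp only [PiLp.add_apply, PiLp.smul_apply, smul_eq_mul]
      field_simp
      simp only [det2]; ring
    · simp only [PiLp.add_apply, PiLp.smul_apply, smul_eq_mul]
      field_simp
      simp only [det2]; ring
  have hx := hc p q (hU a ha p q hpq)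
  rcases hx with h | h | h
  · refine ⟨(2*c1) • k2 + (2*d1) • k3, by simp, ?_⟩
    have := S.sym _ (T.hex S h)
    have e : -((2*(p - c1)) • k2 + (2*(q - d1)) • k3) = (2*c1) • k2 + (2*d1) • k3 - a := by
      rw [hpq]; module
    rwa [e] at this
  · refine ⟨(2*c2) • k2 + (2*d2) • k3, by simp, ?_⟩
    have := S.sym _ (T.hex S h)
    have e : -((2*(p - c2)) • k2 + (2*(q - d2)) • k3) = (2*c2) • k2 + (2*d2) • k3 - a := by
      rw [hpq]; module
    rwa [e] at this
  · refine ⟨(2*c3) • k2 + (2*d3) • k3, by simp, ?_⟩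
    have := S.sym _ (T.hex S h)
    have e : -((2*(p - c3)) • k2 + (2*(q - d3)) • k3) = (2*c3) • k2 + (2*d3) • k3 - a := by
      rw [hpq]; module
    rwa [e] at this

/-- the parameters of a triple -/
theorem Tri.params {K : Set E} (S : Sym K) {k1 k2 k3 : E} {u1 u2 u3 : E →ₗ[ℝ] ℝ}
    (T : Tri K k1 k2 k3 u1 u2 u3) :
    ∃ x y μ : ℝ, 0 ≤ x ∧ x ≤ 1 ∧ 0 ≤ y ∧ y ≤ 1 ∧ 0 ≤ μ ∧ μ ≤ 1 ∧
      (∀ p q : ℝ, u1 ((2*p) • k2 + (2*q) • k3) = U1 μ p q ∧
        u2 ((2*p) • k2 + (2*q) • k3) = p - x*q ∧ u3 ((2*p) • k2 + (2*q) • k3) = q - y*p) ∧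
      (∀ a : E, (1-x*y)*u1 a + (1 - μ*(1-y))*u2 a + (1 - (1-x)*(1-μ))*u3 a = 0) := by
  have hk1 : k1 = -(k2 + k3) := by
    have := T.sum
    rw [add_assoc] at this
    exact eq_neg_of_add_eq_zero_left this
  have bd : ∀ u : E →ₗ[ℝ] ℝ, (∀ z ∈ K, u z ≤ 1/2) → ∀ z ∈ K, -(1/2) ≤ u z := by
    intro u hu z hz
    have := hu _ (S.sym z hz)
    rw [map_neg] at this
    linarith
  have e1 := T.e1
  have f2 : u2 k1 = -(u2 k2 + u2 k3) := by rw [hk1, map_neg, map_add]
  have f3 : u3 k1 = -(u3 k2 + u3 k3) := by rw [hk1, map_neg, map_add]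
  rw [hk1, map_neg, map_add] at e1
  have e2 := T.e2
  have e3 := T.e3
  have g1 := bd u1 T.b1 _ T.m3
  have g1' := T.b1 _ T.m3
  have g1'' := bd u1 T.b1 _ T.m2
  have g2 := bd u2 T.b2 _ T.m3
  have g2'' := bd u2 T.b2 _ T.m1
  have g3 := bd u3 T.b3 _ T.m2
  have g3'' := bd u3 T.b3 _ T.m1
  have coords : ∀ p q : ℝ, u1 ((2*p) • k2 + (2*q) • k3) = U1 (-(2*u1 k3)) p q ∧
        u2 ((2*p) • k2 + (2*q) • k3) = p - (-(2*u2 k3))*q ∧
        u3 ((2*p) • k2 + (2*q) • k3) = q - (-(2*u3 k2))*p := by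
    intro p q
    refine ⟨?_, ?_, ?_⟩
    · rw [map_add, map_smul, map_smul, smul_eq_mul, smul_eq_mul]
      unfold U1
      have : u1 k2 = -(1/2) - u1 k3 := by linarith
      rw [this]; ring
    · rw [map_add, map_smul, map_smul, smul_eq_mul, smul_eq_mul, e2]; ring
    · rw [map_add, map_smul, map_smul, smul_eq_mul, smul_eq_mul, e3]; ring
  refine ⟨-(2*u2 k3), -(2*u3 k2), -(2*u1 k3), by linarith, by linarith, by linarith, by linarith,
    by linarith, by linarith, coords, fun a => ?_⟩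
  have hdet := T.det
  obtain ⟨p, q, hpq⟩ : ∃ p q : ℝ, a = (2*p) • k2 + (2*q) • k3 := by
    refine ⟨det2 a k3 / (2 * det2 k2 k3), det2 k2 a / (2 * det2 k2 k3), ?_⟩
    apply ext2
    · simp only [PiLp.add_apply, PiLp.smul_apply, smul_eq_mul]
      field_simp
      simp only [det2]; ring
    · simp only [PiLp.add_apply, PiLp.smul_apply, smul_eq_mul]
      field_simp
      simp only [det2]; ring
  obtain ⟨c1, c2, c3⟩ := coords p q
  rw [hpq, c1, c2, c3]
  unfold U1
  ring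

/-! ### wide directions -/

/-- the family `F` is wider than `2K` in the direction `w` -/
def Wide (K F : Set E) (w : E) : Prop :=
  ∃ a ∈ F, ∃ b ∈ F, ∀ k ∈ K, 2 * ell w k < ell w (a - b)

theorem wide_open {K : Set E} (hK : IsCompact K) (F : Set E) : IsOpen {w | Wide K F w} := by
  rw [isOpen_iff_mem_nhds]
  rintro w ⟨a, ha, b, hb, h⟩
  have h1 : ∀ᶠ w' in nhds w, ∀ k ∈ K, 2 * ell w' k < ell w' (a - b) := by
    apply hK.eventually_forall_of_forall_eventually
    intro k hk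
    have hc1 : Continuous (fun z : E × E => 2 * ell z.1 z.2) := by
      simp only [ell_apply]; fun_prop
    have hc2 : Continuous (fun z : E × E => ell z.1 (a - b)) := by
      simp only [ell_apply]; fun_prop
    exact (isOpen_lt hc1 hc2).mem_nhds (h k hk)
  filter_upwards [h1] with w' hw'
  exact ⟨a, ha, b, hb, hw'⟩

theorem wide_disj {K : Set E} (S : Sym K) {F G : Set E}
    (hint : ∀ a ∈ F, ∀ b ∈ G, ∃ x, x - a ∈ K ∧ x - b ∈ K) {w : E} (h1 : Wide K F w)
    (h2 : Wide K G w) : False := by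
  obtain ⟨a, ha, b, hb, hab⟩ := h1
  obtain ⟨c, hc, d, hd, hcd⟩ := h2
  obtain ⟨x, hx1, hx2⟩ := hint a ha d hd
  obtain ⟨y, hy1, hy2⟩ := hint b hb c hc
  -- a - d = (x - d) + (-(x - a)), c - b = (y - b) + (-(y - c))
  have k1 := hab _ (S.sym _ hx1)
  have k2 := hcd _ hx2
  have k3 := hab _ hy1
  have k4 := hcd _ (S.sym _ hy2)
  simp only [map_sub, map_neg] at k1 k2 k3 k4
  linarith

/-- either one family is the only one that is ever wide, or there is a direction in which no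
family is wide -/
theorem joker {n : ℕ} {K : Set E} (S : Sym K) (F : Fin n → Set E)
    (hint : ∀ i j : Fin n, i ≠ j → ∀ a ∈ F i, ∀ b ∈ F j, ∃ x, x - a ∈ K ∧ x - b ∈ K) :
    (∃ m, ∀ j, j ≠ m → ∀ w, w ≠ 0 → ¬ Wide K (F j) w) ∨
      ∃ w, w ≠ 0 ∧ ∀ j, ¬ Wide K (F j) w := by
  by_cases h : ∃ w, w ≠ 0 ∧ ∀ j, ¬ Wide K (F j) w
  · right; exact h
  · left
    push Not at h
    have hw0 : (EuclideanSpace.single 0 1 : E) ≠ 0 := by
      intro h0
      have := congrArg (fun z : E => z 0) h0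
      simp at this
    obtain ⟨m, hm⟩ := h _ hw0
    refine ⟨m, fun j hj w hw hwide => ?_⟩
    have hpre : IsPreconnected ({0}ᶜ : Set E) := by
      refine (isConnected_compl_singleton_of_one_lt_rank ?_ 0).isPreconnected
      have : Module.finrank ℝ E = 2 := by simp [E]
      exact_mod_cast Module.lt_rank_of_lt_finrank (n := 1) (by rw [this]; norm_num)
    have hsub : ({0}ᶜ : Set E) ⊆ {w | Wide K (F m) w} := by
      refine hpre.subset_left_of_subset_union (wide_open S.cpt _)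
        (v := ⋃ j ∈ {j | j ≠ m}, {w | Wide K (F j) w}) ?_ ?_ ?_ ?_
      · exact isOpen_biUnion (fun j _ => wide_open S.cpt _)
      · rw [Set.disjoint_left]
        intro w h1 h2
        simp only [Set.mem_iUnion] at h2
        obtain ⟨j, hj, h2⟩ := h2
        exact wide_disj S (hint m j (Ne.symm hj)) h1 h2
      · intro w hw
        obtain ⟨j, hj⟩ := h w hw
        by_cases hjm : j = m
        · left; rw [← hjm]; exact hj
        · right
          simp only [Set.mem_iUnion]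
          exact ⟨j, hjm, hj⟩
      · exact ⟨_, hw0, hm⟩
    exact wide_disj S (hint m j (Ne.symm hj)) (hsub hw) hwide

end Pool.Agent.H52.SY
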