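import Pool.Agent.H52.SY.Co

set_option autoImplicit false

namespace Pool.Agent.H52.SY

/-- The plane. -/
abbrev E := EuclideanSpace ℝ (Fin 2)

/-- determinant of two plane vectors -/
noncomputable def det2 (u v : E) : ℝ := u 0 * v 1 - u 1 * v 0

theorem ext2 {u v : E} (h0 : u 0 = v 0) (h1 : u 1 = v 1) : u = v := by
  ext i
  fin_cases i
  · exact h0
  · exact h1

/-- the linear functional with coefficients `w` -/
noncomputable def ell (w : E) : E →ₗ[ℝ] ℝ :=
  { toFun := fun z => w 0 * z 0 + w 1 * z 1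
    map_add' := by intro x y; simp; ring
    map_smul' := by intro c x; simp; ring }

theorem ell_apply (w z : E) : ell w z = w 0 * z 0 + w 1 * z 1 := rfl

/-- every linear functional is of this form -/
theorem exists_ell (f : E →ₗ[ℝ] ℝ) : ∃ w : E, f = ell w := by
  refine ⟨(f (EuclideanSpace.single 0 1)) • EuclideanSpace.single 0 1
    + (f (EuclideanSpace.single 1 1)) • EuclideanSpace.single 1 1, ?_⟩
  apply LinearMap.ext
  intro z
  have hz : z = z 0 • (EuclideanSpace.single 0 1 : E) + z 1 • (EuclideanSpace.single 1 1 : E) := by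
    apply ext2 <;> simp
  conv_lhs => rw [hz]
  rw [map_add, map_smul, map_smul, ell_apply]
  simp
  ring

/-- a symmetric convex set that is not contained in a line -/
structure Sym (K : Set E) : Prop where
  cpt : IsCompact K
  cvx : Convex ℝ K
  sym : ∀ x ∈ K, -x ∈ K
  ndg : ∃ x ∈ K, ∃ y ∈ K, det2 x y ≠ 0

theorem Sym.zero {K : Set E} (S : Sym K) : (0 : E) ∈ K := by
  obtain ⟨x, hx, -⟩ := S.ndg
  have := S.cvx hx (S.sym x hx) (a := 1/2) (b := 1/2) (by norm_num) (by norm_num) (by norm_num)
  have e : (1/2 : ℝ) • x + (1/2 : ℝ) • -x = 0 := by module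
  rwa [e] at this

theorem Sym.combo {K : Set E} (S : Sym K) {x y : E} (hx : x ∈ K) (hy : y ∈ K) {s t : ℝ}
    (h : |s| + |t| ≤ 1) : s • x + t • y ∈ K := by
  have key : ∀ z ∈ K, ∀ r : ℝ, ∃ z' ∈ K, r • z = |r| • z' := by
    intro z hz r
    rcases le_total 0 r with hr | hr
    · exact ⟨z, hz, by rw [abs_of_nonneg hr]⟩
    · exact ⟨-z, S.sym z hz, by rw [abs_of_nonpos hr]; module⟩
  obtain ⟨x', hx', ex⟩ := key x hx s
  obtain ⟨y', hy', ey⟩ := key y hy t
  rw [ex, ey]
  have := S.cvx.sum_mem (t := (Finset.univ : Finset (Fin 3)))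
      (w := ![|s|, |t|, 1 - |s| - |t|]) (z := ![x', y', 0])
      (by intro i _; fin_cases i <;> simp <;> linarith)
      (by simp [Fin.sum_univ_three])
      (by
        intro i _
        fin_cases i
        · exact hx'
        · exact hy'
        · exact S.zero)
  simpa [Fin.sum_univ_three] using this

theorem Sym.int0 {K : Set E} (S : Sym K) : (0 : E) ∈ interior K := by
  obtain ⟨x, hx, y, hy, hxy⟩ := S.ndg
  rw [mem_interior]
  refine ⟨{z | |det2 z y / det2 x y| + |det2 x z / det2 x y| < 1}, ?_, ?_, ?_⟩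
  · intro z hz
    have hz' : |det2 z y / det2 x y| + |det2 x z / det2 x y| < 1 := hz
    have e : z = (det2 z y / det2 x y) • x + (det2 x z / det2 x y) • y := by
      apply ext2
      · simp only [PiLp.add_apply, PiLp.smul_apply, smul_eq_mul]
        field_simp
        simp only [det2]; ring
      · simp only [PiLp.add_apply, PiLp.smul_apply, smul_eq_mul]
        field_simp
        simp only [det2]; ring
    rw [e]
    exact S.combo hx hy hz'.le
  · apply isOpen_lt _ continuous_const
    unfold det2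
    fun_prop
  · show |det2 0 y / det2 x y| + |det2 x 0 / det2 x y| < 1
    simp [det2]

/-- supporting functional at a boundary point -/
theorem Sym.support {K : Set E} (S : Sym K) {k : E} (hk : k ∉ interior K) :
    ∃ u : E →ₗ[ℝ] ℝ, u k = 1/2 ∧ ∀ z ∈ K, u z ≤ 1/2 := by
  obtain ⟨f, hf⟩ := geometric_hahn_banach_open_point S.cvx.interior isOpen_interior hk
  have h0 : 0 < f k := by
    have := hf 0 S.int0
    rwa [map_zero] at this
  have hle : ∀ z ∈ K, f z ≤ f k := by
    intro z hz
    have hcl : z ∈ closure (interior K) := by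
      rw [S.cvx.closure_interior_eq_closure_of_nonempty_interior ⟨0, S.int0⟩]
      exact subset_closure hz
    have hsub : interior K ⊆ {z | f z ≤ f k} := fun a ha => (hf a ha).le
    have hcl2 : IsClosed {z | f z ≤ f k} := isClosed_le f.continuous continuous_const
    exact closure_minimal hsub hcl2 hcl
  refine ⟨(1/(2 * f k)) • (f : E →ₗ[ℝ] ℝ), ?_, fun z hz => ?_⟩
  · simp only [LinearMap.smul_apply, smul_eq_mul, ContinuousLinearMap.coe_coe]
    field_simp
  · simp only [LinearMap.smul_apply, smul_eq_mul, ContinuousLinearMap.coe_coe]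
    have := hle z hz
    rw [one_div, inv_mul_le_iff₀ (by linarith)]
    linarith

/-- an extreme position of a point of `(K + e) ∩ (K - e)` gives a boundary point of `K` -/
theorem Sym.bdry {K : Set E} (S : Sym K) (g : E →ₗ[ℝ] ℝ) (hg : ∃ z ∈ K, 0 < g z) {e z : E}
    (he : g e = 0)
    (hmax : ∀ z', z' - e ∈ K → z' + e ∈ K → g z' ≤ g z) (h2 : z + e ∈ K) :
    z - e ∉ interior K := by
  intro hint
  have hgc : Continuous g := LinearMap.continuous_of_finiteDimensional g
  -- `z` maximises `g` on `K - e`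
  have hm1 : ∀ z', z' + e ∈ K → g z' ≤ g z := by
    intro z' hz'
    by_contra hc
    push Not at hc
    -- path from `z` to `z'`
    have hopen : ∀ᶠ t : ℝ in nhds 0, z + t • (z' - z) - e ∈ interior K := by
      have hcont : Continuous (fun t : ℝ => z + t • (z' - z) - e) := by fun_prop
      apply hcont.continuousAt.eventually_mem
      apply isOpen_interior.mem_nhds
      simpa using hint
    obtain ⟨t, ht, ht0, ht1⟩ : ∃ t : ℝ, z + t • (z' - z) - e ∈ interior K ∧ 0 < t ∧ t < 1 := by
      have h3 : ∀ᶠ t : ℝ in nhdsWithin 0 (Set.Ioi 0), z + t • (z' - z) - e ∈ interior K :=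
        hopen.filter_mono nhdsWithin_le_nhds
      have h4 : ∀ᶠ t : ℝ in nhdsWithin 0 (Set.Ioi 0), t ∈ Set.Ioo (0:ℝ) 1 :=
        Ioo_mem_nhdsGT (by norm_num)
      obtain ⟨t, ht, ht'⟩ := (h3.and h4).exists
      exact ⟨t, ht, ht'.1, ht'.2⟩
    have h5 : z + t • (z' - z) + e ∈ K := by
      have := S.cvx h2 hz' (a := 1 - t) (b := t) (by linarith) ht0.le (by ring)
      have e1 : (1 - t) • (z + e) + t • (z' + e) = z + t • (z' - z) + e := by module
      rwa [e1] at this
    have h6 := hmax _ (interior_subset ht) h5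
    rw [map_add, map_smul, map_sub, smul_eq_mul] at h6
    have := mul_pos ht0 (sub_pos.2 hc)
    linarith
  -- so `z - e` maximises `g` on `K`
  have hm2 : ∀ k ∈ K, g k ≤ g (z - e) := by
    intro k hk
    have := hm1 (k - e) (by simpa using hk)
    rw [map_sub, he] at this
    rw [map_sub, he]
    linarith
  -- contradiction: move in the direction of `z0`
  obtain ⟨z0, hz0, hgz0⟩ := hg
  have hopen : ∀ᶠ t : ℝ in nhds 0, (z - e) + t • z0 ∈ interior K := by
    have hcont : Continuous (fun t : ℝ => (z - e) + t • z0) := by fun_prop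
    apply hcont.continuousAt.eventually_mem
    apply isOpen_interior.mem_nhds
    simpa using hint
  have h3 : ∀ᶠ t : ℝ in nhdsWithin 0 (Set.Ioi 0), (z - e) + t • z0 ∈ interior K :=
    hopen.filter_mono nhdsWithin_le_nhds
  obtain ⟨t, ht, ht'⟩ := (h3.and self_mem_nhdsWithin).exists
  have h6 := hm2 _ (interior_subset ht)
  rw [map_add, map_smul, smul_eq_mul] at h6
  have := mul_pos (show 0 < t from ht') hgz0
  linarith

/-- the coordinate system of a triple -/
structure Tri (K : Set E) (k1 k2 k3 : E) (u1 u2 u3 : E →ₗ[ℝ] ℝ) : Prop where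
  m1 : k1 ∈ K
  m2 : k2 ∈ K
  m3 : k3 ∈ K
  sum : k1 + k2 + k3 = 0
  det : det2 k2 k3 ≠ 0
  e1 : u1 k1 = 1/2
  e2 : u2 k2 = 1/2
  e3 : u3 k3 = 1/2
  b1 : ∀ z ∈ K, u1 z ≤ 1/2
  b2 : ∀ z ∈ K, u2 z ≤ 1/2
  b3 : ∀ z ∈ K, u3 z ≤ 1/2

/-- for every direction there is a triple whose first functional has this direction -/
theorem Sym.tri {K : Set E} (S : Sym K) {w : E} (hw : w ≠ 0) :
    ∃ (c : ℝ) (k1 k2 k3 : E) (u2 u3 : E →ₗ[ℝ] ℝ), 0 < c ∧
      Tri K k1 k2 k3 (c • ell w) u2 u3 := by
  obtain ⟨x, hx, y, hy, hxy⟩ := S.ndg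
  have hKne : K.Nonempty := ⟨0, S.zero⟩
  have hwc : Continuous (ell w) := LinearMap.continuous_of_finiteDimensional _
  obtain ⟨k1, hk1, hk1m⟩ := S.cpt.exists_isMaxOn hKne hwc.continuousOn
  have hk1m' : ∀ z ∈ K, ell w z ≤ ell w k1 := fun z hz => hk1m hz
  have hpos : 0 < ell w k1 := by
    by_contra hc
    push Not at hc
    have hz : ∀ z ∈ K, ell w z = 0 := by
      intro z hz
      have a1 := hk1m' z hz
      have a2 := hk1m' (-z) (S.sym z hz)
      rw [map_neg] at a2
      linarith
    have h1 := hz x hx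
    have h2 := hz y hy
    rw [ell_apply] at h1 h2
    apply hw
    have hd : x 0 * y 1 - x 1 * y 0 ≠ 0 := hxy
    apply ext2
    · have : (x 0 * y 1 - x 1 * y 0) * w 0 = 0 := by linear_combination y 1 * h1 - x 1 * h2
      simpa using (mul_eq_zero.1 this).resolve_left hd
    · have : (x 0 * y 1 - x 1 * y 0) * w 1 = 0 := by linear_combination x 0 * h2 - y 0 * h1
      simpa using (mul_eq_zero.1 this).resolve_left hd
  -- the functional vanishing at `k1`
  let g : E →ₗ[ℝ] ℝ :=
    { toFun := fun z => det2 k1 z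
      map_add' := by intro x y; simp [det2]; ring
      map_smul' := by intro c x; simp [det2]; ring }
  have hg : ∀ z, g z = det2 k1 z := fun _ => rfl
  have hgc : Continuous g := LinearMap.continuous_of_finiteDimensional g
  have hk1ne : k1 0 ≠ 0 ∨ k1 1 ≠ 0 := by
    by_contra hc
    push Not at hc
    rw [ell_apply, hc.1, hc.2] at hpos
    simp at hpos
  obtain ⟨z0, hz0, hgz0⟩ : ∃ z ∈ K, 0 < g z := by
    have hne : g x ≠ 0 ∨ g y ≠ 0 := by
      by_contra hc
      push Not at hc
      obtain ⟨h1, h2⟩ := hc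
      rw [hg] at h1 h2
      simp only [det2] at h1 h2
      apply hxy
      simp only [det2]
      rcases hk1ne with h | h
      · have : k1 0 * (x 0 * y 1 - x 1 * y 0) = 0 := by linear_combination x 0 * h2 - y 0 * h1
        exact (mul_eq_zero.1 this).resolve_left h
      · have : k1 1 * (x 0 * y 1 - x 1 * y 0) = 0 := by linear_combination x 1 * h2 - y 1 * h1
        exact (mul_eq_zero.1 this).resolve_left h
    have pick : ∀ z ∈ K, g z ≠ 0 → ∃ z ∈ K, 0 < g z := by
      intro z hz hne
      rcases lt_or_gt_of_ne hne with h | h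
      · exact ⟨-z, S.sym z hz, by rw [map_neg]; linarith⟩
      · exact ⟨z, hz, h⟩
    rcases hne with h | h
    · exact pick x hx h
    · exact pick y hy h
  -- the maximiser
  set e : E := (1/2 : ℝ) • k1 with he
  have hge : g e = 0 := by
    rw [he, map_smul, hg]; simp only [det2, smul_eq_mul]; ring
  have hScl : IsCompact {z : E | z - e ∈ K ∧ z + e ∈ K} := by
    have h1 : IsCompact ((fun z : E => z + e) '' K) := S.cpt.image (by fun_prop)
    have h2 : IsClosed {z : E | z + e ∈ K} :=
      S.cpt.isClosed.preimage (show Continuous (fun z : E => z + e) by fun_prop)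
    refine (h1.inter_right h2).of_isClosed_subset ?_ ?_
    · have h3 : IsClosed {z : E | z - e ∈ K} :=
        S.cpt.isClosed.preimage (show Continuous (fun z : E => z - e) by fun_prop)
      exact h3.inter h2
    · rintro z ⟨hz1, hz2⟩
      exact ⟨⟨z - e, hz1, by simp⟩, hz2⟩
  have heK : e ∈ K := by
    have := S.combo hk1 hk1 (s := 1/2) (t := 0) (by norm_num)
    simpa [he] using this
  have heK' : -e ∈ K := S.sym _ heK
  obtain ⟨z, ⟨hz1, hz2⟩, hzmax⟩ := hScl.exists_isMaxOn
    ⟨0, by simpa using heK', by simpa using heK⟩ hgc.continuousOn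
  have hzmax' : ∀ z', z' - e ∈ K → z' + e ∈ K → g z' ≤ g z := fun z' h1 h2 => hzmax ⟨h1, h2⟩
  have hgz : 0 < g z := by
    have := hzmax' ((1/2 : ℝ) • z0)
      (by
        have := S.combo hz0 hk1 (s := 1/2) (t := -(1/2)) (by rw [abs_neg, abs_of_pos] <;> norm_num)
        have e1 : (1/2 : ℝ) • z0 + (-(1/2) : ℝ) • k1 = (1/2 : ℝ) • z0 - e := by rw [he]; module
        rwa [e1] at this)
      (by
        have := S.combo hz0 hk1 (s := 1/2) (t := 1/2) (by rw [abs_of_pos] <;> norm_num)
        rwa [he])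
    rw [map_smul, smul_eq_mul] at this
    linarith
  have hb2 : z - e ∉ interior K := S.bdry g ⟨z0, hz0, hgz0⟩ hge hzmax' hz2
  have hb3 : -(z + e) ∉ interior K := by
    have h4 : z - -e ∉ interior K := S.bdry g ⟨z0, hz0, hgz0⟩ (by rw [map_neg, hge, neg_zero])
      (fun z' h1 h2 => hzmax' z' (by rwa [← sub_eq_add_neg] at h2)
        (by rwa [sub_neg_eq_add] at h1))
      (by rwa [← sub_eq_add_neg])
    rw [sub_neg_eq_add] at h4
    intro hc
    apply h4
    -- interior is symmetric
    have hsym : interior K = (fun z : E => -z) '' interior K := by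
      have h5 : (fun z : E => -z) '' K = K := by
        ext z
        constructor
        · rintro ⟨y, hy, rfl⟩; exact S.sym y hy
        · intro hz; exact ⟨-z, S.sym z hz, by simp⟩
      have := (Homeomorph.neg E).image_interior K
      rw [Homeomorph.coe_neg] at this
      rw [show (fun z : E => -z) = Neg.neg from rfl] at h5 ⊢
      rw [this, h5]
    rw [hsym]
    exact ⟨_, hc, by simp⟩
  obtain ⟨u2, hu2, hu2'⟩ := S.support hb2
  obtain ⟨u3, hu3, hu3'⟩ := S.support hb3
  refine ⟨1/(2 * ell w k1), k1, z - e, -(z + e), u2, u3, by positivity, ?_⟩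
  constructor
  · exact hk1
  · exact hz1
  · exact S.sym _ hz2
  · rw [he]; module
  · -- determinant
    have h1 : det2 (z - e) (-(z + e)) = g z := by
      rw [hg]; simp only [det2, he, PiLp.sub_apply, PiLp.add_apply, PiLp.neg_apply,
        PiLp.smul_apply, smul_eq_mul]; ring
    rw [h1]; exact hgz.ne'
  · simp only [LinearMap.smul_apply, smul_eq_mul]
    field_simp
  · exact hu2
  · exact hu3
  · intro z hz
    simp only [LinearMap.smul_apply, smul_eq_mul]
    have := hk1m' z hz
    rw [one_div, inv_mul_le_iff₀ (by linarith)]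
    linarith
  · exact hu2'
  · exact hu3'

end Pool.Agent.H52.SY
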