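import Mathlib

set_option autoImplicit false
set_option linter.unusedVariables false

namespace Pool.Agent.H52.SY

theorem bp {A B C D : ℝ} (hA : 0 ≤ A) (hB : 0 ≤ B) (hC : 0 ≤ C) (hD : 0 ≤ D) (i j k l : ℕ) :
    0 ≤ A^i*B^j*(C^k*D^l) := by positivity

theorem F1 {x y : ℝ} (lx : 0 ≤ x) (ux : x ≤ 5/8) (ly : 0 ≤ y) (uy : y ≤ 1/2)
    (gst : 0 ≤ 2-4*x-2*y+3*x*y+x^2) :
    0 ≤ 18*(1-x)*(1-y-2*x*y)+(x+y-2*x*y)*(8*y-8*x*y-1) := by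
  have hA := sub_nonneg.2 lx; have hB := sub_nonneg.2 ux
  have hC := sub_nonneg.2 ly; have hD := sub_nonneg.2 uy
  linarith [(mul_nonneg gst (bp hA hB hC hD 0 0 0 1)), (mul_nonneg gst (bp hA hB hC hD 0 0 1 0)), 
    (bp hA hB hC hD 2 0 0 2), (bp hA hB hC hD 1 1 0 2), (bp hA hB hC hD 2 0 1 1), 
    (bp hA hB hC hD 1 1 1 1), (bp hA hB hC hD 2 0 2 0), (bp hA hB hC hD 0 2 2 0), 
    (bp hA hB hC hD 0 2 1 1)]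

theorem F2 {x y : ℝ} (lx : 0 ≤ x) (ux : x ≤ 5/8) (ly : 0 ≤ y) (uy : y ≤ 1/2)
    (gst : 0 ≤ 2-4*x-2*y+3*x*y+x^2) :
    0 ≤ 18*(1-y-2*x*y)+(2-x-y)*(8*y-8*x*y-1) := by
  have hA := sub_nonneg.2 lx; have hB := sub_nonneg.2 ux
  have hC := sub_nonneg.2 ly; have hD := sub_nonneg.2 uy
  linarith [(mul_nonneg gst (bp hA hB hC hD 0 0 1 0)), (mul_nonneg gst (bp hA hB hC hD 0 0 0 1)), 
    (bp hA hB hC hD 2 0 0 2), (bp hA hB hC hD 2 0 1 1), (bp hA hB hC hD 1 1 0 2), 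
    (bp hA hB hC hD 1 1 1 1), (bp hA hB hC hD 1 1 2 0), (bp hA hB hC hD 0 2 2 0), 
    (bp hA hB hC hD 2 0 2 0)]

theorem F3 {x y : ℝ} (lx : 0 ≤ x) (ux : x ≤ 5/8) (ly : 1/2 ≤ y) (uy : y ≤ 1)
    (gst : 0 ≤ 2-4*x-2*y+3*x*y+x^2) :
    0 ≤ 2+x+y-8*x*y := by
  rcases le_total y (3/4) with h0 | h0
  · have hA := sub_nonneg.2 lx; have hB := sub_nonneg.2 ux
    have hC := sub_nonneg.2 ly; have hD := sub_nonneg.2 h0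
    linarith [(mul_nonneg gst (bp hA hB hC hD 0 0 0 0)), (bp hA hB hC hD 1 1 1 0), 
      (bp hA hB hC hD 0 2 1 0), (bp hA hB hC hD 2 0 0 1), (bp hA hB hC hD 1 1 0 1), 
      (bp hA hB hC hD 2 0 1 0)]
  · rcases le_total x (5/16) with h1 | h1
    · have hA := sub_nonneg.2 lx; have hB := sub_nonneg.2 h1
      have hC := sub_nonneg.2 h0; have hD := sub_nonneg.2 uy
      linarith [(bp hA hB hC hD 0 2 0 1), (bp hA hB hC hD 0 2 1 0), 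
        (bp hA hB hC hD 1 1 0 1), (bp hA hB hC hD 1 1 1 0), (bp hA hB hC hD 2 0 0 1), 
        (bp hA hB hC hD 2 0 1 0)]
    · have hA := sub_nonneg.2 h1; have hB := sub_nonneg.2 ux
      have hC := sub_nonneg.2 h0; have hD := sub_nonneg.2 uy
      linarith [(bp hA hB hC hD 0 2 0 1), (bp hA hB hC hD 0 2 1 0), 
        (mul_nonneg gst (bp hA hB hC hD 0 0 0 0)), (bp hA hB hC hD 1 1 0 1), (bp hA hB hC hD 1 1 1 0), 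
        (bp hA hB hC hD 2 0 0 1)]

theorem F4 {x y : ℝ} (lx : 0 ≤ x) (ux : x ≤ 5/8) (ly : 1/2 ≤ y) (uy : y ≤ 1)
    (gst : 0 ≤ 2-4*x-2*y+3*x*y+x^2) :
    0 ≤ 4-3*x+y-6*x*y := by
  have hA := sub_nonneg.2 lx; have hB := sub_nonneg.2 ux
  have hC := sub_nonneg.2 ly; have hD := sub_nonneg.2 uy
  linarith [(bp hA hB hC hD 0 2 1 0), (bp hA hB hC hD 0 2 0 1), 
    (bp hA hB hC hD 1 1 0 1), (bp hA hB hC hD 1 1 1 0), (bp hA hB hC hD 2 0 0 1), 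
    (mul_nonneg gst (bp hA hB hC hD 0 0 0 0))]

theorem F5 {x y : ℝ} (lx : 0 ≤ x) (ux : x ≤ 5/8) (ly : 1/2 ≤ y) (uy : y ≤ 1)
    (gst : 0 ≤ 2-4*x-2*y+3*x*y+x^2) :
    0 ≤ 18*(1-x)^2*(1-y-2*x*y)+(x+y-2*x*y)*(-1+8*y+9*x-16*x*y) := by
  rcases le_total x (5/16) with h0 | h0
  · have hA := sub_nonneg.2 lx; have hB := sub_nonneg.2 h0
    have hC := sub_nonneg.2 ly; have hD := sub_nonneg.2 uy
    linarith [(mul_nonneg gst (bp hA hB hC hD 0 1 0 1)), (mul_nonneg gst (bp hA hB hC hD 0 1 1 0)), 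
      (bp hA hB hC hD 0 3 2 0), (mul_nonneg gst (bp hA hB hC hD 1 0 0 1)), (bp hA hB hC hD 1 2 2 0), 
      (mul_nonneg gst (bp hA hB hC hD 1 0 1 0)), (bp hA hB hC hD 2 1 2 0), (bp hA hB hC hD 3 0 0 2), 
      (bp hA hB hC hD 0 3 1 1), (bp hA hB hC hD 1 2 1 1), (bp hA hB hC hD 0 3 0 2), 
      (bp hA hB hC hD 1 2 0 2)]
  · rcases le_total y (3/4) with h1 | h1
    · have hA := sub_nonneg.2 h0; have hB := sub_nonneg.2 ux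
      have hC := sub_nonneg.2 ly; have hD := sub_nonneg.2 h1
      linarith [(bp hA hB hC hD 0 3 0 2), (mul_nonneg gst (bp hA hB hC hD 0 1 1 0)), 
        (bp hA hB hC hD 1 2 0 2), (bp hA hB hC hD 2 1 0 2), (bp hA hB hC hD 3 0 0 2), 
        (bp hA hB hC hD 2 1 1 1), (bp hA hB hC hD 1 2 1 1), (bp hA hB hC hD 3 0 1 1), 
        (mul_nonneg gst (bp hA hB hC hD 1 0 1 0)), (bp hA hB hC hD 1 2 2 0), (bp hA hB hC hD 2 1 2 0), 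
        (bp hA hB hC hD 0 3 1 1)]
    · have hA := sub_nonneg.2 h0; have hB := sub_nonneg.2 ux
      have hC := sub_nonneg.2 h1; have hD := sub_nonneg.2 uy
      linarith [(mul_nonneg gst (bp hA hB hC hD 0 1 1 0)), (mul_nonneg gst (bp hA hB hC hD 1 0 1 0)), 
        (mul_nonneg gst (bp hA hB hC hD 0 1 0 1)), (mul_nonneg gst (bp hA hB hC hD 1 0 0 1)), (bp hA hB hC hD 0 3 2 0), 
        (bp hA hB hC hD 2 1 0 2), (bp hA hB hC hD 1 2 0 2), (bp hA hB hC hD 0 3 1 1), 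
        (bp hA hB hC hD 3 0 0 2), (bp hA hB hC hD 3 0 1 1), (bp hA hB hC hD 1 2 2 0), 
        (bp hA hB hC hD 2 1 1 1)]

theorem F6 {x y : ℝ} (lx : 0 ≤ x) (ux : x ≤ 5/8) (ly : 1/2 ≤ y) (uy : y ≤ 1)
    (gst : 0 ≤ 2-4*x-2*y+3*x*y+x^2) :
    0 ≤ -1+8*y+9*x-16*x*y := by
  have hA := sub_nonneg.2 lx; have hB := sub_nonneg.2 ux
  have hC := sub_nonneg.2 ly; have hD := sub_nonneg.2 uy
  linarith [(bp hA hB hC hD 0 2 0 1), (bp hA hB hC hD 0 2 1 0), 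
    (bp hA hB hC hD 1 1 0 1), (bp hA hB hC hD 1 1 1 0), (bp hA hB hC hD 2 0 0 1), 
    (bp hA hB hC hD 2 0 1 0)]

theorem F7 {x y : ℝ} (lx : 0 ≤ x) (ux : x ≤ 5/8) (ly : 1/2 ≤ y) (uy : y ≤ 1)
    (gst : 0 ≤ 2-4*x-2*y+3*x*y+x^2) :
    0 ≤ 18*y*(1-x)^2+(2-x-y)*(7-8*y+9*x-8*x*y) := by
  have hA := sub_nonneg.2 lx; have hB := sub_nonneg.2 ux
  have hC := sub_nonneg.2 ly; have hD := sub_nonneg.2 uy
  linarith [(bp hA hB hC hD 0 2 0 2), (bp hA hB hC hD 0 2 1 1), 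
    (bp hA hB hC hD 0 2 2 0), (bp hA hB hC hD 1 1 0 2), (bp hA hB hC hD 1 1 1 1), 
    (bp hA hB hC hD 1 1 2 0), (bp hA hB hC hD 2 0 0 2), (bp hA hB hC hD 2 0 1 1), 
    (bp hA hB hC hD 2 0 2 0)]

theorem F8 {x y : ℝ} (lx : 0 ≤ x) (ux : x ≤ 5/8) (ly : 1/2 ≤ y) (uy : y ≤ 1)
    (gst : 0 ≤ 2-4*x-2*y+3*x*y+x^2) :
    0 ≤ (x+y-2*x*y)*(15-7*x-8*y)+18*y*(1-x)^2*(1-3*x) := by
  have hA := sub_nonneg.2 lx; have hB := sub_nonneg.2 ux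
  have hC := sub_nonneg.2 ly; have hD := sub_nonneg.2 uy
  linarith [(bp hA hB hC hD 0 3 2 0), (bp hA hB hC hD 0 3 1 1), 
    (bp hA hB hC hD 0 3 0 2), (bp hA hB hC hD 1 2 1 1), (bp hA hB hC hD 1 2 0 2), 
    (bp hA hB hC hD 1 2 2 0), (bp hA hB hC hD 2 1 0 2), (bp hA hB hC hD 3 0 0 2), 
    (mul_nonneg gst (bp hA hB hC hD 1 0 1 0)), (bp hA hB hC hD 3 0 1 1), (bp hA hB hC hD 2 1 1 1), 
    (bp hA hB hC hD 2 1 2 0)]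

theorem F9 {x y : ℝ} (lx : 0 ≤ x) (ux : x ≤ 5/8) (ly : 0 ≤ y) (uy : y ≤ 1)
    (gst : 0 ≤ 2-4*x-2*y+3*x*y+x^2)
    (gsk : 0 ≤ 16-33*x-16*y+24*x*y+9*x^2)
    (gsq : 0 ≤ 16-24*y-9*x) :
    0 ≤ 18*(1-x)*(1-x-2*x*y)+(x+y-2*x*y)*(1+9*x-9*x*y) := by
  have hA := sub_nonneg.2 lx; have hB := sub_nonneg.2 ux
  have hC := sub_nonneg.2 ly; have hD := sub_nonneg.2 uy
  linarith [(mul_nonneg gsk (bp hA hB hC hD 0 0 1 0)), (mul_nonneg gst (bp hA hB hC hD 0 0 0 1)), 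
    (bp hA hB hC hD 0 2 2 0), (bp hA hB hC hD 2 0 0 2), (bp hA hB hC hD 1 1 2 0), 
    (bp hA hB hC hD 2 0 1 1), (bp hA hB hC hD 0 2 1 1), (mul_nonneg gsq (bp hA hB hC hD 1 0 1 0)), 
    (bp hA hB hC hD 1 1 0 2)]

theorem F10 {x y : ℝ} (lx : 0 ≤ x) (ux : x ≤ 5/8) (ly : 0 ≤ y) (uy : y ≤ 1)
    (gst : 0 ≤ 2-4*x-2*y+3*x*y+x^2)
    (gsk : 0 ≤ 16-33*x-16*y+24*x*y+9*x^2)
    (gsq : 0 ≤ 16-24*y-9*x) :
    0 ≤ 19*y+9*x-36*x*y-9*x*y^2 := by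
  have hA := sub_nonneg.2 lx; have hB := sub_nonneg.2 ux
  have hC := sub_nonneg.2 ly; have hD := sub_nonneg.2 uy
  linarith [(bp hA hB hC hD 0 2 2 0), (bp hA hB hC hD 0 2 1 1), 
    (bp hA hB hC hD 1 1 2 0), (bp hA hB hC hD 1 1 1 1), (bp hA hB hC hD 2 0 0 2), 
    (mul_nonneg gsq (bp hA hB hC hD 1 0 1 0)), (bp hA hB hC hD 1 1 0 2), (bp hA hB hC hD 2 0 1 1)]

theorem F11 {x y : ℝ} (lx : 0 ≤ x) (ux : x ≤ 5/8) (ly : 1/2 ≤ y) (uy : y ≤ 1)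
    (gsk : 0 ≤ 16-33*x-16*y+24*x*y+9*x^2)
    (gsj : 0 ≤ 16-27*x-8*y) :
    0 ≤ (x+y-2*x*y)*(18-8*y-9*x*y)-18*(1-x)*x*y*(1+y) := by
  rcases le_total y (3/4) with h0 | h0
  · have hA := sub_nonneg.2 lx; have hB := sub_nonneg.2 ux
    have hC := sub_nonneg.2 ly; have hD := sub_nonneg.2 h0
    linarith [(mul_nonneg gsk (bp hA hB hC hD 0 0 1 0)), (bp hA hB hC hD 0 2 0 2), 
      (bp hA hB hC hD 2 0 0 2), (bp hA hB hC hD 1 1 0 2), (bp hA hB hC hD 2 0 1 1), 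
      (bp hA hB hC hD 2 0 2 0), (mul_nonneg gsj (bp hA hB hC hD 0 1 1 0)), (bp hA hB hC hD 0 2 1 1), 
      (bp hA hB hC hD 1 1 2 0)]
  · have hA := sub_nonneg.2 lx; have hB := sub_nonneg.2 ux
    have hC := sub_nonneg.2 h0; have hD := sub_nonneg.2 uy
    linarith [(mul_nonneg gsj (bp hA hB hC hD 0 1 1 0)), (mul_nonneg gsk (bp hA hB hC hD 0 0 0 1)), 
      (mul_nonneg gsj (bp hA hB hC hD 1 0 1 0)), (mul_nonneg gsk (bp hA hB hC hD 0 0 1 0)), (bp hA hB hC hD 2 0 0 2), 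
      (bp hA hB hC hD 0 2 1 1), (bp hA hB hC hD 2 0 1 1), (bp hA hB hC hD 1 1 1 1), 
      (mul_nonneg gsj (bp hA hB hC hD 0 1 0 1))]

theorem F12 {x y : ℝ} (lx : 0 ≤ x) (ux : x ≤ 5/8) (ly : 1/2 ≤ y) (uy : y ≤ 1)
    (gsk : 0 ≤ 16-33*x-16*y+24*x*y+9*x^2) :
    0 ≤ 36-18*x-54*x*y-(2-x-y)*(8-9*x) := by
  rcases le_total x (5/16) with h0 | h0
  · have hA := sub_nonneg.2 lx; have hB := sub_nonneg.2 h0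
    have hC := sub_nonneg.2 ly; have hD := sub_nonneg.2 uy
    linarith [(bp hA hB hC hD 0 2 0 1), (bp hA hB hC hD 0 2 1 0), 
      (bp hA hB hC hD 1 1 0 1), (bp hA hB hC hD 1 1 1 0), (bp hA hB hC hD 2 0 0 1), 
      (bp hA hB hC hD 2 0 1 0)]
  · have hA := sub_nonneg.2 h0; have hB := sub_nonneg.2 ux
    have hC := sub_nonneg.2 ly; have hD := sub_nonneg.2 uy
    linarith [(bp hA hB hC hD 0 2 0 1), (bp hA hB hC hD 1 1 0 1), 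
      (bp hA hB hC hD 0 2 1 0), (bp hA hB hC hD 2 0 0 1), (mul_nonneg gsk (bp hA hB hC hD 0 0 0 0)), 
      (bp hA hB hC hD 1 1 1 0)]

theorem F13 {x y : ℝ} (lx : 0 ≤ x) (ux : x ≤ 5/8) (ly : 1/2 ≤ y) (uy : y ≤ 1)
    (gsk : 0 ≤ 16-33*x-16*y+24*x*y+9*x^2)
    (gsj : 0 ≤ 16-27*x-8*y) :
    0 ≤ 18*(1-x)*(y-x*y-2*x*y^2)+(x+y-2*x*y)*(9-8*y) := by
  have hA := sub_nonneg.2 lx; have hB := sub_nonneg.2 ux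
  have hC := sub_nonneg.2 ly; have hD := sub_nonneg.2 uy
  linarith [(mul_nonneg gsj (bp hA hB hC hD 0 1 1 0)), (bp hA hB hC hD 0 2 0 2), 
    (mul_nonneg gsj (bp hA hB hC hD 1 0 1 0)), (bp hA hB hC hD 1 1 2 0), (bp hA hB hC hD 1 1 0 2), 
    (bp hA hB hC hD 1 1 1 1), (bp hA hB hC hD 2 0 0 2), (bp hA hB hC hD 0 2 1 1), 
    (bp hA hB hC hD 2 0 1 1)]

theorem F14 {x y : ℝ} (lx : 0 ≤ x) (ux : x ≤ 5/8) (ly : 1/2 ≤ y) (uy : y ≤ 1)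
    (gsk : 0 ≤ 16-33*x-16*y+24*x*y+9*x^2)
    (gsj : 0 ≤ 16-27*x-8*y) :
    0 ≤ (x+y-2*x*y)*(9-18*x*y+y+8*y^2)-18*y*(1-x)^2*(1-y) := by
  have hA := sub_nonneg.2 lx; have hB := sub_nonneg.2 ux
  have hC := sub_nonneg.2 ly; have hD := sub_nonneg.2 uy
  linarith [(bp hA hB hC hD 0 2 0 3), (bp hA hB hC hD 0 2 1 2), 
    (bp hA hB hC hD 0 2 2 1), (bp hA hB hC hD 0 2 3 0), (bp hA hB hC hD 1 1 0 3), 
    (bp hA hB hC hD 1 1 1 2), (bp hA hB hC hD 1 1 2 1), (bp hA hB hC hD 1 1 3 0), 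
    (bp hA hB hC hD 2 0 0 3), (bp hA hB hC hD 2 0 1 2), (bp hA hB hC hD 2 0 2 1), 
    (bp hA hB hC hD 2 0 3 0)]

theorem F15 {x y : ℝ} (lx : 0 ≤ x) (ux : x ≤ 5/8) (ly : 1/2 ≤ y) (uy : y ≤ 1)
    (gsk : 0 ≤ 16-33*x-16*y+24*x*y+9*x^2)
    (gsj : 0 ≤ 16-27*x-8*y) :
    0 ≤ (x+y-2*x*y)*(9+y-9*x*y^2)+18*(1-x)*y*(y-x-x*y-x*y^2) := by
  have hA := sub_nonneg.2 lx; have hB := sub_nonneg.2 ux
  have hC := sub_nonneg.2 ly; have hD := sub_nonneg.2 uy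
  linarith [(mul_nonneg gsj (bp hA hB hC hD 0 1 2 0)), (bp hA hB hC hD 0 2 1 2), 
    (bp hA hB hC hD 1 1 3 0), (bp hA hB hC hD 0 2 0 3), (mul_nonneg gsk (bp hA hB hC hD 0 0 2 0)), 
    (bp hA hB hC hD 1 1 2 1), (bp hA hB hC hD 1 1 0 3), (bp hA hB hC hD 1 1 1 2), 
    (bp hA hB hC hD 2 0 0 3), (bp hA hB hC hD 2 0 1 2), (bp hA hB hC hD 2 0 3 0), 
    (mul_nonneg gsj (bp hA hB hC hD 1 0 1 1))]

theorem F16 {x y : ℝ} (lx : 0 ≤ x) (ux : x ≤ 5/8) (ly : 1/2 ≤ y) (uy : y ≤ 1)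
    (gsk : 0 ≤ 16-33*x-16*y+24*x*y+9*x^2)
    (gsj : 0 ≤ 16-27*x-8*y) :
    0 ≤ (x+y-2*x*y)*(10-9*x)+18*(1-x)*(1+x-4*x*y) := by
  have hA := sub_nonneg.2 lx; have hB := sub_nonneg.2 ux
  have hC := sub_nonneg.2 ly; have hD := sub_nonneg.2 uy
  linarith [(mul_nonneg gsj (bp hA hB hC hD 0 1 0 0)), (bp hA hB hC hD 1 1 0 1), 
    (bp hA hB hC hD 0 2 1 0), (bp hA hB hC hD 1 1 1 0), (bp hA hB hC hD 2 0 0 1), 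
    (mul_nonneg gsj (bp hA hB hC hD 1 0 0 0))]

theorem F17 {x y : ℝ} (lx : 0 ≤ x) (ux : x ≤ 5/8) (ly : 1/2 ≤ y) (uy : y ≤ 1)
    (gsk : 0 ≤ 16-33*x-16*y+24*x*y+9*x^2)
    (gsj : 0 ≤ 16-27*x-8*y) :
    0 ≤ 18*(1-x)*x*y*(1-3*y)+(x+y-2*x*y)*(9-18*x*y+10*y) := by
  have hA := sub_nonneg.2 lx; have hB := sub_nonneg.2 ux
  have hC := sub_nonneg.2 ly; have hD := sub_nonneg.2 uy
  linarith [(mul_nonneg gsj (bp hA hB hC hD 0 1 1 0)), (mul_nonneg gsj (bp hA hB hC hD 1 0 1 0)), 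
    (bp hA hB hC hD 0 2 0 2), (bp hA hB hC hD 1 1 0 2), (bp hA hB hC hD 2 0 0 2), 
    (bp hA hB hC hD 1 1 1 1), (bp hA hB hC hD 1 1 2 0), (bp hA hB hC hD 2 0 1 1), 
    (bp hA hB hC hD 0 2 2 0)]

theorem F18 {x y : ℝ} (lx : 0 ≤ x) (ux : x ≤ 5/8) (ly : 1/2 ≤ y) (uy : y ≤ 1)
    (gsk : 0 ≤ 16-33*x-16*y+24*x*y+9*x^2)
    (gsu : 0 ≤ 2-3*x-3*y+4*x*y) :
    0 ≤ (x+y-2*x*y)*(18-9*y-8*y*(1-y)-9*x*y)-18*(1-x)*y*(1-y)*(1+x) := by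
  have hA := sub_nonneg.2 lx; have hB := sub_nonneg.2 ux
  have hC := sub_nonneg.2 ly; have hD := sub_nonneg.2 uy
  linarith [(bp hA hB hC hD 0 2 3 0), (bp hA hB hC hD 0 2 2 1), 
    (bp hA hB hC hD 1 1 3 0), (bp hA hB hC hD 0 2 1 2), (bp hA hB hC hD 2 0 0 3), 
    (mul_nonneg gsk (bp hA hB hC hD 0 0 0 2)), (bp hA hB hC hD 2 0 3 0), (bp hA hB hC hD 1 1 2 1), 
    (bp hA hB hC hD 1 1 0 3), (bp hA hB hC hD 1 1 1 2), (bp hA hB hC hD 2 0 1 2), 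
    (mul_nonneg gsu (bp hA hB hC hD 1 0 1 1))]

theorem F19 {x y : ℝ} (lx : 0 ≤ x) (ux : x ≤ 5/8) (ly : 1/2 ≤ y) (uy : y ≤ 1)
    (gsk : 0 ≤ 16-33*x-16*y+24*x*y+9*x^2)
    (gsu : 0 ≤ 2-3*x-3*y+4*x*y) :
    0 ≤ (x+y-2*x*y)*(1+9*x+8*y-18*x*y)+18*(1-x)*(1-y)*(1-x-2*x*y) := by
  have hA := sub_nonneg.2 lx; have hB := sub_nonneg.2 ux
  have hC := sub_nonneg.2 ly; have hD := sub_nonneg.2 uy
  linarith [(bp hA hB hC hD 0 2 0 2), (bp hA hB hC hD 0 2 1 1), 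
    (bp hA hB hC hD 0 2 2 0), (bp hA hB hC hD 1 1 0 2), (bp hA hB hC hD 1 1 1 1), 
    (bp hA hB hC hD 1 1 2 0), (bp hA hB hC hD 2 0 0 2), (bp hA hB hC hD 2 0 1 1), 
    (bp hA hB hC hD 2 0 2 0)]

theorem F20 {x y : ℝ} (lx : 0 ≤ x) (ux : x ≤ 5/8) (ly : 1/2 ≤ y) (uy : y ≤ 1)
    (gsk : 0 ≤ 16-33*x-16*y+24*x*y+9*x^2)
    (gsu : 0 ≤ 2-3*x-3*y+4*x*y) :
    0 ≤ (x+y-2*x*y)*(9-9*x*y-(1-y)*(8*y-9*x*y))-18*(1-x)*x*y*(1-y^2) := by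
  have hA := sub_nonneg.2 lx; have hB := sub_nonneg.2 ux
  have hC := sub_nonneg.2 ly; have hD := sub_nonneg.2 uy
  linarith [(bp hA hB hC hD 0 2 0 3), (bp hA hB hC hD 0 2 1 2), 
    (bp hA hB hC hD 0 2 2 1), (bp hA hB hC hD 0 2 3 0), (bp hA hB hC hD 1 1 0 3), 
    (bp hA hB hC hD 1 1 1 2), (bp hA hB hC hD 1 1 2 1), (bp hA hB hC hD 1 1 3 0), 
    (bp hA hB hC hD 2 0 0 3), (bp hA hB hC hD 2 0 1 2), (bp hA hB hC hD 2 0 2 1), 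
    (bp hA hB hC hD 2 0 3 0)]

theorem F21 {x y : ℝ} (lx : 0 ≤ x) (ux : x ≤ 5/8) (ly : 1/2 ≤ y) (uy : y ≤ 1)
    (gsk : 0 ≤ 16-33*x-16*y+24*x*y+9*x^2)
    (gsu : 0 ≤ 2-3*x-3*y+4*x*y) :
    0 ≤ (x+y-2*x*y)*((1-y)*(10-9*x)+9-9*x*y)+18*(1-x)*(1-y)*x*(1-3*y) := by
  have hA := sub_nonneg.2 lx; have hB := sub_nonneg.2 ux
  have hC := sub_nonneg.2 ly; have hD := sub_nonneg.2 uy
  linarith [(bp hA hB hC hD 0 2 0 2), (bp hA hB hC hD 0 2 1 1), 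
    (bp hA hB hC hD 0 2 2 0), (bp hA hB hC hD 1 1 0 2), (bp hA hB hC hD 1 1 1 1), 
    (bp hA hB hC hD 1 1 2 0), (bp hA hB hC hD 2 0 0 2), (bp hA hB hC hD 2 0 1 1), 
    (bp hA hB hC hD 2 0 2 0)]

theorem G1a {x y : ℝ} (lx : 1/5 ≤ x) (ux : x ≤ 5/8) (ly : 0 ≤ y) (uy : y ≤ 7/8)
    (gxy : 0 ≤ y-x)
    (gsA : 0 ≤ 4-7*x-5*y+8*x*y)
    (gsu : 0 ≤ 2-3*x-3*y+4*x*y) :
    0 ≤ (x+y-2*x*y)*(2-y-x*y)-2*(1-x)*y*(1-y)*(1+2*x) := by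
  rcases le_total y (7/16) with h0 | h0
  · have hA := sub_nonneg.2 lx; have hB := sub_nonneg.2 ux
    have hC := sub_nonneg.2 ly; have hD := sub_nonneg.2 h0
    linarith [(bp hA hB hC hD 0 2 0 2), (bp hA hB hC hD 0 2 1 1), 
      (bp hA hB hC hD 0 2 2 0), (bp hA hB hC hD 1 1 0 2), (bp hA hB hC hD 1 1 1 1), 
      (bp hA hB hC hD 1 1 2 0), (bp hA hB hC hD 2 0 0 2), (bp hA hB hC hD 2 0 1 1), 
      (bp hA hB hC hD 2 0 2 0)]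
  · have hA := sub_nonneg.2 lx; have hB := sub_nonneg.2 ux
    have hC := sub_nonneg.2 h0; have hD := sub_nonneg.2 uy
    linarith [(mul_nonneg gxy (bp hA hB hC hD 0 1 1 0)), (bp hA hB hC hD 2 0 0 2), 
      (bp hA hB hC hD 0 2 0 2), (mul_nonneg gsu (bp hA hB hC hD 1 0 0 1)), (mul_nonneg gxy (bp hA hB hC hD 1 0 1 0)), 
      (bp hA hB hC hD 0 2 1 1), (bp hA hB hC hD 2 0 1 1), (bp hA hB hC hD 1 1 1 1), 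
      (bp hA hB hC hD 2 0 2 0)]

theorem G1b {x y : ℝ} (lx : 0 ≤ x) (ux : x ≤ 1/5) (ly : 9/20 ≤ y) (uy : y ≤ 7/8)
    (gxy : 0 ≤ y-x)
    (gsA : 0 ≤ 4-7*x-5*y+8*x*y)
    (gsu : 0 ≤ 2-3*x-3*y+4*x*y) :
    0 ≤ (x+y-2*x*y)*(2-y-x*y)-2*(1-x)*y*(1-y)*(1+2*x) := by
  have hA := sub_nonneg.2 lx; have hB := sub_nonneg.2 ux
  have hC := sub_nonneg.2 ly; have hD := sub_nonneg.2 uy
  linarith [(bp hA hB hC hD 0 2 0 2), (bp hA hB hC hD 0 2 1 1), 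
    (bp hA hB hC hD 0 2 2 0), (bp hA hB hC hD 1 1 0 2), (bp hA hB hC hD 1 1 1 1), 
    (bp hA hB hC hD 1 1 2 0), (bp hA hB hC hD 2 0 0 2), (bp hA hB hC hD 2 0 1 1), 
    (bp hA hB hC hD 2 0 2 0)]

theorem G2 {x y : ℝ} (lx : 0 ≤ x) (ux : x ≤ 5/8) (ly : 0 ≤ y) (uy : y ≤ 7/8)
    (gxy : 0 ≤ y-x)
    (gsA : 0 ≤ 4-7*x-5*y+8*x*y)
    (gsu : 0 ≤ 2-3*x-3*y+4*x*y) :
    0 ≤ (x+y-2*x*y)*(1+x-2*x*y)+2*(1-x)*(1-y)*(1-2*x-2*x*y) := by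
  have hA := sub_nonneg.2 lx; have hB := sub_nonneg.2 ux
  have hC := sub_nonneg.2 ly; have hD := sub_nonneg.2 uy
  linarith [(bp hA hB hC hD 0 2 0 2), (bp hA hB hC hD 0 2 1 1), 
    (bp hA hB hC hD 0 2 2 0), (bp hA hB hC hD 2 0 0 2), (bp hA hB hC hD 1 1 0 2), 
    (bp hA hB hC hD 1 1 2 0), (bp hA hB hC hD 1 1 1 1), (bp hA hB hC hD 2 0 2 0), 
    (mul_nonneg gxy (bp hA hB hC hD 1 0 1 0))]

theorem G3 {x y : ℝ} (lx : 0 ≤ x) (ux : x ≤ 5/8) (ly : 0 ≤ y) (uy : y ≤ 7/8)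
    (gxy : 0 ≤ y-x)
    (gsA : 0 ≤ 4-7*x-5*y+8*x*y) :
    0 ≤ (x+y-2*x*y)+2*(1-x)*y*(1-2*x-2*x*y) := by
  rcases le_total x (5/16) with h0 | h0
  · have hA := sub_nonneg.2 lx; have hB := sub_nonneg.2 h0
    have hC := sub_nonneg.2 ly; have hD := sub_nonneg.2 uy
    linarith [(bp hA hB hC hD 0 2 1 1), (bp hA hB hC hD 0 2 2 0), 
      (bp hA hB hC hD 1 1 0 2), (bp hA hB hC hD 1 1 1 1), (bp hA hB hC hD 1 1 2 0), 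
      (bp hA hB hC hD 2 0 0 2), (bp hA hB hC hD 2 0 1 1), (bp hA hB hC hD 2 0 2 0)]
  · have hA := sub_nonneg.2 h0; have hB := sub_nonneg.2 ux
    have hC := sub_nonneg.2 ly; have hD := sub_nonneg.2 uy
    linarith [(bp hA hB hC hD 2 0 0 2), (mul_nonneg gsA (bp hA hB hC hD 1 0 1 0)), 
      (bp hA hB hC hD 2 0 1 1), (bp hA hB hC hD 1 1 0 2), (bp hA hB hC hD 0 2 2 0), 
      (bp hA hB hC hD 0 2 0 2), (mul_nonneg gsA (bp hA hB hC hD 0 1 1 0)), (bp hA hB hC hD 1 1 2 0), 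
      (mul_nonneg gxy (bp hA hB hC hD 0 1 1 0))]

theorem G4a {x y : ℝ} (lx : 1/5 ≤ x) (ux : x ≤ 5/8) (ly : 0 ≤ y) (uy : y ≤ 7/8)
    (gxy : 0 ≤ y-x)
    (gsA : 0 ≤ 4-7*x-5*y+8*x*y) :
    0 ≤ (x+y-2*x*y)*(1+y-2*x*y)-2*(1-x)*y*(1-y) := by
  rcases le_total y (7/16) with h0 | h0
  · have hA := sub_nonneg.2 lx; have hB := sub_nonneg.2 ux
    have hC := sub_nonneg.2 ly; have hD := sub_nonneg.2 h0
    linarith [(bp hA hB hC hD 0 2 0 2), (bp hA hB hC hD 0 2 1 1), 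
      (bp hA hB hC hD 0 2 2 0), (bp hA hB hC hD 1 1 0 2), (bp hA hB hC hD 1 1 1 1), 
      (bp hA hB hC hD 1 1 2 0), (bp hA hB hC hD 2 0 0 2), (bp hA hB hC hD 2 0 1 1), 
      (bp hA hB hC hD 2 0 2 0)]
  · have hA := sub_nonneg.2 lx; have hB := sub_nonneg.2 ux
    have hC := sub_nonneg.2 h0; have hD := sub_nonneg.2 uy
    linarith [(bp hA hB hC hD 0 2 0 2), (bp hA hB hC hD 0 2 1 1), 
      (bp hA hB hC hD 0 2 2 0), (bp hA hB hC hD 1 1 0 2), (bp hA hB hC hD 1 1 1 1), 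
      (bp hA hB hC hD 1 1 2 0), (bp hA hB hC hD 2 0 0 2), (bp hA hB hC hD 2 0 1 1), 
      (bp hA hB hC hD 2 0 2 0)]

theorem G4b {x y : ℝ} (lx : 0 ≤ x) (ux : x ≤ 1/5) (ly : 9/20 ≤ y) (uy : y ≤ 7/8)
    (gxy : 0 ≤ y-x)
    (gsA : 0 ≤ 4-7*x-5*y+8*x*y) :
    0 ≤ (x+y-2*x*y)*(1+y-2*x*y)-2*(1-x)*y*(1-y) := by
  have hA := sub_nonneg.2 lx; have hB := sub_nonneg.2 ux
  have hC := sub_nonneg.2 ly; have hD := sub_nonneg.2 uy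
  linarith [(bp hA hB hC hD 0 2 0 2), (bp hA hB hC hD 0 2 1 1), 
    (bp hA hB hC hD 0 2 2 0), (bp hA hB hC hD 1 1 0 2), (bp hA hB hC hD 1 1 1 1), 
    (bp hA hB hC hD 1 1 2 0), (bp hA hB hC hD 2 0 0 2), (bp hA hB hC hD 2 0 1 1), 
    (bp hA hB hC hD 2 0 2 0)]

theorem G5 {x y : ℝ} (lx : 0 ≤ x) (ux : x ≤ 5/8) (ly : 0 ≤ y) (uy : y ≤ 7/8)
    (gxy : 0 ≤ y-x)
    (gsA : 0 ≤ 4-7*x-5*y+8*x*y)
    (gsu : 0 ≤ 2-3*x-3*y+4*x*y) :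
    0 ≤ (x+y-2*x*y)*(1-x*y^2)-2*(1-x)*x*y*(1-y)*(2+y) := by
  have hA := sub_nonneg.2 lx; have hB := sub_nonneg.2 ux
  have hC := sub_nonneg.2 ly; have hD := sub_nonneg.2 uy
  linarith [(mul_nonneg gxy (bp hA hB hC hD 0 1 2 0)), (bp hA hB hC hD 2 0 0 3), 
    (bp hA hB hC hD 0 2 2 1), (bp hA hB hC hD 1 1 0 3), (bp hA hB hC hD 0 2 1 2), 
    (bp hA hB hC hD 2 0 1 2), (mul_nonneg gxy (bp hA hB hC hD 1 0 2 0)), (bp hA hB hC hD 1 1 2 1), 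
    (bp hA hB hC hD 1 1 1 2), (bp hA hB hC hD 2 0 2 1), (bp hA hB hC hD 2 0 3 0)]

theorem G6 {x y : ℝ} (lx : 0 ≤ x) (ux : x ≤ 5/8) (ly : 0 ≤ y) (uy : y ≤ 7/8)
    (gxy : 0 ≤ y-x)
    (gsA : 0 ≤ 4-7*x-5*y+8*x*y)
    (gsu : 0 ≤ 2-3*x-3*y+4*x*y) :
    0 ≤ (x+y-2*x*y)*(3-x-2*y)-6*(1-x)*x*y*(1-y) := by
  have hA := sub_nonneg.2 lx; have hB := sub_nonneg.2 ux
  have hC := sub_nonneg.2 ly; have hD := sub_nonneg.2 uy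
  linarith [(bp hA hB hC hD 0 2 1 1), (bp hA hB hC hD 0 2 2 0), 
    (bp hA hB hC hD 1 1 0 2), (bp hA hB hC hD 1 1 1 1), (bp hA hB hC hD 1 1 2 0), 
    (bp hA hB hC hD 2 0 0 2), (bp hA hB hC hD 2 0 1 1), (bp hA hB hC hD 2 0 2 0)]

theorem G7 {x y : ℝ} (lx : 0 ≤ x) (ux : x ≤ 5/8) (ly : 0 ≤ y) (uy : y ≤ 7/8)
    (gxy : 0 ≤ y-x)
    (gsA : 0 ≤ 4-7*x-5*y+8*x*y) :
    0 ≤ (x+y-2*x*y)*(1+2*y-2*x*y)-6*(1-x)*x*y^2 := by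
  rcases le_total x (5/16) with h0 | h0
  · have hA := sub_nonneg.2 lx; have hB := sub_nonneg.2 h0
    have hC := sub_nonneg.2 ly; have hD := sub_nonneg.2 uy
    linarith [(bp hA hB hC hD 0 2 1 1), (bp hA hB hC hD 0 2 2 0), 
      (bp hA hB hC hD 1 1 0 2), (bp hA hB hC hD 1 1 1 1), (bp hA hB hC hD 1 1 2 0), 
      (bp hA hB hC hD 2 0 0 2), (bp hA hB hC hD 2 0 1 1), (bp hA hB hC hD 2 0 2 0)]
  · have hA := sub_nonneg.2 h0; have hB := sub_nonneg.2 ux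
    have hC := sub_nonneg.2 ly; have hD := sub_nonneg.2 uy
    linarith [(bp hA hB hC hD 1 1 1 1), (bp hA hB hC hD 2 0 1 1), 
      (bp hA hB hC hD 0 2 1 1), (bp hA hB hC hD 2 0 0 2), (bp hA hB hC hD 1 1 0 2), 
      (bp hA hB hC hD 0 2 2 0), (mul_nonneg gsA (bp hA hB hC hD 1 0 1 0)), (bp hA hB hC hD 0 2 0 2), 
      (bp hA hB hC hD 2 0 2 0)]

theorem H1 {x y : ℝ} (lx : 0 ≤ x) (ux : x ≤ 5/8) (ly : 1/2 ≤ y) (uy : y ≤ 7/8)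
    (gsA : 0 ≤ 4-7*x-5*y+8*x*y)
    (gsun : 0 ≤ 3*x+3*y-4*x*y-2) :
    0 ≤ (x+y-2*x*y)*(2-x*y)-2*(1-x)*x*y*(2+y) := by
  rcases le_total y (11/16) with h0 | h0
  · have hA := sub_nonneg.2 lx; have hB := sub_nonneg.2 ux
    have hC := sub_nonneg.2 ly; have hD := sub_nonneg.2 h0
    linarith [(mul_nonneg gsA (bp hA hB hC hD 0 1 1 0)), (bp hA hB hC hD 0 2 0 2), 
      (bp hA hB hC hD 0 2 2 0), (bp hA hB hC hD 2 0 0 2), (mul_nonneg gsA (bp hA hB hC hD 1 0 1 0)), 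
      (bp hA hB hC hD 1 1 0 2), (bp hA hB hC hD 2 0 1 1), (bp hA hB hC hD 1 1 2 0), 
      (mul_nonneg gsA (bp hA hB hC hD 0 1 0 1))]
  · have hA := sub_nonneg.2 lx; have hB := sub_nonneg.2 ux
    have hC := sub_nonneg.2 h0; have hD := sub_nonneg.2 uy
    linarith [(bp hA hB hC hD 0 2 2 0), (bp hA hB hC hD 0 2 0 2), 
      (mul_nonneg gsA (bp hA hB hC hD 1 0 1 0)), (mul_nonneg gsA (bp hA hB hC hD 0 1 1 0)), (bp hA hB hC hD 1 1 2 0), 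
      (mul_nonneg gsA (bp hA hB hC hD 0 1 0 1)), (mul_nonneg gsA (bp hA hB hC hD 1 0 0 1)), (bp hA hB hC hD 1 1 1 1), 
      (bp hA hB hC hD 2 0 1 1)]

theorem H2 {x y : ℝ} (lx : 0 ≤ x) (ux : x ≤ 5/8) (ly : 1/2 ≤ y) (uy : y ≤ 7/8)
    (gsA : 0 ≤ 4-7*x-5*y+8*x*y) :
    0 ≤ 2*(1-x)*(2-2*x-3*x*y)+(x+y-2*x*y)*x := by
  have hA := sub_nonneg.2 lx; have hB := sub_nonneg.2 ux
  have hC := sub_nonneg.2 ly; have hD := sub_nonneg.2 uy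
  linarith [(bp hA hB hC hD 0 2 0 1), (bp hA hB hC hD 0 2 1 0), 
    (bp hA hB hC hD 2 0 0 1), (mul_nonneg gsA (bp hA hB hC hD 1 0 0 0)), (bp hA hB hC hD 1 1 1 0), 
    (mul_nonneg gsA (bp hA hB hC hD 0 1 0 0))]

theorem H4 {x y : ℝ} (lx : 0 ≤ x) (ux : x ≤ 5/8) (ly : 1/2 ≤ y) (uy : y ≤ 7/8)
    (gsA : 0 ≤ 4-7*x-5*y+8*x*y)
    (gsun : 0 ≤ 3*x+3*y-4*x*y-2) :
    0 ≤ (x+y-2*x*y)*(1+y-x*y^2)+2*(1-x)*y*(y-2*x-x*y-x*y^2) := by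
  have hA := sub_nonneg.2 lx; have hB := sub_nonneg.2 ux
  have hC := sub_nonneg.2 ly; have hD := sub_nonneg.2 uy
  linarith [(bp hA hB hC hD 0 2 3 0), (bp hA hB hC hD 0 2 2 1), 
    (bp hA hB hC hD 0 2 1 2), (bp hA hB hC hD 0 2 0 3), (mul_nonneg gsA (bp hA hB hC hD 1 0 2 0)), 
    (bp hA hB hC hD 2 0 0 3), (bp hA hB hC hD 1 1 0 3), (bp hA hB hC hD 1 1 3 0), 
    (bp hA hB hC hD 2 0 1 2), (mul_nonneg gsA (bp hA hB hC hD 1 0 1 1)), (bp hA hB hC hD 2 0 2 1), 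
    (mul_nonneg gsA (bp hA hB hC hD 0 1 1 1))]

theorem H6 {x y : ℝ} (lx : 0 ≤ x) (ux : x ≤ 5/8) (ly : 1/2 ≤ y) (uy : y ≤ 7/8)
    (gsA : 0 ≤ 4-7*x-5*y+8*x*y) :
    0 ≤ (x+y-2*x*y)*(2-x)+2*(1-x)*(1-4*x*y) := by
  have hA := sub_nonneg.2 lx; have hB := sub_nonneg.2 ux
  have hC := sub_nonneg.2 ly; have hD := sub_nonneg.2 uy
  linarith [(bp hA hB hC hD 0 2 1 0), (bp hA hB hC hD 0 2 0 1), 
    (bp hA hB hC hD 1 1 0 1), (bp hA hB hC hD 2 0 0 1), (bp hA hB hC hD 1 1 1 0), 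
    (mul_nonneg gsA (bp hA hB hC hD 1 0 0 0))]

theorem S1 {x y : ℝ} (lx : 0 ≤ x) (ux : x ≤ 1/5) (ly : 0 ≤ y) (uy : y ≤ 9/20)
    (gxy : 0 ≤ y-x) :
    0 ≤ 1-3*x-y+3*x*y := by
  have hA := sub_nonneg.2 lx; have hB := sub_nonneg.2 ux
  have hC := sub_nonneg.2 ly; have hD := sub_nonneg.2 uy
  linarith [(bp hA hB hC hD 0 1 0 1), (bp hA hB hC hD 0 1 1 0), 
    (bp hA hB hC hD 1 0 0 1), (bp hA hB hC hD 1 0 1 0)]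

theorem S2 {x y : ℝ} (lx : 0 ≤ x) (ux : x ≤ 1/5) (ly : 0 ≤ y) (uy : y ≤ 9/20)
    (gxy : 0 ≤ y-x) :
    0 ≤ (1-x)*(1-x*y)-(1-y)*(2*(1-x)*(2+x)-(x+y-2*x*y)-3*(1-x)*(1-x*y)) := by
  have hA := sub_nonneg.2 lx; have hB := sub_nonneg.2 ux
  have hC := sub_nonneg.2 ly; have hD := sub_nonneg.2 uy
  linarith [(mul_nonneg gxy (bp hA hB hC hD 0 1 1 0)), (mul_nonneg gxy (bp hA hB hC hD 0 1 0 1)), 
    (mul_nonneg gxy (bp hA hB hC hD 1 0 1 0)), (mul_nonneg gxy (bp hA hB hC hD 1 0 0 1)), (bp hA hB hC hD 1 1 0 2), 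
    (bp hA hB hC hD 2 0 0 2), (bp hA hB hC hD 1 1 2 0), (bp hA hB hC hD 1 1 1 1)]

theorem S3 {x y : ℝ} (lx : 0 ≤ x) (ux : x ≤ 1/5) (ly : 0 ≤ y) (uy : y ≤ 9/20)
    (gxy : 0 ≤ y-x) :
    0 ≤ 5*(1-x)*(1-x*y)-2*(1-x)*(2+x)+(x+y-2*x*y) := by
  have hA := sub_nonneg.2 lx; have hB := sub_nonneg.2 ux
  have hC := sub_nonneg.2 ly; have hD := sub_nonneg.2 uy
  linarith [(bp hA hB hC hD 0 2 0 1), (bp hA hB hC hD 0 2 1 0), 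
    (bp hA hB hC hD 1 1 0 1), (bp hA hB hC hD 1 1 1 0), (bp hA hB hC hD 2 0 0 1), 
    (bp hA hB hC hD 2 0 1 0)]

theorem S4 {x y : ℝ} (lx : 0 ≤ x) (ux : x ≤ 1/5) (ly : 0 ≤ y) (uy : y ≤ 9/20)
    (gxy : 0 ≤ y-x) :
    0 ≤ (1-x)*y*(1-x*y)-(1-y)*(2*(1-x)*(1+y+x*y)-(x+y-2*x*y)-2*(1-x)*(1-x*y)) := by
  rcases le_total y (9/40) with h0 | h0
  · have hA := sub_nonneg.2 lx; have hB := sub_nonneg.2 ux
    have hC := sub_nonneg.2 ly; have hD := sub_nonneg.2 h0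
    linarith [(bp hA hB hC hD 0 2 2 0), (bp hA hB hC hD 1 1 0 2), 
      (bp hA hB hC hD 1 1 1 1), (bp hA hB hC hD 1 1 2 0), (bp hA hB hC hD 2 0 0 2), 
      (bp hA hB hC hD 2 0 1 1), (bp hA hB hC hD 2 0 2 0)]
  · rcases le_total y (27/80) with h1 | h1
    · have hA := sub_nonneg.2 lx; have hB := sub_nonneg.2 ux
      have hC := sub_nonneg.2 h0; have hD := sub_nonneg.2 h1
      linarith [(bp hA hB hC hD 0 2 0 2), (bp hA hB hC hD 0 2 1 1), 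
        (bp hA hB hC hD 0 2 2 0), (bp hA hB hC hD 1 1 0 2), (bp hA hB hC hD 1 1 1 1), 
        (bp hA hB hC hD 1 1 2 0), (bp hA hB hC hD 2 0 0 2), (bp hA hB hC hD 2 0 1 1), 
        (bp hA hB hC hD 2 0 2 0)]
    · have hA := sub_nonneg.2 lx; have hB := sub_nonneg.2 ux
      have hC := sub_nonneg.2 h1; have hD := sub_nonneg.2 uy
      linarith [(bp hA hB hC hD 0 2 0 2), (bp hA hB hC hD 0 2 1 1), 
        (bp hA hB hC hD 0 2 2 0), (bp hA hB hC hD 1 1 0 2), (bp hA hB hC hD 1 1 1 1), 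
        (bp hA hB hC hD 1 1 2 0), (bp hA hB hC hD 2 0 0 2), (bp hA hB hC hD 2 0 1 1), 
        (bp hA hB hC hD 2 0 2 0)]

theorem S5 {x y : ℝ} (lx : 0 ≤ x) (ux : x ≤ 1/5) (ly : 0 ≤ y) (uy : y ≤ 9/20)
    (gxy : 0 ≤ y-x) :
    0 ≤ 3*(1-x)*(1-x*y)-2*(1-x)*(1+y+x*y)+(x+y-2*x*y) := by
  have hA := sub_nonneg.2 lx; have hB := sub_nonneg.2 ux
  have hC := sub_nonneg.2 ly; have hD := sub_nonneg.2 uy
  linarith [(bp hA hB hC hD 0 2 0 1), (bp hA hB hC hD 0 2 1 0), 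
    (bp hA hB hC hD 1 1 0 1), (bp hA hB hC hD 1 1 1 0), (bp hA hB hC hD 2 0 0 1), 
    (bp hA hB hC hD 2 0 1 0)]

theorem S6 {x y : ℝ} (lx : 0 ≤ x) (ux : x ≤ 1/5) (ly : 0 ≤ y) (uy : y ≤ 9/20)
    (gxy : 0 ≤ y-x) :
    0 ≤ x*(1-x*y)+4*(1-x)*(1-x*y)-2*(1-x)*(2+x)+(x+y-2*x*y) := by
  have hA := sub_nonneg.2 lx; have hB := sub_nonneg.2 ux
  have hC := sub_nonneg.2 ly; have hD := sub_nonneg.2 uy
  linarith [(bp hA hB hC hD 0 2 1 0), (bp hA hB hC hD 1 1 1 0), 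
    (bp hA hB hC hD 2 0 0 1), (bp hA hB hC hD 2 0 1 0)]

theorem S7 {x y : ℝ} (lx : 0 ≤ x) (ux : x ≤ 1/5) (ly : 0 ≤ y) (uy : y ≤ 9/20)
    (gxy : 0 ≤ y-x) :
    0 ≤ (3-2*x)*(1-x*y)-2*(1-x)*(1+y+x*y)+(x+y-2*x*y) := by
  have hA := sub_nonneg.2 lx; have hB := sub_nonneg.2 ux
  have hC := sub_nonneg.2 ly; have hD := sub_nonneg.2 uy
  linarith [(bp hA hB hC hD 0 2 0 1), (bp hA hB hC hD 0 2 1 0), 
    (bp hA hB hC hD 1 1 0 1), (bp hA hB hC hD 1 1 1 0), (bp hA hB hC hD 2 0 0 1), 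
    (bp hA hB hC hD 2 0 1 0)]

theorem K0 {x y : ℝ} (lx : 0 ≤ x) (ux : x ≤ 1/2) (ly : 1/2 ≤ y) (uy : y ≤ 5/6)
    (gsB : 0 ≤ 7*x+5*y-8*x*y-4) :
    0 ≤ 3*x+3*y-4*x*y-2 := by
  have hA := sub_nonneg.2 lx; have hB := sub_nonneg.2 ux
  have hC := sub_nonneg.2 ly; have hD := sub_nonneg.2 uy
  linarith [(mul_nonneg gsB (bp hA hB hC hD 0 0 0 0)), (bp hA hB hC hD 0 1 1 0), 
    (bp hA hB hC hD 1 0 1 0)]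

theorem K1 {x y : ℝ} (lx : 0 ≤ x) (ux : x ≤ 1/2) (ly : 1/2 ≤ y) (uy : y ≤ 5/6)
    (gsB : 0 ≤ 7*x+5*y-8*x*y-4) :
    0 ≤ (x+y-2*x*y)*(2-x*y)-2*(1-x)*x*y*(1+y) := by
  have hA := sub_nonneg.2 lx; have hB := sub_nonneg.2 ux
  have hC := sub_nonneg.2 ly; have hD := sub_nonneg.2 uy
  linarith [(bp hA hB hC hD 0 2 0 2), (bp hA hB hC hD 0 2 1 1), 
    (bp hA hB hC hD 0 2 2 0), (bp hA hB hC hD 1 1 0 2), (bp hA hB hC hD 1 1 1 1), 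
    (bp hA hB hC hD 1 1 2 0), (bp hA hB hC hD 2 0 0 2), (bp hA hB hC hD 2 0 1 1), 
    (bp hA hB hC hD 2 0 2 0)]

theorem K2 {x y : ℝ} (lx : 0 ≤ x) (ux : x ≤ 1/2) (ly : 1/2 ≤ y) (uy : y ≤ 5/6)
    (gsB : 0 ≤ 7*x+5*y-8*x*y-4) :
    0 ≤ 2*(1-x)*(2-x-3*x*y)+(x+y-2*x*y)*x := by
  have hA := sub_nonneg.2 lx; have hB := sub_nonneg.2 ux
  have hC := sub_nonneg.2 ly; have hD := sub_nonneg.2 uy
  linarith [(bp hA hB hC hD 0 2 0 1), (bp hA hB hC hD 0 2 1 0), 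
    (bp hA hB hC hD 1 1 0 1), (bp hA hB hC hD 1 1 1 0), (bp hA hB hC hD 2 0 0 1), 
    (bp hA hB hC hD 2 0 1 0)]

theorem K3 {x y : ℝ} (lx : 0 ≤ x) (ux : x ≤ 1/2) (ly : 1/2 ≤ y) (uy : y ≤ 5/6)
    (gsB : 0 ≤ 7*x+5*y-8*x*y-4) :
    0 ≤ (x+y-2*x*y)+2*(1-x)*y*(1-x-2*x*y) := by
  have hA := sub_nonneg.2 lx; have hB := sub_nonneg.2 ux
  have hC := sub_nonneg.2 ly; have hD := sub_nonneg.2 uy
  linarith [(bp hA hB hC hD 0 2 0 2), (bp hA hB hC hD 0 2 1 1), 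
    (bp hA hB hC hD 0 2 2 0), (bp hA hB hC hD 1 1 0 2), (bp hA hB hC hD 1 1 1 1), 
    (bp hA hB hC hD 1 1 2 0), (bp hA hB hC hD 2 0 0 2), (bp hA hB hC hD 2 0 1 1), 
    (bp hA hB hC hD 2 0 2 0)]

theorem K4 {x y : ℝ} (lx : 0 ≤ x) (ux : x ≤ 1/2) (ly : 1/2 ≤ y) (uy : y ≤ 5/6)
    (gsB : 0 ≤ 7*x+5*y-8*x*y-4) :
    0 ≤ (x+y-2*x*y)*(1+y-2*x*y)-2*(1-x)^2*y*(1-y) := by
  have hA := sub_nonneg.2 lx; have hB := sub_nonneg.2 ux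
  have hC := sub_nonneg.2 ly; have hD := sub_nonneg.2 uy
  linarith [(bp hA hB hC hD 0 2 0 2), (bp hA hB hC hD 0 2 1 1), 
    (bp hA hB hC hD 0 2 2 0), (bp hA hB hC hD 1 1 0 2), (bp hA hB hC hD 1 1 1 1), 
    (bp hA hB hC hD 1 1 2 0), (bp hA hB hC hD 2 0 0 2), (bp hA hB hC hD 2 0 1 1), 
    (bp hA hB hC hD 2 0 2 0)]

theorem K5 {x y : ℝ} (lx : 0 ≤ x) (ux : x ≤ 1/2) (ly : 1/2 ≤ y) (uy : y ≤ 5/6)
    (gsB : 0 ≤ 7*x+5*y-8*x*y-4) :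
    0 ≤ (x+y-2*x*y)*(1+y-x*y^2)+2*(1-x)*y*(y-x-x*y-x*y^2) := by
  have hA := sub_nonneg.2 lx; have hB := sub_nonneg.2 ux
  have hC := sub_nonneg.2 ly; have hD := sub_nonneg.2 uy
  linarith [(bp hA hB hC hD 0 2 0 3), (bp hA hB hC hD 0 2 1 2), 
    (bp hA hB hC hD 0 2 2 1), (bp hA hB hC hD 0 2 3 0), (bp hA hB hC hD 1 1 0 3), 
    (bp hA hB hC hD 1 1 1 2), (bp hA hB hC hD 1 1 2 1), (bp hA hB hC hD 1 1 3 0), 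
    (bp hA hB hC hD 2 0 0 3), (bp hA hB hC hD 2 0 1 2), (bp hA hB hC hD 2 0 2 1), 
    (bp hA hB hC hD 2 0 3 0)]

theorem K6 {x y : ℝ} (lx : 0 ≤ x) (ux : x ≤ 1/2) (ly : 1/2 ≤ y) (uy : y ≤ 5/6)
    (gsB : 0 ≤ 7*x+5*y-8*x*y-4) :
    0 ≤ (x+y-2*x*y)*(2-x)+2*(1-x)*(1+x-4*x*y) := by
  have hA := sub_nonneg.2 lx; have hB := sub_nonneg.2 ux
  have hC := sub_nonneg.2 ly; have hD := sub_nonneg.2 uy
  linarith [(bp hA hB hC hD 0 2 0 1), (bp hA hB hC hD 0 2 1 0), 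
    (bp hA hB hC hD 1 1 0 1), (bp hA hB hC hD 1 1 1 0), (bp hA hB hC hD 2 0 0 1), 
    (bp hA hB hC hD 2 0 1 0)]

theorem K7 {x y : ℝ} (lx : 0 ≤ x) (ux : x ≤ 1/2) (ly : 1/2 ≤ y) (uy : y ≤ 5/6)
    (gsB : 0 ≤ 7*x+5*y-8*x*y-4) :
    0 ≤ (x+y-2*x*y)*(1+2*y-2*x*y)+2*(1-x)*x*y*(1-3*y) := by
  have hA := sub_nonneg.2 lx; have hB := sub_nonneg.2 ux
  have hC := sub_nonneg.2 ly; have hD := sub_nonneg.2 uy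
  linarith [(bp hA hB hC hD 0 2 0 2), (bp hA hB hC hD 0 2 1 1), 
    (bp hA hB hC hD 0 2 2 0), (bp hA hB hC hD 1 1 0 2), (bp hA hB hC hD 1 1 1 1), 
    (bp hA hB hC hD 1 1 2 0), (bp hA hB hC hD 2 0 0 2), (bp hA hB hC hD 2 0 1 1), 
    (bp hA hB hC hD 2 0 2 0)]

theorem L1 {x y : ℝ} (lx : 0 ≤ x) (ux : x ≤ 5/8) (ly : 0 ≤ y) (uy : y ≤ 5/8)
    (gyx : 0 ≤ x-y)
    (gsA : 0 ≤ 4-7*x-5*y+8*x*y) :
    0 ≤ 2*(1-x)*(1-2*x-2*x*y)+(x+y-2*x*y)*(1+x-x*y) := by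
  have hA := sub_nonneg.2 lx; have hB := sub_nonneg.2 ux
  have hC := sub_nonneg.2 ly; have hD := sub_nonneg.2 uy
  linarith [(mul_nonneg gsA (bp hA hB hC hD 0 1 1 0)), (bp hA hB hC hD 0 2 0 2), 
    (bp hA hB hC hD 0 2 2 0), (bp hA hB hC hD 2 0 0 2), (mul_nonneg gsA (bp hA hB hC hD 1 0 0 1)), 
    (mul_nonneg gsA (bp hA hB hC hD 1 0 1 0)), (bp hA hB hC hD 2 0 1 1), (mul_nonneg gyx (bp hA hB hC hD 1 0 0 1)), 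
    (mul_nonneg gyx (bp hA hB hC hD 1 0 1 0))]

theorem L2 {x y : ℝ} (lx : 0 ≤ x) (ux : x ≤ 5/8) (ly : 0 ≤ y) (uy : y ≤ 5/8)
    (gyx : 0 ≤ x-y)
    (gsA : 0 ≤ 4-7*x-5*y+8*x*y) :
    0 ≤ (x+y-2*x*y)*(3-x-x*y)-6*(1-x)*x*y := by
  have hA := sub_nonneg.2 lx; have hB := sub_nonneg.2 ux
  have hC := sub_nonneg.2 ly; have hD := sub_nonneg.2 uy
  linarith [(bp hA hB hC hD 0 2 1 1), (bp hA hB hC hD 0 2 2 0), 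
    (bp hA hB hC hD 1 1 0 2), (bp hA hB hC hD 1 1 1 1), (bp hA hB hC hD 1 1 2 0), 
    (bp hA hB hC hD 2 0 0 2), (bp hA hB hC hD 2 0 1 1), (bp hA hB hC hD 2 0 2 0)]

end Pool.Agent.H52.SY
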