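import Pool.Agent.H52.SY.Rl

set_option autoImplicit false

namespace Pool.Agent.H52.SY

/-- S-type covers, in coordinates from the south-west corner -/
theorem slem0 {x y W H w h v : ℝ} (hx : 0 ≤ x) (hy : 0 ≤ y) (hxh : x ≤ 1/2) (hyh : y ≤ 1/2)
    (hd : 0 < 1 - x*y) (hw : w*(1-x*y) = W) (hh : h*(1-x*y) = H) (hv : 2*(v*(1-x)) = 1)
    (e1 : h ≤ 1) (e2 : 1/2 ≤ h*(1-x))
    (c1 : (1-y)*(w+h-3/2) ≤ 1/2) (c1' : w+h ≤ 5/2) (c2 : (1-y)*(h+y*w-1) ≤ y/2)
    (c2'' : h+y*w-1 ≤ 1/2) (c3 : w+h-2 ≤ x*v) (c4 : h+y*w ≤ 1+v) (c5 : w*(1-y) ≤ 1)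
    {p q : ℝ} (g1 : 0 ≤ p - x*q) (g2 : p - x*q ≤ W) (g3 : 0 ≤ q - y*p) (g4 : q - y*p ≤ H) :
    Hx (p - 1/2) (q - 1/2) ∨ Hx (p - (x*v+1/2)) (q - (v+1/2)) ∨
      Hx (p - (w+h-1)) (q - (h+y*w-1/2)) := by
  have can : ∀ u v : ℝ, (1-x*y)*u ≤ (1-x*y)*v → u ≤ v := fun u v h =>
    le_of_mul_le_mul_left h hd
  have hx1 : 0 ≤ 1 - x := by linarith
  have hy1 : 0 ≤ 1 - y := by linarith
  -- range of p, q, p - q
  have p0 : 0 ≤ p := can _ _ (by linarith [mul_nonneg hx g3])
  have q0 : 0 ≤ q := can _ _ (by linarith [mul_nonneg hy g1])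
  have p1 : p ≤ w + x*h := can _ _ (by
    have : (1-x*y)*(w+x*h) = W + x*H := by rw [← hw, ← hh]; ring
    rw [this]; linarith [mul_le_mul_of_nonneg_left g4 hx])
  have q1 : q ≤ h + y*w := can _ _ (by
    have : (1-x*y)*(h+y*w) = H + y*W := by rw [← hw, ← hh]; ring
    rw [this]; linarith [mul_le_mul_of_nonneg_left g2 hy])
  have d1 : p - q ≤ w*(1-y) := can _ _ (by
    have : (1-x*y)*(w*(1-y)) = W*(1-y) := by rw [← hw]; ring
    rw [this]
    linarith [mul_le_mul_of_nonneg_left g2 hy1, mul_nonneg hx1 g3])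
  have d0 : -(h*(1-x)) ≤ p - q := can _ _ (by
    have : (1-x*y)*(-(h*(1-x))) = -(H*(1-x)) := by rw [← hh]; ring
    rw [this]
    linarith [mul_le_mul_of_nonneg_left g4 hx1, mul_nonneg hy1 g1])
  have hxv : 0 ≤ v := by
    by_contra hc
    push Not at hc
    have := mul_nonneg (neg_nonneg.2 hc.le) hx1
    linarith
  have hv1 : v ≤ 1 := by
    by_contra hc
    push Not at hc
    have := mul_pos (sub_pos.2 hc) (show 0 < 1 - x by linarith)
    linarith
  have hxvv : x*v = v - 1/2 := by linarith
  by_cases hR : w+h-3/2 ≤ p ∧ h+y*w-1 ≤ q ∧ w*(1-y)-1 ≤ p - q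
  · obtain ⟨r1, r2, r3⟩ := hR
    right; right
    exact ⟨by linarith, by linarith, by linarith, by linarith, by linarith, by linarith⟩
  · by_cases hT : -(1/2) ≤ p - q ∧ p - q ≤ 1/2 ∧ q ≤ 1
    · obtain ⟨t1, t2, t3⟩ := hT
      left
      have hp1 : p ≤ 1 := by
        rcases le_or_gt (w+h-3/2) p with r1 | r1
        · rcases le_or_gt (h+y*w-1) q with r2 | r2
          · have r3 : ¬ (w*(1-y)-1 ≤ p - q) := fun r3 => hR ⟨r1, r2, r3⟩
            push Not at r3
            linarith
          · linarith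
        · linarith
      exact ⟨by linarith, by linarith, by linarith, by linarith, by linarith, by linarith⟩
    · right; left
      -- p - q ≤ 1/2
      have hpq : p - q ≤ 1/2 := by
        by_contra hc
        push Not at hc
        rcases le_or_gt (w+h-3/2) p with r1 | r1
        · rcases le_or_gt (h+y*w-1) q with r2 | r2
          · have r3 : ¬ (w*(1-y)-1 ≤ p - q) := fun r3 => hR ⟨r1, r2, r3⟩
            push Not at r3
            linarith
          · have z1 : y/2 < (1-y)*q ∨ y = 0 := by
              rcases hy.eq_or_lt with h0 | h0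
              · right; exact h0.symm
              · left; linarith [mul_lt_mul_of_pos_left hc h0]
            have z2 := mul_le_mul_of_nonneg_left r2.le hy1
            rcases z1 with z1 | z1
            · linarith
            · rw [z1] at r2 c2; linarith
        · have z2 := mul_le_mul_of_nonneg_left r1.le hy1
          linarith
      have hQv : v ≤ q := by
        rcases le_or_gt q 1 with h1 | h1
        · have h2 : p - q < -(1/2) := by
            by_contra hc
            push Not at hc
            exact hT ⟨hc, hpq, h1⟩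
          by_contra hc
          push Not at hc
          have := mul_lt_mul_of_pos_right hc (show 0 < 1 - x by linarith)
          linarith
        · linarith
      have hPv : x*v ≤ p := by linarith [mul_le_mul_of_nonneg_left hQv hx]
      have hpq0 : p - q ≤ 0 := by
        rcases le_or_gt (-(1/2)) (p-q) with h2 | h2
        · have h1 : 1 < q := by
            by_contra hc
            push Not at hc
            exact hT ⟨h2, hpq, hc⟩
          rcases le_or_gt (w+h-3/2) p with r1 | r1
          · rcases le_or_gt (h+y*w-1) q with r2 | r2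
            · have r3 : ¬ (w*(1-y)-1 ≤ p - q) := fun r3 => hR ⟨r1, r2, r3⟩
              push Not at r3
              linarith
            · linarith
          · linarith
        · linarith
      have hpq1 : -1 ≤ p - q := by
        have : h*(1-x) ≤ 1 := by
          have := mul_le_mul_of_nonneg_right e1 hx1
          linarith
        linarith
      have hP1 : p ≤ x*v + 1 := by
        rcases le_or_gt (-(1/2)) (p-q) with h2 | h2
        · have h1 : 1 < q := by
            by_contra hc
            push Not at hc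
            exact hT ⟨h2, hpq, hc⟩
          rcases le_or_gt (w+h-3/2) p with r1 | r1
          · rcases le_or_gt (h+y*w-1) q with r2 | r2
            · have r3 : ¬ (w*(1-y)-1 ≤ p - q) := fun r3 => hR ⟨r1, r2, r3⟩
              push Not at r3
              -- (1-y) p < H + w (1-y) - 1
              have z1 : (1-y)*p < H + w*(1-y) - 1 := by linarith
              have z2 : 0 ≤ h*(x*y) + (1-h)*y := by
                have := mul_nonneg (sub_nonneg.2 e1) hy
                have hh0 : 0 ≤ h := by
                  by_contra hc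
                  push Not at hc
                  have := mul_neg_of_neg_of_pos hc hd
                  linarith
                have := mul_nonneg hh0 (mul_nonneg hx hy)
                linarith
              have z3 : (1-y)*p < (1-y)*(w+h-1) := by linarith
              have z4 : p < w+h-1 := lt_of_mul_lt_mul_left z3 hy1
              linarith
            · linarith
          · linarith [mul_nonneg hx hxv]
        · have hH1 : H ≤ 1 := by
            have z := mul_le_mul_of_nonneg_right e1 hd.le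
            linarith [mul_nonneg hx hy]
          have z1 : (1-y)*p < 1/2 := by linarith
          have z2 : p ≤ 1 := by
            by_contra hc
            push Not at hc
            have := mul_nonneg hy1 (sub_nonneg.2 hc.le)
            linarith
          linarith [mul_nonneg hx hxv]
      exact ⟨by linarith, by linarith, by linarith, by linarith, by linarith, by linarith⟩

/-- S-type covers -/
theorem slem {x y W H w h v : ℝ} (hx : 0 ≤ x) (hy : 0 ≤ y) (hxh : x ≤ 1/2) (hyh : y ≤ 1/2)
    (hd : 0 < 1 - x*y) (hw : w*(1-x*y) = W) (hh : h*(1-x*y) = H) (hv : 2*(v*(1-x)) = 1)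
    (e1 : h ≤ 1) (e2 : 1/2 ≤ h*(1-x))
    (c1 : (1-y)*(w+h-3/2) ≤ 1/2) (c1' : w+h ≤ 5/2) (c2 : (1-y)*(h+y*w-1) ≤ y/2)
    (c2'' : h+y*w-1 ≤ 1/2) (c3 : w+h-2 ≤ x*v) (c4 : h+y*w ≤ 1+v) (c5 : w*(1-y) ≤ 1) :
    Cov (Pl x y W H) := by
  refine ⟨1/2 - (w+x*h)/2, 1/2 - (h+y*w)/2, (x*v+1/2) - (w+x*h)/2, (v+1/2) - (h+y*w)/2,
    (w+h-1) - (w+x*h)/2, (h+y*w-1/2) - (h+y*w)/2, fun p q hpq => ?_⟩
  obtain ⟨g1, g2, g3, g4⟩ := hpq
  have k1 : (p + (w+x*h)/2) - x*(q + (h+y*w)/2) = p - x*q + W/2 := by
    rw [← hw]; ring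
  have k2 : (q + (h+y*w)/2) - y*(p + (w+x*h)/2) = q - y*p + H/2 := by
    rw [← hh]; ring
  have := slem0 hx hy hxh hyh hd hw hh hv e1 e2 c1 c1' c2 c2'' c3 c4 c5
    (p := p + (w+x*h)/2) (q := q + (h+y*w)/2) (by rw [k1]; linarith) (by rw [k1]; linarith)
    (by rw [k2]; linarith) (by rw [k2]; linarith)
  rcases this with hc | hc | hc
  · left
    have a1 : p + (w+x*h)/2 - 1/2 = p - (1/2 - (w+x*h)/2) := by ring
    have a2 : q + (h+y*w)/2 - 1/2 = q - (1/2 - (h+y*w)/2) := by ring
    rw [a1, a2] at hc; exact hc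
  · right; left
    have a1 : p + (w+x*h)/2 - (x*v+1/2) = p - ((x*v+1/2) - (w+x*h)/2) := by ring
    have a2 : q + (h+y*w)/2 - (v+1/2) = q - ((v+1/2) - (h+y*w)/2) := by ring
    rw [a1, a2] at hc; exact hc
  · right; right
    have a1 : p + (w+x*h)/2 - (w+h-1) = p - ((w+h-1) - (w+x*h)/2) := by ring
    have a2 : q + (h+y*w)/2 - (h+y*w-1/2) = q - ((h+y*w-1/2) - (h+y*w)/2) := by ring
    rw [a1, a2] at hc; exact hc

end Pool.Agent.H52.SY
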