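import Pool.Agent.H52.SY.Rt
import Pool.Agent.H52.SY.Sl
import Pool.Agent.H52.SY.Pi

set_option autoImplicit false

namespace Pool.Agent.H52.SY

/-- the case `x < y`, away from the corner -/
theorem lemA2 {x y b : ℝ} (hx : 0 ≤ x) (hx1 : x < 1) (hy1 : y ≤ 1)
    (hd : 0 < 1 - x*y) (hx5 : x ≤ 5/8) (hy7 : y ≤ 7/8) (hxy : x ≤ y)
    (hb : 2*(b*(1-x)) = x + y - 2*x*y) (hA : 0 ≤ 4 - 7*x - 5*y + 8*x*y)
    (hc : 1/5 ≤ x ∨ 9/20 ≤ y) : Cov (Pl x y (1+x) (1-b)) := by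
  have h1x : 0 < 1 - x := by linarith
  have h1y : 0 < 1 - y := by linarith
  have canx : ∀ u v : ℝ, (1-x)*u ≤ (1-x)*v → u ≤ v := fun u v h =>
    le_of_mul_le_mul_left h h1x
  have cany : ∀ u v : ℝ, (1-y)*u ≤ (1-y)*v → u ≤ v := fun u v h =>
    le_of_mul_le_mul_left h h1y
  have y0 : 0 < y := by
    rcases hc with h | h
    · linarith
    · linarith
  have hN : 0 ≤ x + y - 2*x*y := by
    have := mul_nonneg hx h1y.le
    have := mul_nonneg y0.le h1x.le
    linarith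
  have hb0 : 0 ≤ b := by
    by_contra h
    push Not at h
    have := mul_neg_of_neg_of_pos h h1x
    linarith
  have hby : b ≤ y := canx _ _ (by linarith)
  have g1 : 0 ≤ y - x := by linarith
  have r2t : y*(x + x + 2*x*y) ≤ y*(1 + b*x) + b*(1-x*y) := by
    have := G3 (x := x) (y := y) hx hx5 y0.le hy7 g1 hA
    rw [← hb] at this
    exact canx _ _ (by linarith)
  have r3 : y*((1+x)*(1-y) + (1-b)*(1-x)) ≤ (y+b)*(1-x*y) := by
    have : 0 ≤ (x+y-2*x*y)*(1+y-2*x*y)-2*(1-x)*y*(1-y) := by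
      rcases le_total (1/5) x with h5 | h5
      · exact G4a h5 hx5 y0.le hy7 g1 hA
      · rcases hc with h | h
        · exact G4a h hx5 y0.le hy7 g1 hA
        · exact G4b hx h5 h hy7 g1 hA
    rw [← hb] at this
    exact canx _ _ (by linarith)
  have r5t : y*(1+x+(1-b)*(2-x)) ≤ (3*y+b)*(1-x*y) := by
    have := G7 (x := x) (y := y) hx hx5 y0.le hy7 g1 hA
    rw [← hb] at this
    exact canx _ _ (by linarith)
  have ht : 2*(y*(b/(2*y))) = b := by field_simp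
  rcases le_total b (1-y) with hby1 | hby1
  · have hsu : 0 ≤ 2 - 3*x - 3*y + 4*x*y := by
      have := mul_nonneg (sub_nonneg.2 hby1) h1x.le
      linarith
    obtain ⟨s, hs⟩ : ∃ s : ℝ, 2*(s*(1-y)) = b := ⟨b/(2*(1-y)), by field_simp⟩
    have hs0 : 0 ≤ s := by
      by_contra h
      push Not at h
      have := mul_neg_of_neg_of_pos h h1y
      linarith
    have hs1 : s ≤ 1/2 := cany _ _ (by linarith)
    refine ttype hx y0 hx1.le hy1 hd hb0 hby hs0 hs1 ht (by linarith) ?_ ?_ r2t r3 ?_ ?_ r5t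
    · have : 0 ≤ (x+y-2*x*y)*(2-y-x*y)-2*(1-x)*y*(1-y)*(1+2*x) := by
        rcases le_total (1/5) x with h5 | h5
        · exact G1a h5 hx5 y0.le hy7 g1 hA hsu
        · rcases hc with h | h
          · exact G1a h hx5 y0.le hy7 g1 hA hsu
          · exact G1b hx h5 h hy7 g1 hA hsu
      rw [← hb] at this
      have h2 : 0 ≤ b*(2-y-x*y) - y*(1-y)*(1+2*x) := canx _ _ (by linarith)
      refine cany _ _ ?_
      have e : (1-y)*(2*b + 2*y*s*(1-x*y)) = (1-y)*(2*b) + y*(2*(s*(1-y)))*(1-x*y) := by ring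
      rw [e, hs]; linarith
    · have := G2 (x := x) (y := y) hx hx5 y0.le hy7 g1 hA hsu
      rw [← hb] at this
      have h2 : 0 ≤ b*(1+x-2*x*y) + (1-y)*(1-2*x-2*x*y) := canx _ _ (by linarith)
      refine cany _ _ ?_
      have e : (1-y)*(1 + b*x + 2*s*(1-x*y)) = (1-y)*(1 + b*x) + (2*(s*(1-y)))*(1-x*y) := by ring
      rw [e, hs]; linarith
    · have := G5 (x := x) (y := y) hx hx5 y0.le hy7 g1 hA hsu
      rw [← hb] at this
      have h2 : 0 ≤ b*(1-x*y^2) - x*y*(1-y)*(2+y) := canx _ _ (by linarith)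
      refine cany _ _ ?_
      have e : (1-y)*((y + b*y + b + 2*y^2*s)*(1-x*y))
        = ((1-y)*(y + b*y + b) + y^2*(2*(s*(1-y))))*(1-x*y) := by ring
      rw [e, hs]; linarith
    · have := G6 (x := x) (y := y) hx hx5 y0.le hy7 g1 hA hsu
      rw [← hb] at this
      have h2 : 0 ≤ b*(3-x-2*y) - 3*x*y*(1-y) := canx _ _ (by linarith)
      refine cany _ _ ?_
      have e : (1-y)*((3+2*s)*(1-x*y)) = (3*(1-y) + 2*(s*(1-y)))*(1-x*y) := by ring
      rw [e, hs]; linarith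
  · have hsun : 0 ≤ 3*x + 3*y - 4*x*y - 2 := by
      have := mul_nonneg (sub_nonneg.2 hby1) h1x.le
      linarith
    have hyh : 1/2 ≤ y := by linarith
    refine ttype hx y0 hx1.le hy1 hd hb0 hby (s := 1/2) (by norm_num) le_rfl ht (by linarith)
      ?_ ?_ r2t r3 ?_ ?_ r5t
    · have := H1 (x := x) (y := y) hx hx5 hyh hy7 hA hsun
      rw [← hb] at this
      exact canx _ _ (by linarith)
    · have := H2 (x := x) (y := y) hx hx5 hyh hy7 hA
      rw [← hb] at this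
      exact canx _ _ (by linarith)
    · have := H4 (x := x) (y := y) hx hx5 hyh hy7 hA hsun
      rw [← hb] at this
      exact canx _ _ (by linarith)
    · have := H6 (x := x) (y := y) hx hx5 hyh hy7 hA
      rw [← hb] at this
      exact canx _ _ (by linarith)

/-- the corner: two hexagons on the left, one on the right -/
theorem lemA3 {x y b : ℝ} (hx : 0 ≤ x) (hx5 : x ≤ 1/5) (hy7 : y ≤ 9/20) (hxy : x ≤ y)
    (hb : 2*(b*(1-x)) = x + y - 2*x*y) : Cov (Pl x y (1+x) (1-b)) := by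
  have hy : 0 ≤ y := by linarith
  have g1 : 0 ≤ y - x := by linarith
  have hxy1 : x*y ≤ 1/5*(9/20) := mul_le_mul hx5 hy7 hy (by norm_num)
  have hxy0 : 0 ≤ x*y := mul_nonneg hx hy
  have hd : 0 < 1 - x*y := by linarith
  have h1x : 0 < 1 - x := by linarith
  have can : ∀ u v : ℝ, (2*(1-x)*(1-x*y))*u ≤ (2*(1-x)*(1-x*y))*v → u ≤ v := fun u v h =>
    le_of_mul_le_mul_left h (by positivity)
  obtain ⟨w, hw⟩ : ∃ w : ℝ, w*(1-x*y) = 1 + x := ⟨(1+x)/(1-x*y), by field_simp⟩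
  obtain ⟨h, hh⟩ : ∃ h : ℝ, h*(1-x*y) = 1 - b := ⟨(1-b)/(1-x*y), by field_simp⟩
  obtain ⟨v, hv⟩ : ∃ v : ℝ, 2*(v*(1-x)) = 1 := ⟨1/(2*(1-x)), by field_simp⟩
  have kw : (2*(1-x)*(1-x*y))*w = 2*(1-x)*(1+x) := by rw [← hw]; ring
  have kh : (2*(1-x)*(1-x*y))*h = 2*(1-x) - (x + y - 2*x*y) := by
    have : (2*(1-x)*(1-x*y))*h = 2*(1-x)*(h*(1-x*y)) := by ring
    rw [this, hh, ← hb]; ring
  have kv : (2*(1-x)*(1-x*y))*v = 1-x*y := by
    have : (2*(1-x)*(1-x*y))*v = (2*(v*(1-x)))*(1-x*y) := by ring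
    rw [this, hv]; ring
  refine slem (w := w) (h := h) (v := v) hx hy (by linarith) (by linarith) hd hw hh hv
    ?_ ?_ ?_ ?_ ?_ ?_ ?_ ?_ ?_
  · refine can _ _ ?_
    rw [kh]
    have := mul_nonneg hx (show 0 ≤ 1 - y by linarith)
    have := mul_nonneg (mul_nonneg hy h1x.le) (show 0 ≤ 1 - 2*x by linarith)
    linarith
  · refine can _ _ ?_
    have e : (2*(1-x)*(1-x*y))*(h*(1-x)) = (2*(1-x)*(1-x*y))*h*(1-x) := by ring
    rw [e, kh]
    have := mul_nonneg (S1 (x := x) (y := y) hx hx5 hy hy7 g1) h1x.le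
    linarith
  · refine can _ _ ?_
    have e : (2*(1-x)*(1-x*y))*((1-y)*(w+h-3/2)) = (1-y)*((2*(1-x)*(1-x*y))*w
      + (2*(1-x)*(1-x*y))*h - (2*(1-x)*(1-x*y))*(3/2)) := by ring
    rw [e, kw, kh]
    have := S2 (x := x) (y := y) hx hx5 hy hy7 g1
    linarith
  · refine can _ _ ?_
    rw [mul_add, kw, kh]
    have := S3 (x := x) (y := y) hx hx5 hy hy7 g1
    linarith
  · refine can _ _ ?_
    have e : (2*(1-x)*(1-x*y))*((1-y)*(h+y*w-1)) = (1-y)*((2*(1-x)*(1-x*y))*h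
      + y*((2*(1-x)*(1-x*y))*w) - (2*(1-x)*(1-x*y))) := by ring
    rw [e, kw, kh]
    have := S4 (x := x) (y := y) hx hx5 hy hy7 g1
    linarith
  · refine can _ _ ?_
    have e : (2*(1-x)*(1-x*y))*(h+y*w-1) = (2*(1-x)*(1-x*y))*h
      + y*((2*(1-x)*(1-x*y))*w) - (2*(1-x)*(1-x*y)) := by ring
    rw [e, kw, kh]
    have := S5 (x := x) (y := y) hx hx5 hy hy7 g1
    linarith
  · refine can _ _ ?_
    have e : (2*(1-x)*(1-x*y))*(w+h-2) = (2*(1-x)*(1-x*y))*w
      + (2*(1-x)*(1-x*y))*h - (2*(1-x)*(1-x*y))*2 := by ring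
    have e' : (2*(1-x)*(1-x*y))*(x*v) = x*((2*(1-x)*(1-x*y))*v) := by ring
    rw [e, e', kw, kh, kv]
    have := S6 (x := x) (y := y) hx hx5 hy hy7 g1
    linarith
  · refine can _ _ ?_
    have e : (2*(1-x)*(1-x*y))*(h+y*w) = (2*(1-x)*(1-x*y))*h
      + y*((2*(1-x)*(1-x*y))*w) := by ring
    have e' : (2*(1-x)*(1-x*y))*(1+v) = (2*(1-x)*(1-x*y)) + (2*(1-x)*(1-x*y))*v := by ring
    rw [e, e', kw, kh, kv]
    have := S7 (x := x) (y := y) hx hx5 hy hy7 g1
    linarith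
  · refine le_of_mul_le_mul_left ?_ hd
    have e : (1-x*y)*(w*(1-y)) = (w*(1-x*y))*(1-y) := by ring
    rw [e, hw]; linarith

/-- Lemma A -/
theorem lemA {x y b : ℝ} (hx : 0 ≤ x) (hx1 : x < 1) (hy : 0 ≤ y) (hy1 : y ≤ 1)
    (hd : 0 < 1 - x*y)
    (hb : 2*(b*(1-x)) = x + y - 2*x*y) (hA : 0 ≤ 4 - 7*x - 5*y + 8*x*y) :
    Cov (Pl x y (1+x) (1-b)) := by
  have h1x : 0 < 1 - x := by linarith
  have canx : ∀ u v : ℝ, (1-x)*u ≤ (1-x)*v → u ≤ v := fun u v h =>
    le_of_mul_le_mul_left h h1x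
  have hx5 : x ≤ 5/8 := by
    by_contra h
    push Not at h
    have := mul_nonneg (sub_nonneg.2 hy1) (show 0 ≤ 8*x - 5 by linarith)
    linarith
  have hy7 : y ≤ 7/8 := by
    by_contra h
    push Not at h
    have := mul_pos h1x (show 0 < 8*y - 7 by linarith)
    linarith
  rcases le_total y x with hyx | hxy
  · have hyb : y ≤ b := canx _ _ (by linarith)
    have hb1 : b ≤ 2/3 := canx _ _ (by
      have := mul_nonneg hy h1x.le
      linarith)
    refine rtype (s := b/2) hx hy hx1.le hd hyb (by linarith) (by linarith) (by linarith) ?_ ?_ ?_ ?_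
    · have := mul_nonneg (hy.trans hyb) hy
      linarith
    · have := L1 (x := x) (y := y) hx hx5 hy (by linarith) (sub_nonneg.2 hyx) hA
      rw [← hb] at this
      exact canx _ _ (by linarith)
    · have k1 := mul_nonneg (sub_nonneg.2 hyb) (show 0 ≤ 2 - x - x*y by
        have := mul_nonneg hx (sub_nonneg.2 hy1)
        linarith)
      have k2 := mul_nonneg hy h1x.le
      linarith
    · have := L2 (x := x) (y := y) hx hx5 hy (by linarith) (sub_nonneg.2 hyx) hA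
      rw [← hb] at this
      exact canx _ _ (by linarith)
  · by_cases hc : 1/5 ≤ x ∨ 9/20 ≤ y
    · exact lemA2 hx hx1 hy1 hd hx5 hy7 hxy hb hA hc
    · push Not at hc
      exact lemA3 hx hc.1.le hc.2.le hxy hb

end Pool.Agent.H52.SY
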