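import Pool.Agent.H52.SY.La

set_option autoImplicit false
set_option linter.unusedVariables false

namespace Pool.Agent.H52.SY

theorem Pl.swap' {x y W H p q : ℝ} (h : Pl x y W H p q) : Pl y x H W q p := by
  obtain ⟨h1, h2, h3, h4⟩ := h
  exact ⟨h3, h4, h1, h2⟩

theorem st_bound {x y : ℝ} (hx1 : x < 1) (hy : 0 ≤ y) (hy1 : y ≤ 1)
    (st : 0 ≤ 2-4*x-2*y+3*x*y+x^2) : x ≤ 5/8 := by
  by_contra h
  push Not at h
  have h2 : 0 < (x - 5/8)*(1-x) := mul_pos (by linarith) (by linarith)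
  rcases le_total x (2/3) with h3 | h3
  · have := mul_nonneg hy (show 0 ≤ 2 - 3*x by linarith)
    linarith
  · have := mul_nonneg (sub_nonneg.2 hy1) (show 0 ≤ 3*x - 2 by linarith)
    have := mul_pos (show 0 < 1 - x by linarith) (show 0 < x by linarith)
    linarith

/-- `P`, case `y ≤ 1/2`, `b ≤ 9a/8` -/
theorem decP1 {x y a b : ℝ} (hx : 0 ≤ x) (hy : 0 ≤ y) (hyh : y ≤ 1/2) (hx5 : x ≤ 5/8)
    (hd : 0 < 1 - x*y) (hax : x ≤ a) (ha1 : a ≤ 1) (hb : 0 ≤ b) (hba : 8*b ≤ 9*a)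
    (ii' : 2*b + x + y ≤ 2) (f23 : x + y - 2*x*y ≤ 2*(b*(1-x)))
    (st : 0 ≤ 2-4*x-2*y+3*x*y+x^2) : Cov (Pl y x (1+b) (1-a)) := by
  have h1x : 0 < 1 - x := by linarith
  have canx : ∀ u v : ℝ, (1-x)*u ≤ (1-x)*v → u ≤ v := fun u v h =>
    le_of_mul_le_mul_left h h1x
  have ha : 0 ≤ a := hx.trans hax
  have h9 := sub_nonneg.2 hba
  have hxy := mul_nonneg hx hy
  have hxy1 : 0 ≤ x*(1/2-y) := mul_nonneg hx (by linarith)
  refine rtype (s := a/2) hy hx (by linarith) (by linarith) hax ha1 (by linarith) (by linarith)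
    ?_ ?_ ?_ ?_
  · have := mul_nonneg ha hx; linarith
  · have k1 := mul_nonneg h9 (show 0 ≤ 1 + y - x*y by linarith)
    rcases le_total 0 (8*y-8*x*y-1) with hc | hc
    · have k2 := mul_nonneg (sub_nonneg.2 f23) hc
      have k3 := F1 (x := x) (y := y) hx hx5 hy hyh st
      have k4 : (1-x)*0 ≤ (1-x)*(9*(1-y-2*x*y) + b*(8*y-8*x*y-1)) := by linarith
      have := canx _ _ k4
      linarith
    · have k2 := mul_nonneg (sub_nonneg.2 ii') (neg_nonneg.2 hc)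
      have k3 := F2 (x := x) (y := y) hx hx5 hy hyh st
      linarith
  · have k1 := mul_nonneg h9 (show 0 ≤ 2 - y - x*y by linarith)
    have k2 := mul_nonneg hb (show 0 ≤ 7 - 8*y + 9*x - 8*x*y by linarith)
    have k3 := mul_nonneg hy (mul_nonneg h1x.le h1x.le)
    linarith
  · have k1 := mul_nonneg (sub_nonneg.2 hax) (show 0 ≤ 15/8 - y - x*y by linarith)
    have k2 := mul_nonneg hy (show 0 ≤ 1 - x/4 - x^2 by
      have := mul_nonneg hx (show 0 ≤ 5/8 - x by linarith)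
      linarith)
    linarith

/-- `P`, case `b ≤ y ≤ 1/2` -/
theorem decP0 {x y a b : ℝ} (hx : 0 ≤ x) (hy : 0 ≤ y) (hyh : y ≤ 1/2) (hx5 : x ≤ 5/8)
    (hd : 0 < 1 - x*y) (hax : x ≤ a) (ha1 : a ≤ 1) (hby : b ≤ y) :
    Cov (Pl y x (1+b) (1-a)) := by
  have h1x : 0 < 1 - x := by linarith
  have ha : 0 ≤ a := hx.trans hax
  have hxy := mul_nonneg hx hy
  have hxy1 : 0 ≤ x*(1/2-y) := mul_nonneg hx (by linarith)
  have q1 : 0 ≤ (x*y)*(1/2-y) := mul_nonneg hxy (by linarith)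
  have q2 : 0 ≤ (x*y)*(5/8-x) := mul_nonneg hxy (by linarith)
  refine rtype (s := a/2) hy hx (by linarith) (by linarith) hax ha1 (by linarith) (by linarith)
    ?_ ?_ ?_ ?_
  · have := mul_nonneg ha hx; linarith
  · have k1 := mul_nonneg (sub_nonneg.2 hax) (show 0 ≤ 1 + y - x*y by linarith)
    have k2 : 0 ≤ x*(5/8 - x) := mul_nonneg hx (by linarith)
    linarith
  · have k1 := mul_nonneg (sub_nonneg.2 hax) (show 0 ≤ 2 - y - x*y by linarith)
    have k2 := mul_nonneg (sub_nonneg.2 hby) h1x.le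
    have k3 : 0 ≤ y*(1-x)^2 := mul_nonneg hy (sq_nonneg _)
    have k4 : 0 ≤ x*(1 - y) := mul_nonneg hx (by linarith)
    linarith
  · have k1 := mul_nonneg (sub_nonneg.2 hax) (show 0 ≤ 3 - y - x*y by linarith)
    linarith

/-- `P`, case `y > 1/2`, `b ≤ 9a/8`, `a ≥ 1 - x` -/
theorem decP2 {x y a b : ℝ} (hx : 0 ≤ x) (hyh : 1/2 ≤ y) (hy1 : y ≤ 1) (hx5 : x ≤ 5/8)
    (hd : 0 < 1 - x*y) (hax : x ≤ a) (ha1 : a ≤ 1) (hax1 : 1 - x ≤ a)
    (ii' : 2*b + x + y ≤ 2)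
    (st : 0 ≤ 2-4*x-2*y+3*x*y+x^2) : Cov (Pl y x (1+b) (1-a)) := by
  have h1x : 0 < 1 - x := by linarith
  have hy : 0 ≤ y := by linarith
  have ha : 0 ≤ a := hx.trans hax
  have hxy := mul_nonneg hx hy
  have k3 := F3 (x := x) (y := y) hx hx5 hyh hy1 st
  have k4 := F4 (x := x) (y := y) hx hx5 hyh hy1 st
  have hxy1 : x*y ≤ 1/2 := by linarith
  refine rtype (s := 1/2) hy hx hy1 (by linarith) hax ha1 (by linarith) le_rfl
    (by linarith) ?_ ?_ ?_
  · have := mul_nonneg (sub_nonneg.2 hax1) hy; linarith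
  · have k1 := mul_nonneg (sub_nonneg.2 hax1) (show 0 ≤ 2 - y - x*y by linarith)
    have k2 := mul_nonneg h1x.le (show 0 ≤ 2 - 2*(x*y) - b by linarith)
    linarith
  · have k1 := mul_nonneg (sub_nonneg.2 hax1) (show 0 ≤ 2 - y by linarith)
    linarith

/-- `P`, case `y > 1/2`, `b ≤ 9a/8`, `a ≤ 1 - x` -/
theorem decP3 {x y a b : ℝ} (hx : 0 ≤ x) (hyh : 1/2 ≤ y) (hy1 : y ≤ 1) (hx5 : x ≤ 5/8)
    (hd : 0 < 1 - x*y) (hax : x ≤ a) (ha1 : a ≤ 1) (hax1 : a ≤ 1 - x)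
    (hb : 0 ≤ b) (hba : 8*b ≤ 9*a)
    (ii' : 2*b + x + y ≤ 2) (f23 : x + y - 2*x*y ≤ 2*(b*(1-x)))
    (st : 0 ≤ 2-4*x-2*y+3*x*y+x^2) : Cov (Pl y x (1+b) (1-a)) := by
  have h1x : 0 < 1 - x := by linarith
  have canx : ∀ u v : ℝ, (1-x)*u ≤ (1-x)*v → u ≤ v := fun u v h =>
    le_of_mul_le_mul_left h h1x
  have hy : 0 ≤ y := by linarith
  have ha : 0 ≤ a := hx.trans hax
  have hxy := mul_nonneg hx hy
  have h9 := sub_nonneg.2 hba
  have hxy1 : 0 ≤ x*(1-y) := mul_nonneg hx (by linarith)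
  obtain ⟨s, hs⟩ : ∃ s : ℝ, 2*(s*(1-x)) = a := ⟨a/(2*(1-x)), by field_simp⟩
  have hs0 : 0 ≤ s := by
    by_contra h
    push Not at h
    have := mul_neg_of_neg_of_pos h h1x
    linarith
  have hs1 : s ≤ 1/2 := canx _ _ (by linarith)
  refine rtype (s := s) hy hx hy1 (by linarith) hax ha1 ?_ hs1
    (by linarith) ?_ ?_ ?_
  · have := mul_nonneg hs0 hx; linarith
  · have k1 := mul_nonneg h9 (show 0 ≤ y*(1-x) + (1 - x*y) by
      have := mul_nonneg hy h1x.le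
      linarith)
    have k2 := mul_nonneg (sub_nonneg.2 f23) (F6 (x := x) (y := y) hx hx5 hyh hy1 st)
    have k3 := F5 (x := x) (y := y) hx hx5 hyh hy1 st
    have k4 : (1-x)*0 ≤ (1-x)*(9*(1-x)*(1-y-2*x*y) + b*(-1+8*y+9*x-16*x*y)) := by linarith
    have k5 := canx _ _ k4
    refine canx _ _ ?_
    have e : (1-x)*(1 + a*y + 2*s*(1-y*x)) = (1-x)*(1+a*y) + (2*(s*(1-x)))*(1-x*y) := by ring
    rw [e, hs]; linarith
  · have k1 := mul_nonneg h9 (show 0 ≤ 2 - y - x*y by linarith)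
    have k2 : 0 ≤ 9*(y*(1-x)^2) + b*(7-8*y+9*x-8*x*y) := by
      rcases le_total 0 (7-8*y+9*x-8*x*y) with hc | hc
      · have := mul_nonneg hb hc
        have : 0 ≤ y*(1-x)^2 := mul_nonneg hy (sq_nonneg _)
        linarith
      · have := mul_nonneg (sub_nonneg.2 ii') (neg_nonneg.2 hc)
        have := F7 (x := x) (y := y) hx hx5 hyh hy1 st
        linarith
    linarith
  · have k1 := mul_nonneg h9 (show 0 ≤ 3 - 2*x - y by linarith)
    have k2 := mul_nonneg (sub_nonneg.2 f23) (show 0 ≤ 15 - 7*x - 8*y by linarith)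
    have k3 := F8 (x := x) (y := y) hx hx5 hyh hy1 st
    have k4 : (1-x)*0 ≤ (1-x)*(b*(15-7*x-8*y) + 9*y*(1-x)*(1-3*x)) := by linarith
    have k5 := canx _ _ k4
    refine canx _ _ ?_
    have e : (1-x)*(2*a + y - a*y + 2*s*(1-y*x))
      = (1-x)*(2*a + y - a*y) + (2*(s*(1-x)))*(1-x*y) := by ring
    rw [e, hs]; linarith

/-- `Q`, case `b ≥ y`, `b ≥ 9a/8` -/
theorem decQ1 {x y a b : ℝ} (hx : 0 ≤ x) (hy : 0 ≤ y) (hy1 : y ≤ 1) (hx5 : x ≤ 5/8)
    (hd : 0 < 1 - x*y) (hb1 : b ≤ 1) (hyb : y ≤ b)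
    (hb : 0 ≤ b) (hba : 9*a ≤ 8*b) (f23 : x + y - 2*x*y ≤ 2*(b*(1-x)))
    (st : 0 ≤ 2-4*x-2*y+3*x*y+x^2) (sk : 0 ≤ 16-33*x-16*y+24*x*y+9*x^2)
    (sq : 0 ≤ 16-24*y-9*x) : Cov (Pl x y (1+a) (1-b)) := by
  have h1x : 0 < 1 - x := by linarith
  have canx : ∀ u v : ℝ, (1-x)*u ≤ (1-x)*v → u ≤ v := fun u v h =>
    le_of_mul_le_mul_left h h1x
  have hxy := mul_nonneg hx hy
  have h9 := sub_nonneg.2 hba
  have hxy1 : 0 ≤ x*(1-y) := mul_nonneg hx (by linarith)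
  refine rtype (s := b/2) hx hy (by linarith) hd hyb hb1 (by linarith) (by linarith) ?_ ?_ ?_ ?_
  · have := mul_nonneg hb hy; linarith
  · have k1 := mul_nonneg (sub_nonneg.2 f23) (show 0 ≤ 1+9*x-9*x*y by linarith)
    have k2 := F9 (x := x) (y := y) hx hx5 hy hy1 st sk sq
    have k4 : (1-x)*0 ≤ (1-x)*(9*(1-x-2*x*y) + b*(1+9*x-9*x*y)) := by linarith
    have := canx _ _ k4
    linarith
  · have k1 := mul_nonneg h9 (sub_nonneg.2 hy1)
    have k2 := mul_nonneg (mul_nonneg hb h1x.le) (show 0 ≤ 1 + y by linarith)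
    have k3 := mul_nonneg hb (sub_nonneg.2 hy1)
    have k4 : 0 ≤ x*(1-y)^2 := mul_nonneg hx (sq_nonneg _)
    linarith
  · have k1 := mul_nonneg (sub_nonneg.2 hyb) (show 0 ≤ 19 - 9*x - 9*x*y by linarith)
    have k2 := F10 (x := x) (y := y) hx hx5 hy hy1 st sk sq
    linarith

/-- `Q`, case `b ≤ y`, `y ≥ 1/2`, `b ≥ 9a/8` -/
theorem decQ2 {x y a b : ℝ} (hx : 0 ≤ x) (hyh : 1/2 ≤ y) (hy1 : y ≤ 1) (hx5 : x ≤ 5/8)
    (hd : 0 < 1 - x*y) (hby : b ≤ y)
    (hb : 0 < b) (hba : 9*a ≤ 8*b) (f23 : x + y - 2*x*y ≤ 2*(b*(1-x)))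
    (ii' : 2*b + x + y ≤ 2)
    (st : 0 ≤ 2-4*x-2*y+3*x*y+x^2) (sk : 0 ≤ 16-33*x-16*y+24*x*y+9*x^2)
    (sj : 0 ≤ 16-27*x-8*y) : Cov (Pl x y (1+a) (1-b)) := by
  have h1x : 0 < 1 - x := by linarith
  have canx : ∀ u v : ℝ, (1-x)*u ≤ (1-x)*v → u ≤ v := fun u v h =>
    le_of_mul_le_mul_left h h1x
  have hy : 0 < y := by linarith
  have hxy := mul_nonneg hx hy.le
  have h9 := sub_nonneg.2 hba
  have hxy1 : 0 ≤ x*(1-y) := mul_nonneg hx (by linarith)
  have h3 := F3 (x := x) (y := y) hx hx5 hyh hy1 st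
  have hxy2 : x*y ≤ 1/2 := by linarith
  have hxyy : x*y^2 ≤ 1/2 := by
    have := mul_nonneg hxy (sub_nonneg.2 hy1)
    linarith
  have hyy := mul_nonneg hy.le (sub_nonneg.2 hy1)
  have hf := sub_nonneg.2 f23
  have h9y := mul_nonneg h9 hy.le
  have h9yy := mul_nonneg h9 hyy
  have ht : 2*(y*(b/(2*y))) = b := by field_simp
  have r2t : y*(a + x + 2*x*y) ≤ y*(1 + b*x) + b*(1-x*y) := by
    have k1 := mul_nonneg hf (show 0 ≤ 9 - 8*y by linarith)
    have k2 := F13 (x := x) (y := y) hx hx5 hyh hy1 sk sj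
    have k4 : (1-x)*0 ≤ (1-x)*(9*(y-x*y-2*x*y^2) + b*(9-8*y)) := by linarith
    have := canx _ _ k4
    linarith
  have r3 : y*((1+a)*(1-y) + (1-b)*(1-x)) ≤ (y+b)*(1-x*y) := by
    have k1 := mul_nonneg hf (show 0 ≤ 9-18*x*y+y+8*y^2 by
      have := sq_nonneg y
      linarith)
    have k2 := F14 (x := x) (y := y) hx hx5 hyh hy1 sk sj
    have k4 : (1-x)*0 ≤ (1-x)*(-(9*y*(1-x)*(1-y)) + b*(9-18*x*y+y+8*y^2)) := by linarith
    have := canx _ _ k4
    linarith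
  have r5t : y*(1+a+(1-b)*(2-x)) ≤ (3*y+b)*(1-x*y) := by
    have k1 := mul_nonneg hf (show 0 ≤ 9-18*x*y+10*y by linarith)
    have k2 := F17 (x := x) (y := y) hx hx5 hyh hy1 sk sj
    have k4 : (1-x)*0 ≤ (1-x)*(9*x*y*(1-3*y) + b*(9-18*x*y+10*y)) := by linarith
    have := canx _ _ k4
    linarith
  rcases le_total (1-y) b with hb1 | hb1
  · refine ttype hx hy (by linarith) hy1 hd hb.le hby (s := 1/2) (by norm_num) le_rfl ht
      (by linarith) ?_ ?_ r2t r3 ?_ ?_ r5t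
    · have k1 := mul_nonneg hf (show 0 ≤ 18-8*y-9*x*y by linarith)
      have k2 := F11 (x := x) (y := y) hx hx5 hyh hy1 sk sj
      have k4 : (1-x)*0 ≤ (1-x)*(b*(18-8*y-9*x*y)-9*x*y*(1+y)) := by linarith
      have := canx _ _ k4
      linarith
    · have k1 := mul_nonneg (sub_nonneg.2 ii') (show 0 ≤ 8-9*x by linarith)
      have k2 := F12 (x := x) (y := y) hx hx5 hyh hy1 sk
      linarith
    · have k1 := mul_nonneg hf (show 0 ≤ 9+y-9*x*y^2 by linarith)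
      have k2 := F15 (x := x) (y := y) hx hx5 hyh hy1 sk sj
      have k4 : (1-x)*0 ≤ (1-x)*(b*(9+y-9*x*y^2)+9*y*(y-x-x*y-x*y^2)) := by linarith
      have := canx _ _ k4
      linarith
    · have k1 := mul_nonneg hf (show 0 ≤ 10-9*x by linarith)
      have k2 := F16 (x := x) (y := y) hx hx5 hyh hy1 sk sj
      have k4 : (1-x)*0 ≤ (1-x)*(b*(10-9*x)+9*(1+x-4*x*y)) := by linarith
      have := canx _ _ k4
      linarith
  · have h1y : 0 < 1 - y := by linarith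
    have cany : ∀ u v : ℝ, (1-y)*u ≤ (1-y)*v → u ≤ v := fun u v h =>
      le_of_mul_le_mul_left h h1y
    have su : 0 ≤ 2-3*x-3*y+4*x*y := by
      have := mul_nonneg (sub_nonneg.2 hb1) h1x.le
      linarith
    have h9y1 := mul_nonneg h9 h1y.le
    obtain ⟨s, hs⟩ : ∃ s : ℝ, 2*(s*(1-y)) = b := ⟨b/(2*(1-y)), by field_simp⟩
    have hs0 : 0 ≤ s := by
      by_contra h
      push Not at h
      have := mul_neg_of_neg_of_pos h h1y
      linarith
    have hs1 : s ≤ 1/2 := cany _ _ (by linarith)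
    refine ttype hx hy (by linarith) hy1 hd hb.le hby hs0 hs1 ht (by linarith)
      ?_ ?_ r2t r3 ?_ ?_ r5t
    · have k1 := mul_nonneg hf (show 0 ≤ 18-9*y-8*y*(1-y)-9*x*y by
        have := sq_nonneg (y - 1/2)
        linarith)
      have k2 := F18 (x := x) (y := y) hx hx5 hyh hy1 sk su
      have k4 : (1-x)*0 ≤ (1-x)*(b*(18-9*y-8*y*(1-y)-9*x*y)-9*y*(1-y)*(1+x)) := by linarith
      have k5 := canx _ _ k4
      refine cany _ _ ?_
      have e : (1-y)*(2*b + 2*y*s*(1-x*y)) = (1-y)*(2*b) + y*(2*(s*(1-y)))*(1-x*y) := by ring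
      rw [e, hs]; linarith
    · have k1 := mul_nonneg hf (show 0 ≤ 1+9*x+8*y-18*x*y by linarith)
      have k2 := F19 (x := x) (y := y) hx hx5 hyh hy1 sk su
      have k4 : (1-x)*0 ≤ (1-x)*(b*(1+9*x+8*y-18*x*y)+9*(1-y)*(1-x-2*x*y)) := by linarith
      have k5 := canx _ _ k4
      refine cany _ _ ?_
      have e : (1-y)*(1 + b*x + 2*s*(1-x*y)) = (1-y)*(1 + b*x) + (2*(s*(1-y)))*(1-x*y) := by ring
      rw [e, hs]; linarith
    · have k1 := mul_nonneg hf (show 0 ≤ 9-9*x*y-(1-y)*(8*y-9*x*y) by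
        have := sq_nonneg (y - 1/2)
        linarith)
      have k2 := F20 (x := x) (y := y) hx hx5 hyh hy1 sk su
      have k4 : (1-x)*0 ≤ (1-x)*(b*(9-9*x*y-(1-y)*(8*y-9*x*y))-9*x*y*(1-y^2)) := by linarith
      have k5 := canx _ _ k4
      refine cany _ _ ?_
      have e : (1-y)*((y + b*y + b + 2*y^2*s)*(1-x*y))
        = ((1-y)*(y + b*y + b) + y^2*(2*(s*(1-y))))*(1-x*y) := by ring
      rw [e, hs]; linarith
    · have k1 := mul_nonneg hf (show 0 ≤ (1-y)*(10-9*x)+9-9*x*y by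
        have := mul_nonneg h1y.le (show 0 ≤ 10-9*x by linarith)
        linarith)
      have k2 := F21 (x := x) (y := y) hx hx5 hyh hy1 sk su
      have k4 : (1-x)*0 ≤ (1-x)*(b*((1-y)*(10-9*x)+9-9*x*y)+9*(1-y)*x*(1-3*y)) := by linarith
      have k5 := canx _ _ k4
      refine cany _ _ ?_
      have e : (1-y)*((3+2*s)*(1-x*y)) = (3*(1-y) + 2*(s*(1-y)))*(1-x*y) := by ring
      rw [e, hs]; linarith

/-- the trivial case of an empty parallelogram -/
theorem Cov.empty {X : ℝ → ℝ → Prop} (h : ∀ p q, ¬ X p q) : Cov X :=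
  ⟨0, 0, 0, 0, 0, 0, fun p q hpq => absurd hpq (h p q)⟩

/-- the decision on the pair `(2,3)` -/
theorem dec23 {x y a b ρ : ℝ} (hx : 0 ≤ x) (hx1' : x ≤ 1) (hy : 0 ≤ y) (hy1 : y ≤ 1)
    (hd : 0 < 1 - x*y) (ha : 0 ≤ a) (hb : 0 ≤ b) (hρ : 0 < ρ) (hρx : ρ*x ≤ 1)
    (k1 : b ≤ ρ*a) (k2 : ρ*(a+x)+b+y ≤ 2*ρ) (k3 : ρ*(a+x)+b+y ≤ 2)
    (f23 : x + y - 2*x*y < 2*(b*(1-x))) :
    Cov (Pl x y (1-a) (1+b)) ∨ Cov (Pl x y (1+a) (1-b)) := by
  have hN : 0 ≤ x + y - 2*x*y := by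
    have := mul_nonneg hx (sub_nonneg.2 hy1)
    have := mul_nonneg hy (sub_nonneg.2 hx1')
    linarith
  have hx1 : x < 1 := by
    by_contra h
    push Not at h
    have := mul_nonneg hb (sub_nonneg.2 h)
    linarith
  have h1x : 0 < 1 - x := by linarith
  have canx : ∀ u v : ℝ, (1-x)*u ≤ (1-x)*v → u ≤ v := fun u v h =>
    le_of_mul_le_mul_left h h1x
  have hb' : 0 < b := by
    rcases hb.eq_or_lt with h | h
    · rw [← h] at f23; linarith
    · exact h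
  have ha' : 0 < a := by
    rcases ha.eq_or_lt with h | h
    · rw [← h] at k1; linarith
    · exact h
  have ii' : 2*b + x + y ≤ 2 := by
    rcases le_total 1 ρ with h | h
    · have := mul_nonneg (sub_nonneg.2 h) hx
      linarith
    · have := mul_nonneg (sub_nonneg.2 h) (show 0 ≤ 2 - x by linarith)
      linarith
  have hb1 : b ≤ 1 := by linarith
  have hf := f23.le
  have st : 0 ≤ 2-4*x-2*y+3*x*y+x^2 := by
    have := mul_nonneg (sub_nonneg.2 ii') h1x.le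
    linarith
  have hx5 := st_bound hx1 hy hy1 st
  rcases le_total a x with hax | hax
  · right
    have hA : 0 ≤ 4 - 7*x - 5*y + 8*x*y := by
      have h3 : 3*b + y ≤ 2 := by
        have := mul_nonneg hρ.le (sub_nonneg.2 hax)
        linarith
      have := mul_nonneg (sub_nonneg.2 h3) h1x.le
      linarith
    obtain ⟨b0, hb0⟩ : ∃ b0 : ℝ, 2*(b0*(1-x)) = x + y - 2*x*y :=
      ⟨(x+y-2*x*y)/(2*(1-x)), by field_simp⟩
    have hbb : b0 ≤ b := canx _ _ (by linarith)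
    exact (lemA hx hx1 hy hy1 hd hb0 hA).mono
      (fun p q h => Pl.mono h (by linarith) (by linarith))
  · have toP : Cov (Pl y x (1+b) (1-a)) → Cov (Pl x y (1-a) (1+b)) := fun h =>
      h.swap.mono (fun p q h => Pl.swap' h)
    rcases lt_or_ge 1 a with ha1 | ha1
    · left
      refine Cov.empty (fun p q h => ?_)
      obtain ⟨h1, h2, h3, h4⟩ := h
      linarith
    · rcases le_total (8*b) (9*a) with hba | hba
      · left
        apply toP
        rcases le_total y (1/2) with hyh | hyh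
        · exact decP1 hx hy hyh hx5 hd hax ha1 hb hba ii' hf st
        · rcases le_total (1-x) a with h | h
          · exact decP2 hx hyh hy1 hx5 hd hax ha1 h ii' st
          · exact decP3 hx hyh hy1 hx5 hd hax ha1 h hb hba ii' hf st
      · have hρ9 : 9/8 ≤ ρ := by
          by_contra h
          push Not at h
          have := mul_lt_mul_of_pos_right h ha'
          linarith
        have hk : 16*b + 9*x + 8*y ≤ 16 := by
          have := mul_nonneg (sub_nonneg.2 hρ9) hx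
          linarith
        have sk : 0 ≤ 16-33*x-16*y+24*x*y+9*x^2 := by
          have := mul_nonneg (sub_nonneg.2 hk) h1x.le
          linarith
        rcases le_total y b with hyb | hyb
        · right
          exact decQ1 hx hy hy1 hx5 hd hb1 hyb hb hba hf st sk (by linarith)
        · rcases le_total y (1/2) with hyh | hyh
          · left
            apply toP
            exact decP0 hx hy hyh hx5 hd hax ha1 hyb
          · right
            exact decQ2 hx hyh hy1 hx5 hd hyb hb' hba hf ii' st sk (by linarith)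

end Pool.Agent.H52.SY
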