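import Pool.Agent.H52.SY.Lb

set_option autoImplicit false

namespace Pool.Agent.H52.SY

/-- Lemma C -/
theorem lemC {x y b : ℝ} (hx : 0 ≤ x) (hxh : x ≤ 1/2) (hy56 : y ≤ 5/6)
    (hb : 2*(b*(1-x)) = x + y - 2*x*y) (hB : 0 ≤ 7*x + 5*y - 8*x*y - 4) :
    Cov (Pl x y (1+0) (1-b)) := by
  have h1x : 0 < 1 - x := by linarith
  have canx : ∀ u v : ℝ, (1-x)*u ≤ (1-x)*v → u ≤ v := fun u v h =>
    le_of_mul_le_mul_left h h1x
  have hyh : 1/2 ≤ y := by
    by_contra h
    push Not at h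
    have := mul_nonneg (show 0 ≤ 1/2 - x by linarith) (show 0 ≤ 7 - 8*y by linarith)
    linarith
  have hy : 0 < y := by linarith
  have hxy := mul_nonneg hx hy.le
  have hd : 0 < 1 - x*y := by
    have := mul_nonneg (show 0 ≤ 1/2 - x by linarith) hy.le
    linarith
  have hby : b ≤ y := canx _ _ (by
    have := mul_nonneg h1x.le (show 0 ≤ 1 - y by linarith)
    have := mul_nonneg (show 0 ≤ y - 1/2 by linarith) (show 0 ≤ 1 - 2*x by linarith)
    linarith)
  have hb0 : 0 ≤ b := by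
    by_contra h
    push Not at h
    have := mul_neg_of_neg_of_pos h h1x
    have := mul_nonneg hx (show 0 ≤ 1 - y by linarith)
    have := mul_nonneg hy.le (show 0 ≤ 1 - x by linarith)
    linarith
  have k0 := K0 (x := x) (y := y) hx hxh hyh hy56 hB
  have k1 := K1 (x := x) (y := y) hx hxh hyh hy56 hB
  have k2 := K2 (x := x) (y := y) hx hxh hyh hy56 hB
  have k3 := K3 (x := x) (y := y) hx hxh hyh hy56 hB
  have k4 := K4 (x := x) (y := y) hx hxh hyh hy56 hB
  have k5 := K5 (x := x) (y := y) hx hxh hyh hy56 hB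
  have k6 := K6 (x := x) (y := y) hx hxh hyh hy56 hB
  have k7 := K7 (x := x) (y := y) hx hxh hyh hy56 hB
  rw [← hb] at k1 k2 k3 k4 k5 k6 k7
  have ht : 2*(y*(b/(2*y))) = b := by field_simp
  refine ttype hx hy (by linarith) (by linarith) hd hb0 hby (s := 1/2) (by norm_num) le_rfl ht
      ?_ ?_ ?_ ?_ ?_ ?_ ?_ ?_
  · exact canx _ _ (by linarith)
  · exact canx _ _ (by linarith)
  · exact canx _ _ (by linarith)
  · exact canx _ _ (by linarith)
  · exact canx _ _ (by linarith)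
  · exact canx _ _ (by linarith)
  · exact canx _ _ (by linarith)
  · exact canx _ _ (by linarith)

/-- the simple `Q` cover on the pair `(2,3)` -/
theorem decQs {x y a b : ℝ} (hx : 0 ≤ x) (hx1 : x ≤ 1) (hy : 0 ≤ y) (hy1 : y ≤ 1/6)
    (hd : 0 < 1 - x*y) (hb1 : b ≤ 1) (hb : 1 - y ≤ 2*b)
    (ii : a + b + x + y ≤ 2) (f23 : 2*(b*(1-x)) ≤ x + y - 2*x*y) :
    Cov (Pl x y (1+a) (1-b)) := by
  have h1x : 0 ≤ 1 - x := by linarith
  have hb0 : 0 ≤ b := by linarith
  have hh := mul_nonneg (sub_nonneg.2 hb) h1x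
  have hxy := mul_nonneg hx hy
  have hxy6 : 0 ≤ x*(1/6-y) := mul_nonneg hx (by linarith)
  have hx49 : 4/9 ≤ x := by
    by_contra h
    push Not at h
    have := mul_pos (show 0 < 4/9 - x by linarith) (show 0 < 2 - 3*y by linarith)
    linarith
  have hh2 := mul_nonneg (sub_nonneg.2 hb) (show 0 ≤ 1 - y by linarith)
  refine rtype (s := b/2) hx hy hx1 hd (by linarith) hb1 (by linarith) (by linarith) ?_ ?_ ?_ ?_
  · have := mul_nonneg hb0 hy; linarith
  · -- 1 - y + 2xy ≤ 2b + bx(1-y)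
    have k1 := mul_nonneg hx hh2
    have k2 : 0 ≤ x*((1-y)^2 - 4*y) := mul_nonneg hx (by
      have := sq_nonneg (1/6 - y)
      have := mul_nonneg hy (show 0 ≤ 1/6 - y by linarith)
      linarith)
    linarith
  · have k1 := mul_nonneg (sub_nonneg.2 ii) (show 0 ≤ 1 - y by linarith)
    have k2 := mul_nonneg (sub_nonneg.2 hb) (show 0 ≤ 3 - x - y - x*y by linarith)
    have k3 := mul_nonneg (show 0 ≤ 1 - y by linarith) (mul_nonneg (show 0 ≤ 1 - y by linarith)
      (show 0 ≤ 3*x - 1 by linarith))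
    linarith
  · have k1 := mul_nonneg (sub_nonneg.2 hb) (show 0 ≤ 4 - x - x*y by linarith)
    have k2 := mul_nonneg (show 0 ≤ x - 4/9 by linarith) (show 0 ≤ 3 - 6*y + y^2 by
      have := sq_nonneg y
      linarith)
    have k3 := sq_nonneg y
    linarith

/-- the decision on the pair `(1,3)` -/
theorem dec13 {x y a b μ : ℝ} (hx : 0 ≤ x) (hx1 : x ≤ 1) (hy : 0 ≤ y) (hy1 : y ≤ 1)
    (hd : 0 < 1 - x*y) (hμ : 0 ≤ μ) (hμ1 : μ ≤ 1) (hb : 0 ≤ b)
    (h2 : 0 < 1 - μ*(1-y)) (h3 : 0 < 1 - (1-x)*(1-μ))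
    (k1 : b*(1 - (1-x)*(1-μ)) ≤ (1 - μ*(1-y))*a)
    (k2 : (1 - μ*(1-y))*(a+x)+(b+y)*(1 - (1-x)*(1-μ)) ≤ 2*(1 - μ*(1-y)))
    (k3 : (1 - μ*(1-y))*(a+x)+(b+y)*(1 - (1-x)*(1-μ)) ≤ 2*(1 - (1-x)*(1-μ)))
    (f23 : 2*(b*(1-x)) ≤ x + y - 2*x*y)
    (f13 : μ*y + (1-y)*(1-μ) < 2*(b*(1-μ))) :
    Cov (Pl x y (1+a) (1-b)) ∨ Cov (Pl μ (1-y) (1+0) (1-b)) := by
  obtain ⟨A2, hA2⟩ : ∃ A2 : ℝ, A2 = 1 - μ*(1-y) := ⟨_, rfl⟩
  obtain ⟨A3, hA3⟩ : ∃ A3 : ℝ, A3 = 1 - (1-x)*(1-μ) := ⟨_, rfl⟩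
  rw [← hA2, ← hA3] at k1 k2 k3
  rw [← hA2] at h2
  rw [← hA3] at h3
  have ii' : 2*b + x + y ≤ 2 := by
    rcases le_total A3 A2 with h | h
    · have z1 := mul_nonneg (sub_nonneg.2 h) hx
      refine le_of_mul_le_mul_left ?_ h3
      linarith
    · have z1 := mul_nonneg (sub_nonneg.2 h) (show 0 ≤ 2 - x by linarith)
      refine le_of_mul_le_mul_left ?_ h3
      linarith
  have ii : a + b + x + y ≤ 2 := by
    by_contra hc
    push Not at hc
    have ha : 0 < a + x := by linarith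
    rcases le_total A3 A2 with h | h
    · have z1 := mul_nonneg (sub_nonneg.2 h) ha.le
      have z2 := mul_pos (sub_pos.2 hc) h3
      linarith
    · have z1 := mul_nonneg (sub_nonneg.2 h) (show 0 ≤ b + y by linarith)
      have z2 := mul_pos (sub_pos.2 hc) h2
      linarith
  have hb1 : b ≤ 1 := by linarith
  have h1m : 0 < 1 - μ := by
    by_contra h
    push Not at h
    have : μ = 1 := by linarith
    rw [this] at f13
    linarith
  have canm : ∀ u v : ℝ, (1-μ)*u ≤ (1-μ)*v → u ≤ v := fun u v h =>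
    le_of_mul_le_mul_left h h1m
  have hmy := mul_nonneg hμ hy
  have hb2 : 1 - y ≤ 2*b := canm _ _ (by linarith)
  rcases le_total y (1/6) with hy6 | hy6
  · left
    exact decQs hx hx1 hy hy6 hd hb1 hb2 ii f23
  · right
    have hmh : μ ≤ 1/2 := by
      by_contra hc
      push Not at hc
      have z0 := mul_nonneg (show 0 ≤ 2*μ - 1 by linarith) hy
      have z1 : 1 ≤ 2*b := canm _ _ (by linarith)
      have z2 : A2 ≤ (1+y)/2 := by
        have := mul_nonneg (show 0 ≤ μ - 1/2 by linarith) (sub_nonneg.2 hy1)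
        linarith
      have z3 : (1+x)/2 ≤ A3 := by
        have := mul_nonneg (show 0 ≤ μ - 1/2 by linarith) (sub_nonneg.2 hx1)
        linarith
      have z4 : (1+y)*A3 ≤ (2-x)*A2 := by
        have := mul_nonneg (sub_nonneg.2 z1) h3.le
        linarith
      have z5 := mul_nonneg (show 0 ≤ 1 + y by linarith) (sub_nonneg.2 z3)
      have z6 := mul_nonneg (show 0 ≤ 2 - x by linarith) (sub_nonneg.2 z2)
      have z7 : x ≤ 1/2 := by
        by_contra hc'
        push Not at hc'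
        have := mul_pos (show 0 < 1 + y by linarith) (show 0 < x - 1/2 by linarith)
        linarith
      have z8 := mul_nonneg (show 0 ≤ 1 - 2*x by linarith) (sub_nonneg.2 hy1)
      have z1' : 1 < 2*b := by
        by_contra hc'
        push Not at hc'
        have := mul_nonneg (sub_nonneg.2 hc') h1m.le
        linarith
      have z9 := mul_pos (sub_pos.2 z1') (show 0 < 1 - x by linarith)
      linarith
    obtain ⟨b0, hb0⟩ : ∃ b0 : ℝ, 2*(b0*(1-μ)) = μ + (1-y) - 2*μ*(1-y) :=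
      ⟨(μ+(1-y)-2*μ*(1-y))/(2*(1-μ)), by field_simp⟩
    have hbb : b0 ≤ b := canm _ _ (by linarith)
    have hd' : 0 < 1 - μ*(1-y) := by rw [← hA2]; exact h2
    rcases le_total 0 (4 - 7*μ - 5*(1-y) + 8*μ*(1-y)) with hA | hA
    · exact (lemA hμ (by linarith) (by linarith) (by linarith) hd' hb0 hA).mono
        (fun p q h => Pl.mono h (by linarith) (by linarith))
    · exact (lemC hμ hmh (by linarith) hb0 (by linarith)).mono
        (fun p q h => Pl.mono h (by linarith) (by linarith))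

end Pool.Agent.H52.SY
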