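import Pool.Agent.H52.SY.Fi

set_option autoImplicit false

namespace Pool.Agent.H52.SY

/-- a set of reals with differences at most one lies in an interval of length one -/
theorem strip {V : Set ℝ} (hV : V.Nonempty) (h : ∀ s ∈ V, ∀ t ∈ V, s - t ≤ 1) :
    ∃ l : ℝ, ∀ s ∈ V, l ≤ s ∧ s ≤ l + 1 := by
  obtain ⟨s0, hs0⟩ := hV
  have hb : BddBelow V := ⟨s0 - 1, fun t ht => by linarith [h s0 hs0 t ht]⟩
  refine ⟨sInf V, fun s hs => ⟨csInf_le hb hs, ?_⟩⟩
  have : s - 1 ≤ sInf V := le_csInf ⟨s0, hs0⟩ (fun t ht => by linarith [h s hs t ht])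
  linarith

/-- the owner of a functional -/
theorem owner {n : ℕ} {F : Fin n → Set E} (u : E →ₗ[ℝ] ℝ)
    (cross : ∀ i j : Fin n, i ≠ j → ∀ a ∈ F i, ∀ b ∈ F j, u a - u b ≤ 1)
    {b c : Fin n} (hbc : b ≠ c) (hc : (F c).Nonempty)
    (hw : ∃ a1 ∈ F b, ∃ a2 ∈ F b, 1 < u a1 - u a2) :
    ∃ l e : ℝ, 0 < e ∧ (∀ a ∈ F b, l ≤ u a ∧ u a ≤ l + 1 + e) ∧
      (∀ j, j ≠ b → ∀ a ∈ F j, l + e ≤ u a ∧ u a ≤ l + 1) ∧
      (∀ C A : ℝ, 0 ≤ A → (∀ a ∈ F b, A * u a ≤ C) → A * (l + 1 + e) ≤ C) ∧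
      (∀ C A : ℝ, 0 ≤ A → (∀ a ∈ F b, C ≤ A * u a) → C ≤ A * l) := by
  obtain ⟨a1, ha1, a2, ha2, h12⟩ := hw
  obtain ⟨z0, hz0⟩ := hc
  have hne : (u '' F b).Nonempty := ⟨_, a1, ha1, rfl⟩
  have hbA : BddAbove (u '' F b) := ⟨u z0 + 1, by
    rintro _ ⟨a, ha, rfl⟩; linarith [cross b c hbc a ha z0 hz0]⟩
  have hbB : BddBelow (u '' F b) := ⟨u z0 - 1, by
    rintro _ ⟨a, ha, rfl⟩; linarith [cross c b hbc.symm z0 hz0 a ha]⟩
  have k1 : u a1 ≤ sSup (u '' F b) := le_csSup hbA ⟨a1, ha1, rfl⟩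
  have k2 : sInf (u '' F b) ≤ u a2 := csInf_le hbB ⟨a2, ha2, rfl⟩
  refine ⟨sInf (u '' F b), sSup (u '' F b) - sInf (u '' F b) - 1, by linarith, ?_, ?_, ?_, ?_⟩
  · intro a ha
    have k3 : u a ≤ sSup (u '' F b) := le_csSup hbA ⟨a, ha, rfl⟩
    have k4 : sInf (u '' F b) ≤ u a := csInf_le hbB ⟨a, ha, rfl⟩
    exact ⟨k4, by linarith⟩
  · intro j hj a ha
    have k3 : sSup (u '' F b) ≤ u a + 1 := csSup_le hne (by
      rintro _ ⟨a', ha', rfl⟩; linarith [cross b j (Ne.symm hj) a' ha' a ha])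
    have k4 : u a - 1 ≤ sInf (u '' F b) := le_csInf hne (by
      rintro _ ⟨a', ha', rfl⟩; linarith [cross j b hj a ha a' ha'])
    exact ⟨by linarith, by linarith⟩
  · intro C A hA h
    have e : sInf (u '' F b) + 1 + (sSup (u '' F b) - sInf (u '' F b) - 1) = sSup (u '' F b) := by
      ring
    rw [e]
    rcases hA.eq_or_lt with h0 | h0
    · have := h a1 ha1
      rw [← h0] at this ⊢
      linarith
    · have : sSup (u '' F b) ≤ C / A := csSup_le hne (by
        rintro _ ⟨a, ha, rfl⟩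
        rw [le_div_iff₀ h0]
        linarith [h a ha])
      rw [le_div_iff₀ h0] at this
      linarith
  · intro C A hA h
    rcases hA.eq_or_lt with h0 | h0
    · have := h a1 ha1
      rw [← h0] at this ⊢
      linarith
    · have : C / A ≤ sInf (u '' F b) := le_csInf hne (by
        rintro _ ⟨a, ha, rfl⟩
        rw [div_le_iff₀ h0]
        linarith [h a ha])
      rw [div_le_iff₀ h0] at this
      linarith

/-- the main theorem for a set symmetric about the origin that is not contained in a line -/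
theorem main_sym {n : ℕ} (hn : 2 ≤ n) {K : Set E} (S : Sym K) (F : Fin n → Set E)
    (hF : ∀ i, (F i).Nonempty)
    (hint : ∀ i j : Fin n, i ≠ j → ∀ a ∈ F i, ∀ b ∈ F j, ∃ x, x - a ∈ K ∧ x - b ∈ K) :
    ∃ m : Fin n, ∃ P : Finset E, P.card ≤ 3 ∧
      ∀ i, i ≠ m → ∀ a ∈ F i, ∃ p ∈ P, p - a ∈ K := by
  classical
  have hother : ∀ i : Fin n, ∃ j : Fin n, j ≠ i := by
    intro i
    by_cases hi : i = ⟨0, by omega⟩
    · refine ⟨⟨1, by omega⟩, ?_⟩
      rw [hi]; intro h0; simp at h0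
    · exact ⟨⟨0, by omega⟩, Ne.symm hi⟩
  -- differences of different families
  have cross : ∀ u : E →ₗ[ℝ] ℝ, (∀ z ∈ K, u z ≤ 1/2) →
      ∀ i j : Fin n, i ≠ j → ∀ a ∈ F i, ∀ b ∈ F j, u a - u b ≤ 1 := by
    intro u hu i j hij a ha b hb
    obtain ⟨x, hx1, hx2⟩ := hint i j hij a ha b hb
    have k1 := hu _ (S.sym _ hx1)
    have k2 := hu _ hx2
    rw [map_neg, map_sub] at k1
    rw [map_sub] at k2
    linarith
  -- differences in families that are not wide
  have nwide : ∀ w : E, (∀ z ∈ K, ell w z ≤ 1/2) → ∀ j, ¬ Wide K (F j) w →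
      ∀ a ∈ F j, ∀ b ∈ F j, ell w a - ell w b ≤ 1 := by
    intro w hu j hj a ha b hb
    by_contra hc
    push Not at hc
    apply hj
    refine ⟨a, ha, b, hb, fun k hk => ?_⟩
    rw [map_sub]
    linarith [hu k hk]
  have iswide : ∀ w : E, ∀ k ∈ K, ell w k = 1/2 → ∀ j, Wide K (F j) w →
      ∃ a1 ∈ F j, ∃ a2 ∈ F j, 1 < ell w a1 - ell w a2 := by
    rintro w k hk hwk j ⟨a1, ha1, a2, ha2, h⟩
    refine ⟨a1, ha1, a2, ha2, ?_⟩
    have := h k hk
    rw [hwk, map_sub] at this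
    linarith
  -- the case of three narrow functionals
  have T0 : ∀ {k1 k2 k3 : E} {w1 w2 w3 : E}, Tri K k1 k2 k3 (ell w1) (ell w2) (ell w3) →
      ∀ m : Fin n, (∀ j, j ≠ m → ¬ Wide K (F j) w1 ∧ ¬ Wide K (F j) w2 ∧ ¬ Wide K (F j) w3) →
      ∃ P : Finset E, P.card ≤ 3 ∧ ∀ i, i ≠ m → ∀ a ∈ F i, ∃ p ∈ P, p - a ∈ K := by
    intro k1 k2 k3 w1 w2 w3 T m hm
    obtain ⟨j0, hj0⟩ := hother m
    have st : ∀ w : E, (∀ z ∈ K, ell w z ≤ 1/2) → (∀ j, j ≠ m → ¬ Wide K (F j) w) →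
        ∃ l : ℝ, ∀ a, (∃ i, i ≠ m ∧ a ∈ F i) → l ≤ ell w a ∧ ell w a ≤ l + 1 := by
      intro w hw hnw
      obtain ⟨a0, ha0⟩ := hF j0
      obtain ⟨l, hl⟩ := strip (V := ell w '' {a | ∃ i, i ≠ m ∧ a ∈ F i})
        ⟨_, a0, ⟨j0, hj0, ha0⟩, rfl⟩ (by
          rintro _ ⟨a, ⟨i, hi, ha⟩, rfl⟩ _ ⟨b, ⟨j, hj, hb⟩, rfl⟩
          by_cases hij : i = j
          · subst hij
            exact nwide w hw i (hnw i hi) a ha b hb
          · exact cross _ hw i j hij a ha b hb)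
      exact ⟨l, fun a ha => hl _ ⟨a, ha, rfl⟩⟩
    obtain ⟨l1, h1⟩ := st w1 T.b1 (fun j hj => (hm j hj).1)
    obtain ⟨l2, h2⟩ := st w2 T.b2 (fun j hj => (hm j hj).2.1)
    obtain ⟨l3, h3⟩ := st w3 T.b3 (fun j hj => (hm j hj).2.2)
    obtain ⟨x, y, μ, hx, hx1, hy, hy1, hμ, hμ1, co, -⟩ := T.params S
    obtain ⟨P, hP, hP2⟩ := T.pierce S (t0 hx hx1 hy hy1 hμ hμ1 l1 l2 l3)
      {a | ∃ i, i ≠ m ∧ a ∈ F i} (by
        intro a ha p q hpq
        have e := co p q
        rw [← hpq] at e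
        rw [← e.1, ← e.2.1, ← e.2.2]
        exact ⟨h1 a ha, h2 a ha, h3 a ha⟩)
    exact ⟨P, hP, fun i hi a ha => hP2 a ⟨i, hi, ha⟩⟩
  -- representation of functionals
  have triw : ∀ w : E, w ≠ 0 → ∃ (c : ℝ) (k1 k2 k3 : E) (w2 w3 : E), 0 < c ∧
      Tri K k1 k2 k3 (ell (c • w)) (ell w2) (ell w3) := by
    intro w hw
    obtain ⟨c, k1, k2, k3, u2, u3, hc, T⟩ := S.tri hw
    obtain ⟨w2, rfl⟩ := exists_ell u2
    obtain ⟨w3, rfl⟩ := exists_ell u3
    refine ⟨c, k1, k2, k3, w2, w3, hc, ?_⟩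
    have e : ell (c • w) = c • ell w := by
      apply LinearMap.ext; intro z
      simp only [ell_apply, LinearMap.smul_apply, PiLp.smul_apply, smul_eq_mul]; ring
    rw [e]; exact T
  have nz : ∀ w k : E, ell w k = 1/2 → w ≠ 0 := by
    rintro w k h rfl
    rw [ell_apply] at h
    simp at h
  rcases joker S F hint with ⟨m, hm⟩ | ⟨w, hw, hjk⟩
  · -- one family is always the wide one
    have hw0 : (EuclideanSpace.single 0 1 : E) ≠ 0 := by
      intro h0
      have := congrArg (fun z : E => z 0) h0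
      simp at this
    obtain ⟨c, k1, k2, k3, w2, w3, hc, T⟩ := triw _ hw0
    obtain ⟨P, hP, hP2⟩ := T0 T m (fun j hj => ⟨hm j hj _ (nz _ _ T.e1), hm j hj _ (nz _ _ T.e2),
      hm j hj _ (nz _ _ T.e3)⟩)
    exact ⟨m, P, hP, hP2⟩
  · obtain ⟨c, k1, k2, k3, w2, w3, hc, T⟩ := triw w hw
    have hjk1 : ∀ j, ¬ Wide K (F j) (c • w) := by
      rintro j ⟨a, ha, b, hb, h⟩
      apply hjk j
      refine ⟨a, ha, b, hb, fun k hk => ?_⟩
      have := h k hk
      have e : ∀ z, ell (c • w) z = c * ell w z := by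
        intro z
        simp only [ell_apply, PiLp.smul_apply, smul_eq_mul]; ring
      rw [e, e] at this
      refine lt_of_mul_lt_mul_left ?_ hc.le
      linarith
    by_cases hb : ∃ b, Wide K (F b) w2
    · obtain ⟨b, hb⟩ := hb
      have hnb : ∀ j, j ≠ b → ¬ Wide K (F j) w2 := fun j hj h =>
        wide_disj S (hint j b hj) h hb
      by_cases hc3 : ∃ d, d ≠ b ∧ Wide K (F d) w3
      · obtain ⟨d, hdb, hd⟩ := hc3
        -- the core case
        obtain ⟨l2, e2, he2, f2, g2, s2, i2⟩ := owner (ell w2) (cross _ T.b2) hdb.symm (hF d)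
          (iswide w2 k2 T.m2 T.e2 b hb)
        obtain ⟨l3, e3, he3, f3, g3, s3, i3⟩ := owner (ell w3) (cross _ T.b3) hdb (hF b)
          (iswide w3 k3 T.m3 T.e3 d hd)
        obtain ⟨l1, h1⟩ : ∃ l : ℝ, ∀ i, ∀ a ∈ F i, l ≤ ell (c • w) a ∧ ell (c • w) a ≤ l + 1 := by
          obtain ⟨a0, ha0⟩ := hF b
          obtain ⟨l, hl⟩ := strip (V := ell (c • w) '' {a | ∃ i, a ∈ F i})
            ⟨_, a0, ⟨b, ha0⟩, rfl⟩ (by
              rintro _ ⟨a, ⟨i, ha⟩, rfl⟩ _ ⟨b, ⟨j, hb⟩, rfl⟩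
              by_cases hij : i = j
              · subst hij
                exact nwide _ T.b1 i (hjk1 i) a ha b hb
              · exact cross _ T.b1 i j hij a ha b hb)
          exact ⟨l, fun i a ha => hl _ ⟨a, ⟨i, ha⟩, rfl⟩⟩
        obtain ⟨x, y, μ, hx, hx1, hy, hy1, hμ, hμ1, co, rel⟩ := T.params S
        have α1 : 0 ≤ 1 - x*y := by
          have := mul_nonneg hx (sub_nonneg.2 hy1)
          linarith
        have α2 : 0 ≤ 1 - μ*(1-y) := by
          have := mul_nonneg hμ hy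
          linarith
        have α3 : 0 ≤ 1 - (1-x)*(1-μ) := by
          have := mul_nonneg hx (sub_nonneg.2 hμ1)
          linarith
        have c1 := s2 (-((1-x*y)*l1) - (1 - (1-x)*(1-μ))*(l3+e3)) _ α2 (by
          intro a ha
          have r := rel a
          have z1 := mul_le_mul_of_nonneg_left (h1 b a ha).1 α1
          have z3 := mul_le_mul_of_nonneg_left (g3 b hdb.symm a ha).1 α3
          linarith)
        have c2 := i2 (-((1-x*y)*(l1+1)) - (1 - (1-x)*(1-μ))*(l3+1)) _ α2 (by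
          intro a ha
          have r := rel a
          have z1 := mul_le_mul_of_nonneg_left (h1 b a ha).2 α1
          have z3 := mul_le_mul_of_nonneg_left (g3 b hdb.symm a ha).2 α3
          linarith)
        have c3 := s3 (-((1-x*y)*l1) - (1 - μ*(1-y))*(l2+e2)) _ α3 (by
          intro a ha
          have r := rel a
          have z1 := mul_le_mul_of_nonneg_left (h1 d a ha).1 α1
          have z3 := mul_le_mul_of_nonneg_left (g2 d hdb a ha).1 α2
          linarith)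
        have c4 := i3 (-((1-x*y)*(l1+1)) - (1 - μ*(1-y))*(l2+1)) _ α3 (by
          intro a ha
          have r := rel a
          have z1 := mul_le_mul_of_nonneg_left (h1 d a ha).2 α1
          have z3 := mul_le_mul_of_nonneg_left (g2 d hdb a ha).2 α2
          linarith)
        rcases core (l1 := l1) (l2 := l2) (l3 := l3) hx hx1 hy hy1 hμ hμ1 he2 he3
          (by linarith) (by linarith) (by linarith) (by linarith) with hcov | hcov
        · -- remove `b`
          obtain ⟨P, hP, hP2⟩ := T.pierce S hcov {a | ∃ i, i ≠ b ∧ a ∈ F i} (by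
            rintro a ⟨i, hi, ha⟩ p q hpq
            have e := co p q
            rw [← hpq] at e
            rw [← e.1, ← e.2.1, ← e.2.2]
            refine ⟨h1 i a ha, g2 i hi a ha, ?_⟩
            by_cases hid : i = d
            · rw [hid] at ha
              exact f3 a ha
            · have := g3 i hid a ha
              exact ⟨by linarith [this.1], by linarith [this.2]⟩)
          exact ⟨b, P, hP, fun i hi a ha => hP2 a ⟨i, hi, ha⟩⟩
        · -- remove `d`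
          obtain ⟨P, hP, hP2⟩ := T.pierce S hcov {a | ∃ i, i ≠ d ∧ a ∈ F i} (by
            rintro a ⟨i, hi, ha⟩ p q hpq
            have e := co p q
            rw [← hpq] at e
            rw [← e.1, ← e.2.1, ← e.2.2]
            refine ⟨h1 i a ha, ?_, g3 i hi a ha⟩
            by_cases hib : i = b
            · rw [hib] at ha
              exact f2 a ha
            · have := g2 i hib a ha
              exact ⟨by linarith [this.1], by linarith [this.2]⟩)
          exact ⟨d, P, hP, fun i hi a ha => hP2 a ⟨i, hi, ha⟩⟩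
      · push Not at hc3
        obtain ⟨P, hP, hP2⟩ := T0 T b (fun j hj => ⟨hjk1 j, hnb j hj, hc3 j hj⟩)
        exact ⟨b, P, hP, hP2⟩
    · push Not at hb
      by_cases hd : ∃ d, Wide K (F d) w3
      · obtain ⟨d, hd⟩ := hd
        obtain ⟨P, hP, hP2⟩ := T0 T d (fun j hj => ⟨hjk1 j, hb j, fun h =>
          wide_disj S (hint j d hj) h hd⟩)
        exact ⟨d, P, hP, hP2⟩
      · push Not at hd
        obtain ⟨P, hP, hP2⟩ := T0 T ⟨0, by omega⟩ (fun j hj => ⟨hjk1 j, hb j, hd j⟩)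
        exact ⟨_, P, hP, hP2⟩

end Pool.Agent.H52.SY
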