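import Pool.Agent.H52.SY.Cl

set_option autoImplicit false
set_option linter.unusedVariables false

namespace Pool.Agent.H52.SY

/-- second half of the cluster cover -/
theorem pclZ {x y μ a b : ℝ} (hx : 0 ≤ x) (hx1 : x ≤ 1) (hy : 0 ≤ y) (hy1 : y ≤ 1)
    (hμ : 0 ≤ μ) (hμ1 : μ ≤ 1) (hd : 0 < 1 - x*y) (a2 : 0 < 1 - μ*(1-y))
    (a3 : 0 < 1 - (1-x)*(1-μ)) (ha : 0 ≤ a)
    (f23 : 2*(b*(1-x)) ≤ x + y - 2*x*y) (f13 : 2*(b*(1-μ)) ≤ μ*y + (1-y)*(1-μ))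
    {V1 V2 V3 s : ℝ}
    (hs : (1-x*y)*V1 + (1 - μ*(1-y))*V2 + (1 - (1-x)*(1-μ))*V3 + s
      = ((1-x*y) + (1 - μ*(1-y)) + (1 - (1-x)*(1-μ)))/2)
    (sA : (1 - μ*(1-y))*a ≤ s) (s3 : s - (1 - μ*(1-y))*a ≤ (1-x*y)/2)
    {ζ1 ζ2 : ℝ} (hζ1 : 0 ≤ ζ1) (hζ2 : 0 ≤ ζ2)
    (z1 : x*ζ1 - μ*ζ2 ≤ (x+μ)/2 - x*μ) (z2 : μ*ζ2 - x*ζ1 ≤ (x+μ)/2 - x*μ)
    (z3 : y*ζ1 ≤ (1-μ)/2 + y*(μ-1/2)) (z6 : (1-y)*ζ2 ≤ (x+y)/2 - x*y)
    (zD : (1-x*y)/2 ≤ (1-x*y)*ζ1 + (1 - μ*(1-y))*ζ2) :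
    Cov (fun p q => (V1 - 1 ≤ U1 μ p q ∧ U1 μ p q ≤ V1) ∧
      (V2 - (1-a) ≤ p - x*q ∧ p - x*q ≤ V2) ∧ (V3 - (1+b) ≤ q - y*p ∧ q - y*p ≤ V3)) := by
  have hD : 0 < (1-x*y)*ζ1 + (1 - μ*(1-y))*ζ2 := by linarith
  obtain ⟨θ, hθ⟩ : ∃ θ : ℝ, θ*((1-x*y)*ζ1 + (1 - μ*(1-y))*ζ2) = s - (1 - μ*(1-y))*a :=
    ⟨(s - (1 - μ*(1-y))*a)/((1-x*y)*ζ1 + (1 - μ*(1-y))*ζ2), div_mul_cancel₀ _ hD.ne'⟩
  have θ0 : 0 ≤ θ := by
    by_contra h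
    push Not at h
    have := mul_neg_of_neg_of_pos h hD
    linarith
  have θ1 : θ ≤ 1 := by
    by_contra h
    push Not at h
    have := mul_pos (sub_pos.2 h) hD
    linarith
  have R1 : 0 ≤ (x+μ)/2 - x*μ := by
    have := mul_nonneg hx (sub_nonneg.2 hμ1)
    have := mul_nonneg hμ (sub_nonneg.2 hx1)
    linarith
  have R3 : 0 ≤ (1-μ)/2 + y*(μ-1/2) := (mul_nonneg hy hζ1).trans z3
  have R6 : 0 ≤ (x+y)/2 - x*y := (mul_nonneg (sub_nonneg.2 hy1) hζ2).trans z6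
  have t1 := mul_le_mul_of_nonneg_left z1 θ0
  have t2 := mul_le_mul_of_nonneg_left z2 θ0
  have t3 := mul_le_mul_of_nonneg_left z3 θ0
  have t6 := mul_le_mul_of_nonneg_left z6 θ0
  have w1 := mul_nonneg (sub_nonneg.2 θ1) R1
  have w3 := mul_nonneg (sub_nonneg.2 θ1) R3
  have w6 := mul_nonneg (sub_nonneg.2 θ1) R6
  have η1 := mul_nonneg θ0 hζ1
  have η2 := mul_nonneg θ0 hζ2
  have ma := mul_nonneg hμ ha
  refine clu (h1 := 1/2 - θ*ζ1) (h2 := 1/2 - (a + θ*ζ2)) (h3 := 1/2) hx hx1 hy hy1 hμ hμ1 hd a2 a3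
    ?_ ?_ ?_ le_rfl ?_ ?_ ?_ ?_ ?_ ?_
  · linarith
  · linarith
  · linarith
  · linarith
  · linarith
  · linarith
  · linarith [mul_nonneg hy η1]
  · linarith [mul_nonneg (sub_nonneg.2 hy1) η2, mul_nonneg (sub_nonneg.2 hy1) ha]
  · linarith

/-- one sided cluster cover of `P` -/
theorem pclU {x y μ a b : ℝ} (hx : 0 ≤ x) (hx1 : x ≤ 1) (hy : 0 ≤ y) (hy1 : y ≤ 1)
    (hμ : 0 ≤ μ) (hμ1 : μ ≤ 1) (hd : 0 < 1 - x*y) (a2 : 0 < 1 - μ*(1-y))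
    (a3 : 0 < 1 - (1-x)*(1-μ)) (ha : 0 ≤ a) (hb : 0 ≤ b)
    (f23 : 2*(b*(1-x)) ≤ x + y - 2*x*y) (f13 : 2*(b*(1-μ)) ≤ μ*y + (1-y)*(1-μ))
    {V1 V2 V3 s : ℝ}
    (hs : (1-x*y)*V1 + (1 - μ*(1-y))*V2 + (1 - (1-x)*(1-μ))*V3 + s
      = ((1-x*y) + (1 - μ*(1-y)) + (1 - (1-x)*(1-μ)))/2)
    (s0 : 0 ≤ s) (s3 : s ≤ (1-x*y)/2) :
    Cov (fun p q => (V1 - 1 ≤ U1 μ p q ∧ U1 μ p q ≤ V1) ∧
      (V2 - (1-a) ≤ p - x*q ∧ p - x*q ≤ V2) ∧ (V3 - (1+b) ≤ q - y*p ∧ q - y*p ≤ V3)) := by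
  have x1 : 0 ≤ 1 - x := by linarith
  have y1 : 0 ≤ 1 - y := by linarith
  have m1 : 0 ≤ 1 - μ := by linarith
  have R1 : 0 ≤ (x+μ)/2 - x*μ := by
    have := mul_nonneg hx m1
    have := mul_nonneg hμ x1
    linarith
  have R3 : 0 ≤ (1-μ)/2 + y*(μ-1/2) := by
    have := mul_nonneg y1 m1
    have := mul_nonneg hy hμ
    linarith
  have R6 : 0 ≤ (x+y)/2 - x*y := by
    have := mul_nonneg hx y1
    have := mul_nonneg hy x1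
    linarith
  rcases le_total s ((1 - μ*(1-y))*a) with h | h
  · obtain ⟨η, hη⟩ : ∃ η : ℝ, (1 - μ*(1-y))*η = s :=
      ⟨s/(1 - μ*(1-y)), mul_div_cancel₀ _ a2.ne'⟩
    have η0 : 0 ≤ η := by
      by_contra h
      push Not at h
      have := mul_neg_of_pos_of_neg a2 h
      linarith
    have ηa : η ≤ a := le_of_mul_le_mul_left (by linarith) a2
    refine clu (h1 := 1/2) (h2 := 1/2 - η) (h3 := 1/2) hx hx1 hy hy1 hμ hμ1 hd a2 a3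
      ?_ le_rfl ?_ le_rfl ?_ ?_ ?_ ?_ ?_ ?_
    · linarith
    · linarith
    · linarith [mul_nonneg hμ η0]
    · linarith [mul_nonneg hμ (sub_nonneg.2 ηa)]
    · linarith
    · linarith
    · linarith [mul_nonneg y1 η0]
    · linarith [mul_nonneg y1 (sub_nonneg.2 ηa)]
  · have ma := mul_nonneg a2.le ha
    rcases le_total y (1/2) with hyh | hyh
    · rcases le_total x (1/2) with hxh | hxh
      · refine pclZ (ζ1 := 1/2) (ζ2 := 0) hx hx1 hy hy1 hμ hμ1 hd a2 a3 ha f23 f13 hs h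
          (by linarith) (by norm_num) le_rfl ?_ ?_ ?_ ?_ ?_
        · linarith [mul_nonneg hμ (sub_nonneg.2 hxh)]
        · linarith
        · linarith [mul_nonneg m1 (sub_nonneg.2 hyh)]
        · linarith
        · linarith
      · refine pclZ (ζ1 := 1/2) (ζ2 := x - 1/2) hx hx1 hy hy1 hμ hμ1 hd a2 a3 ha f23 f13 hs h
          (by linarith) (by norm_num) (by linarith) ?_ ?_ ?_ ?_ ?_
        · linarith [mul_nonneg hμ (sub_nonneg.2 hxh)]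
        · linarith [mul_nonneg hμ x1, mul_nonneg hx m1]
        · linarith [mul_nonneg m1 (sub_nonneg.2 hyh)]
        · linarith
        · linarith [mul_nonneg a2.le (sub_nonneg.2 hxh)]
    · have y0 : 0 < y := by linarith
      obtain ⟨κ, hκ⟩ : ∃ κ : ℝ, y*κ = μ*y + (1-y)*(1-μ) :=
        ⟨(μ*y + (1-y)*(1-μ))/y, mul_div_cancel₀ _ y0.ne'⟩
      have κμ : μ ≤ κ := le_of_mul_le_mul_left (by linarith [mul_nonneg y1 m1]) y0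
      have κ1 : κ ≤ 1 := le_of_mul_le_mul_left (by
        linarith [mul_nonneg m1 (sub_nonneg.2 hyh)]) y0
      have κ0 : 0 ≤ κ := hμ.trans κμ
      refine pclZ (ζ1 := κ/2) (ζ2 := 1/2) hx hx1 hy hy1 hμ hμ1 hd a2 a3 ha f23 f13 hs h
          (by linarith) (by linarith) (by norm_num) ?_ ?_ ?_ ?_ ?_
      · linarith [mul_nonneg hx (sub_nonneg.2 κ1), mul_nonneg hμ x1]
      · linarith [mul_nonneg hx (sub_nonneg.2 κμ), mul_nonneg hx m1]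
      · linarith
      · linarith [mul_nonneg x1 (sub_nonneg.2 hyh)]
      · -- α1 (1 - κ) ≤ α2
        have k1 : (1-x*y)*(1-κ) ≤ 1 - μ*(1-y) := by
          refine le_of_mul_le_mul_left ?_ y0
          have e : y*((1-x*y)*(1-κ)) = (1-x*y)*(y - y*κ) := by ring
          rw [e, hκ]
          have k2 : 0 ≤ x*y*((1-μ)*(2*y-1)) :=
            mul_nonneg (mul_nonneg hx hy) (mul_nonneg m1 (by linarith))
          have k3 := mul_nonneg m1 y1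
          have k4 := mul_nonneg (mul_nonneg hμ hy) hy
          linarith
        linarith

/-- cluster cover of `P` -/
theorem pcl {x y μ a b : ℝ} (hx : 0 ≤ x) (hx1 : x ≤ 1) (hy : 0 ≤ y) (hy1 : y ≤ 1)
    (hμ : 0 ≤ μ) (hμ1 : μ ≤ 1) (hd : 0 < 1 - x*y) (a2 : 0 < 1 - μ*(1-y))
    (a3 : 0 < 1 - (1-x)*(1-μ)) (ha : 0 ≤ a) (hb : 0 ≤ b)
    (hAB : (1 - (1-x)*(1-μ))*b ≤ (1 - μ*(1-y))*a)
    (f23 : 2*(b*(1-x)) ≤ x + y - 2*x*y) (f13 : 2*(b*(1-μ)) ≤ μ*y + (1-y)*(1-μ))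
    {l1 l2 l3 : ℝ}
    (c1 : (1-x*y)*l1 + (1 - μ*(1-y))*(l2+1+a) + (1 - (1-x)*(1-μ))*(l3+b) ≤ 0)
    (c2 : 0 ≤ (1-x*y)*(l1+1) + (1 - μ*(1-y))*l2 + (1 - (1-x)*(1-μ))*(l3+1))
    (c3 : (1-x*y)*l1 + (1 - μ*(1-y))*(l2+a) + (1 - (1-x)*(1-μ))*(l3+1+b) ≤ 0)
    (c4 : 0 ≤ (1-x*y)*(l1+1) + (1 - μ*(1-y))*(l2+1) + (1 - (1-x)*(1-μ))*l3) :
    Cov (fun p q => (l1 ≤ U1 μ p q ∧ U1 μ p q ≤ l1 + 1) ∧
      (l2 + a ≤ p - x*q ∧ p - x*q ≤ l2 + 1) ∧ (l3 ≤ q - y*p ∧ q - y*p ≤ l3 + 1 + b)) := by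
  have mb := mul_nonneg a3.le hb
  have ma := mul_nonneg a2.le ha
  obtain ⟨s, hs⟩ : ∃ s : ℝ, s = ((1-x*y) + (1 - μ*(1-y)) + (1 - (1-x)*(1-μ)))/2
    - ((1-x*y)*(l1+1) + (1 - μ*(1-y))*(l2+1) + (1 - (1-x)*(1-μ))*(l3+1+b)) := ⟨_, rfl⟩
  rcases le_total 0 s with h | h
  · refine (pclU (V1 := l1+1) (V2 := l2+1) (V3 := l3+1+b) (s := s) hx hx1 hy hy1 hμ hμ1 hd a2 a3
      ha hb f23 f13 (by linarith) h (by linarith)).mono (fun p q hpq => ?_)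
    obtain ⟨⟨f1, f2⟩, ⟨f3, f4⟩, ⟨f5, f6⟩⟩ := hpq
    exact ⟨⟨by linarith, by linarith⟩, ⟨by linarith, by linarith⟩, ⟨by linarith, by linarith⟩⟩
  · have key := (pclU (V1 := -l1) (V2 := -(l2+a)) (V3 := -l3)
      (s := (1 - μ*(1-y))*a - (1 - (1-x)*(1-μ))*b - s) hx hx1 hy hy1 hμ hμ1 hd a2 a3
      ha hb f23 f13 (by linarith) (by linarith) (by linarith)).neg
    refine key.mono (fun p q hpq => ?_)
    obtain ⟨⟨f1, f2⟩, ⟨f3, f4⟩, ⟨f5, f6⟩⟩ := hpq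
    have e : U1 μ (-p) (-q) = - U1 μ p q := by unfold U1; ring
    show (-l1 - 1 ≤ U1 μ (-p) (-q) ∧ U1 μ (-p) (-q) ≤ -l1) ∧ _
    rw [e]
    exact ⟨⟨by linarith, by linarith⟩, ⟨by linarith, by linarith⟩, ⟨by linarith, by linarith⟩⟩

end Pool.Agent.H52.SY
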