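import Mathlib

set_option autoImplicit false

namespace Pool.Agent.H52.SY

/-- the hexagon `|p|, |q|, |p - q| ≤ 1/2` -/
def Hx (p q : ℝ) : Prop :=
  -(1/2) ≤ p ∧ p ≤ 1/2 ∧ -(1/2) ≤ q ∧ q ≤ 1/2 ∧ -(1/2) ≤ p - q ∧ p - q ≤ 1/2

/-- covered by three translates of the hexagon -/
def Cov (X : ℝ → ℝ → Prop) : Prop :=
  ∃ c1 d1 c2 d2 c3 d3 : ℝ, ∀ p q, X p q →
    Hx (p - c1) (q - d1) ∨ Hx (p - c2) (q - d2) ∨ Hx (p - c3) (q - d3)

/-- parallelogram cut out by two strips -/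
def Pl (x y W H : ℝ) (p q : ℝ) : Prop :=
  -(W/2) ≤ p - x*q ∧ p - x*q ≤ W/2 ∧ -(H/2) ≤ q - y*p ∧ q - y*p ≤ H/2

theorem Hx.neg {p q : ℝ} (h : Hx p q) : Hx (-p) (-q) := by
  obtain ⟨h1, h2, h3, h4, h5, h6⟩ := h
  refine ⟨by linarith, by linarith, by linarith, by linarith, by linarith, by linarith⟩

theorem Cov.mono {X Y : ℝ → ℝ → Prop} (h : Cov X) (hXY : ∀ p q, Y p q → X p q) : Cov Y := by
  obtain ⟨c1, d1, c2, d2, c3, d3, hc⟩ := h
  exact ⟨c1, d1, c2, d2, c3, d3, fun p q hpq => hc p q (hXY p q hpq)⟩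

theorem Pl.mono {x y W H W' H' p q : ℝ} (h : Pl x y W H p q) (hW : W ≤ W') (hH : H ≤ H') :
    Pl x y W' H' p q := by
  obtain ⟨h1, h2, h3, h4⟩ := h
  exact ⟨by linarith, by linarith, by linarith, by linarith⟩

/-- the hexagon in the coordinates of another pair -/
theorem Hx.swap {p q : ℝ} (h : Hx p q) : Hx q p := by
  obtain ⟨h1, h2, h3, h4, h5, h6⟩ := h
  exact ⟨h3, h4, h1, h2, by linarith, by linarith⟩

theorem Cov.swap {X : ℝ → ℝ → Prop} (h : Cov X) : Cov (fun p q => X q p) := by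
  obtain ⟨c1, d1, c2, d2, c3, d3, hc⟩ := h
  refine ⟨d1, c1, d2, c2, d3, c3, fun p q hpq => ?_⟩
  rcases hc q p hpq with h | h | h
  · exact Or.inl h.swap
  · exact Or.inr (Or.inl h.swap)
  · exact Or.inr (Or.inr h.swap)

theorem Hx.rot {p q : ℝ} (h : Hx (-p) (q - p)) : Hx p q := by
  obtain ⟨h1, h2, h3, h4, h5, h6⟩ := h
  exact ⟨by linarith, by linarith, by linarith, by linarith, by linarith, by linarith⟩

theorem Cov.rot {X : ℝ → ℝ → Prop} (h : Cov X) : Cov (fun p q => X (-p) (q - p)) := by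
  obtain ⟨c1, d1, c2, d2, c3, d3, hc⟩ := h
  refine ⟨-c1, d1 - c1, -c2, d2 - c2, -c3, d3 - c3, fun p q hpq => ?_⟩
  rcases hc (-p) (q - p) hpq with h | h | h
  · refine Or.inl (Hx.rot ?_)
    obtain ⟨h1, h2, h3, h4, h5, h6⟩ := h
    exact ⟨by linarith, by linarith, by linarith, by linarith, by linarith, by linarith⟩
  · refine Or.inr (Or.inl (Hx.rot ?_))
    obtain ⟨h1, h2, h3, h4, h5, h6⟩ := h
    exact ⟨by linarith, by linarith, by linarith, by linarith, by linarith, by linarith⟩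
  · refine Or.inr (Or.inr (Hx.rot ?_))
    obtain ⟨h1, h2, h3, h4, h5, h6⟩ := h
    exact ⟨by linarith, by linarith, by linarith, by linarith, by linarith, by linarith⟩

/-- translation -/
theorem Cov.shift {X : ℝ → ℝ → Prop} (h : Cov X) (p0 q0 : ℝ) :
    Cov (fun p q => X (p - p0) (q - q0)) := by
  obtain ⟨c1, d1, c2, d2, c3, d3, hc⟩ := h
  refine ⟨c1 + p0, d1 + q0, c2 + p0, d2 + q0, c3 + p0, d3 + q0, fun p q hpq => ?_⟩
  rcases hc _ _ hpq with h | h | h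
  · left
    have e1 : p - (c1 + p0) = p - p0 - c1 := by ring
    have e2 : q - (d1 + q0) = q - q0 - d1 := by ring
    rw [e1, e2]; exact h
  · right; left
    have e1 : p - (c2 + p0) = p - p0 - c2 := by ring
    have e2 : q - (d2 + q0) = q - q0 - d2 := by ring
    rw [e1, e2]; exact h
  · right; right
    have e1 : p - (c3 + p0) = p - p0 - c3 := by ring
    have e2 : q - (d3 + q0) = q - q0 - d3 := by ring
    rw [e1, e2]; exact h

/-- the reflected set is covered as well -/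
theorem Cov.neg {X : ℝ → ℝ → Prop} (h : Cov X) : Cov (fun p q => X (-p) (-q)) := by
  obtain ⟨c1, d1, c2, d2, c3, d3, hc⟩ := h
  refine ⟨-c1, -d1, -c2, -d2, -c3, -d3, fun p q hpq => ?_⟩
  rcases hc _ _ hpq with h | h | h
  · left
    have := h.neg
    have e1 : -(-p - c1) = p - -c1 := by ring
    have e2 : -(-q - d1) = q - -d1 := by ring
    rw [e1, e2] at this; exact this
  · right; left
    have := h.neg
    have e1 : -(-p - c2) = p - -c2 := by ring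
    have e2 : -(-q - d2) = q - -d2 := by ring
    rw [e1, e2] at this; exact this
  · right; right
    have := h.neg
    have e1 : -(-p - c3) = p - -c3 := by ring
    have e2 : -(-q - d3) = q - -d3 := by ring
    rw [e1, e2] at this; exact this

/-- the right piece of the row covering -/
theorem right_piece {x y W H s t c1 c2 pM qM dM θ p q : ℝ} (hy : 0 ≤ y)
    (hx : 0 ≤ x) (hx1 : x ≤ 1) (hy1 : y ≤ 1) (hd : 0 < 1 - x*y)
    (h0 : y*(s-t) ≤ H) (h0' : (1-y)*(t-s) ≤ H)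
    (hpM : 2*(1-x*y)*pM = W + x*H) (hqM : 2*(1-x*y)*qM = H + y*W)
    (hdM : 2*(1-x*y)*dM = W*(1-y)+H*(1-x))
    (a1 : pM - 1/2 ≤ c1) (a2s : c1 ≤ s + 1/2) (a2t : c1 ≤ t + 1/2)
    (a3 : qM - 1/2 ≤ c2) (a4 : c2 ≤ -(H/2) + y*s + 1/2)
    (a5 : dM - 1/2 ≤ c1 - c2) (a6 : c1 - c2 ≤ (1-y)*t - H/2 + 1/2)
    (hθ0 : 0 ≤ θ) (hθ1 : θ ≤ 1) (hr : q - y*p = -(H/2) + θ*H)
    (hpl : Pl x y W H p q) (hl : s*(1-θ) + t*θ ≤ p) : Hx (p - c1) (q - c2) := by
  obtain ⟨g1, g2, g3, g4⟩ := hpl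
  have e1 : p ≤ pM := by
    have : 2*(1-x*y)*p ≤ 2*(1-x*y)*pM := by
      rw [hpM]; linarith [mul_le_mul_of_nonneg_left g4 hx]
    exact le_of_mul_le_mul_left this (by linarith)
  have e2 : q ≤ qM := by
    have : 2*(1-x*y)*q ≤ 2*(1-x*y)*qM := by
      rw [hqM]; linarith [mul_le_mul_of_nonneg_left g2 hy]
    exact le_of_mul_le_mul_left this (by linarith)
  have e3 : p - q ≤ dM := by
    have : 2*(1-x*y)*(p-q) ≤ 2*(1-x*y)*dM := by
      rw [hdM]
      linarith [mul_le_mul_of_nonneg_left g2 (sub_nonneg.2 hy1),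
        mul_le_mul_of_nonneg_left g3 (sub_nonneg.2 hx1)]
    exact le_of_mul_le_mul_left this (by linarith)
  have e4 : c1 - 1/2 ≤ p := by
    linarith [mul_nonneg hθ0 (sub_nonneg.2 a2t), mul_nonneg (sub_nonneg.2 hθ1) (sub_nonneg.2 a2s)]
  have e5 : c2 - 1/2 ≤ q := by
    linarith [mul_nonneg hθ0 (sub_nonneg.2 h0), mul_le_mul_of_nonneg_left hl hy]
  have e6 : c1 - c2 - 1/2 ≤ p - q := by
    linarith [mul_nonneg (sub_nonneg.2 hθ1) (sub_nonneg.2 h0'),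
      mul_le_mul_of_nonneg_left hl (sub_nonneg.2 hy1)]
  exact ⟨by linarith, by linarith, by linarith, by linarith, by linarith, by linarith⟩

/-- the middle piece, one half -/
theorem mid_piece {y H s t θ p q : ℝ} (hy : 0 ≤ y) (hy1 : y ≤ 1) (hH : 0 ≤ H)
    (hs : s ≤ 1/2) (ht : t ≤ 1/2) (h1 : H/2 + y*t ≤ 1/2) (h2 : (1-y)*s + H/2 ≤ 1/2)
    (hθ0 : 0 ≤ θ) (hθ1 : θ ≤ 1) (hr : q - y*p = -(H/2) + θ*H)
    (hl : p ≤ s*(1-θ) + t*θ) : p ≤ 1/2 ∧ q ≤ 1/2 ∧ p - q ≤ 1/2 := by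
  have k1 := mul_nonneg hθ0 (sub_nonneg.2 ht)
  have k2 := mul_nonneg (sub_nonneg.2 hθ1) (sub_nonneg.2 hs)
  have k3 := mul_nonneg hθ0 (sub_nonneg.2 h1)
  have k4 := mul_nonneg (sub_nonneg.2 hθ1) (sub_nonneg.2 h2)
  have k5 := mul_le_mul_of_nonneg_left hl hy
  have k6 := mul_le_mul_of_nonneg_left hl (sub_nonneg.2 hy1)
  have k7 := mul_nonneg (mul_nonneg (sub_nonneg.2 hθ1) (sub_nonneg.2 hs)) hy
  have k8 := mul_nonneg (sub_nonneg.2 hθ1) hH
  have k9 := mul_nonneg hθ0 hH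
  have k10 := mul_nonneg (mul_nonneg hθ0 (sub_nonneg.2 ht)) (sub_nonneg.2 hy1)
  have k11 := mul_nonneg hθ0 hy
  have k12 := mul_nonneg (sub_nonneg.2 hθ1) (sub_nonneg.2 hy1)
  refine ⟨by linarith, by linarith, by linarith⟩

/-- three hexagons in a row cover the parallelogram -/
theorem rlem {x y W H s t : ℝ} (hx : 0 ≤ x) (hy : 0 ≤ y) (hx1 : x ≤ 1) (hy1 : y ≤ 1)
    (hd : 0 < 1 - x*y) (hH : 0 ≤ H)
    (hs : s ≤ 1/2) (ht : t ≤ 1/2) (h1 : H/2 + y*t ≤ 1/2) (h2 : (1-y)*s + H/2 ≤ 1/2)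
    (h0 : y*(s-t) ≤ H) (h0' : (1-y)*(t-s) ≤ H)
    (r1 : (H + y*W) + (H - 2*(y*s))*(1-x*y) ≤ 2*(1-x*y))
    (r2s : W + x*H ≤ 2*(1+s)*(1-x*y)) (r2t : W + x*H ≤ 2*(1+t)*(1-x*y))
    (r3 : W*(1-y)+H*(1-x)+(H-2*(t*(1-y)))*(1-x*y) ≤ 2*(1-x*y))
    (r4 : W+x*H+2*(H-y*s-t*(1-y))*(1-x*y) ≤ 3*(1-x*y))
    (r5s : W+H*(2-x) ≤ (3+2*s)*(1-x*y)) (r5t : W+H*(2-x) ≤ (3+2*t)*(1-x*y)) :
    Cov (Pl x y W H) := by
  rcases eq_or_lt_of_le hH with hH0 | hHp
  · refine ⟨1, y, 0, 0, -1, -y, fun p q hpq => ?_⟩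
    obtain ⟨g1, g2, g3, g4⟩ := hpq
    rw [← hH0] at g3 g4 r2s
    have hq : q = y*p := by linarith
    have hW : W ≤ 3*(1-x*y) := by linarith [mul_nonneg (sub_nonneg.2 hs) hd.le]
    have e1 : p ≤ 3/2 := by
      have : (1-x*y)*p ≤ (1-x*y)*(3/2) := by rw [hq] at g2; linarith
      exact le_of_mul_le_mul_left this hd
    have e2 : -(3/2) ≤ p := by
      have : (1-x*y)*(-(3/2)) ≤ (1-x*y)*p := by rw [hq] at g1; linarith
      exact le_of_mul_le_mul_left this hd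
    have aux : ∀ u : ℝ, -(1/2) ≤ u → u ≤ 1/2 → Hx u (y*u) := by
      intro u hu1 hu2
      have z1 := mul_nonneg hy (sub_nonneg.2 hu1)
      have z2 := mul_nonneg hy (sub_nonneg.2 hu2)
      have z3 := mul_nonneg (sub_nonneg.2 hy1) (sub_nonneg.2 hu1)
      have z4 := mul_nonneg (sub_nonneg.2 hy1) (sub_nonneg.2 hu2)
      exact ⟨hu1, hu2, by linarith, by linarith, by linarith, by linarith⟩
    rcases le_or_gt (1/2) p with hp | hp
    · left
      have := aux (p - 1) (by linarith) (by linarith)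
      have e : y*(p - 1) = q - y := by rw [hq]; ring
      rw [e] at this; exact this
    · rcases le_or_gt p (-(1/2)) with hp' | hp'
      · right; right
        have := aux (p - -1) (by linarith) (by linarith)
        have e : y*(p - -1) = q - -y := by rw [hq]; ring
        rw [e] at this; exact this
      · right; left
        have := aux (p - 0) (by linarith) (by linarith)
        have e : y*(p - 0) = q - 0 := by rw [hq]; ring
        rw [e] at this; exact this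
  · obtain ⟨pM, hpM⟩ : ∃ pM : ℝ, 2*(1-x*y)*pM = W + x*H := ⟨(W + x*H)/(2*(1-x*y)), by field_simp⟩
    obtain ⟨qM, hqM⟩ : ∃ qM : ℝ, 2*(1-x*y)*qM = H + y*W := ⟨(H + y*W)/(2*(1-x*y)), by field_simp⟩
    obtain ⟨dM, hdM⟩ : ∃ dM : ℝ, 2*(1-x*y)*dM = W*(1-y)+H*(1-x) :=
      ⟨(W*(1-y)+H*(1-x))/(2*(1-x*y)), by field_simp⟩
    have canc : ∀ u v : ℝ, 2*(1-x*y)*u ≤ 2*(1-x*y)*v → u ≤ v := fun u v h =>
      le_of_mul_le_mul_left h (by linarith)
    have k1 : qM + H/2 - y*s ≤ 1 := canc _ _ (by linarith)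
    have k2s : pM ≤ 1 + s := canc _ _ (by linarith)
    have k2t : pM ≤ 1 + t := canc _ _ (by linarith)
    have k3 : dM + H/2 - t*(1-y) ≤ 1 := canc _ _ (by linarith)
    have k4 : pM + H - y*s - t*(1-y) ≤ 3/2 := canc _ _ (by linarith)
    have k5s : qM + dM ≤ 3/2 + s := canc _ _ (by linarith)
    have k5t : qM + dM ≤ 3/2 + t := canc _ _ (by linarith)
    -- centres
    obtain ⟨c1, hc1⟩ : ∃ c1 : ℝ, c1 = max (pM - 1/2) (dM - 1/2 + (qM - 1/2)) := ⟨_, rfl⟩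
    obtain ⟨c2, hc2⟩ : ∃ c2 : ℝ, c2 = max (qM - 1/2) (c1 - ((1-y)*t - H/2 + 1/2)) := ⟨_, rfl⟩
    have a1 : pM - 1/2 ≤ c1 := by rw [hc1]; exact le_max_left _ _
    have a1' : dM - 1/2 + (qM - 1/2) ≤ c1 := by rw [hc1]; exact le_max_right _ _
    have a2s : c1 ≤ s + 1/2 := by rw [hc1]; exact max_le (by linarith) (by linarith)
    have a2t : c1 ≤ t + 1/2 := by rw [hc1]; exact max_le (by linarith) (by linarith)
    have a3 : qM - 1/2 ≤ c2 := by rw [hc2]; exact le_max_left _ _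
    have a6' : c1 - ((1-y)*t - H/2 + 1/2) ≤ c2 := by rw [hc2]; exact le_max_right _ _
    have c1u : c1 - ((1-y)*t - H/2 + 1/2) ≤ -(H/2) + y*s + 1/2 := by
      rcases max_choice (pM - 1/2) (dM - 1/2 + (qM - 1/2)) with h | h
      · rw [hc1, h]; linarith
      · rw [hc1, h]; linarith
    have a4 : c2 ≤ -(H/2) + y*s + 1/2 := by rw [hc2]; exact max_le (by linarith) c1u
    have a5 : dM - 1/2 ≤ c1 - c2 := by
      rcases max_choice (qM - 1/2) (c1 - ((1-y)*t - H/2 + 1/2)) with h | h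
      · rw [hc2, h]; linarith
      · rw [hc2, h]; linarith
    have a6 : c1 - c2 ≤ (1-y)*t - H/2 + 1/2 := by linarith
    refine ⟨c1, c2, 0, 0, -c1, -c2, fun p q hpq => ?_⟩
    obtain ⟨g1, g2, g3, g4⟩ := hpq
    obtain ⟨θ, hθ⟩ : ∃ θ : ℝ, θ = (q - y*p + H/2)/H := ⟨_, rfl⟩
    have hθH : θ*H = q - y*p + H/2 := by rw [hθ]; field_simp
    have hr : q - y*p = -(H/2) + θ*H := by linarith
    have hθ0 : 0 ≤ θ := by rw [hθ]; exact div_nonneg (by linarith) hHp.le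
    have hθ1 : θ ≤ 1 := by rw [hθ, div_le_one hHp]; linarith
    have hr' : (-q) - y*(-p) = -(H/2) + (1-θ)*H := by linarith
    rcases le_or_gt (s*(1-θ) + t*θ) p with hl | hl
    · left
      exact right_piece hy hx hx1 hy1 hd h0 h0' hpM hqM hdM a1 a2s a2t a3 a4 a5 a6 hθ0 hθ1 hr
        ⟨g1, g2, g3, g4⟩ hl
    · rcases le_or_gt (s*(1-(1-θ)) + t*(1-θ)) (-p) with hl' | hl'
      · right; right
        have := right_piece (p := -p) (q := -q) hy hx hx1 hy1 hd h0 h0' hpM hqM hdM a1 a2s a2t a3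
          a4 a5 a6 (θ := 1 - θ) (by linarith) (by linarith) hr'
          ⟨by linarith, by linarith, by linarith, by linarith⟩ hl'
        have h2 := this.neg
        have e1 : -(-p - c1) = p - -c1 := by ring
        have e2 : -(-q - c2) = q - -c2 := by ring
        rw [e1, e2] at h2
        exact h2
      · right; left
        obtain ⟨m1, m2, m3⟩ := mid_piece hy hy1 hH hs ht h1 h2 hθ0 hθ1 hr hl.le
        obtain ⟨n1, n2, n3⟩ := mid_piece hy hy1 hH hs ht h1 h2 (θ := 1 - θ) (by linarith)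
          (by linarith) hr' hl'.le
        rw [sub_zero, sub_zero]
        exact ⟨by linarith, by linarith, by linarith, by linarith, by linarith, by linarith⟩

end Pool.Agent.H52.SY
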