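import Pool.Agent.H52.SY.Rl

set_option autoImplicit false

namespace Pool.Agent.H52.SY

/-- R-type covers (`t = 1/2`) -/
theorem rtype {x y a b s : ℝ} (hx : 0 ≤ x) (hy : 0 ≤ y) (hx1 : x ≤ 1)
    (hd : 0 < 1 - x*y) (hyb : y ≤ b) (hb1 : b ≤ 1) (hbs : b ≤ 2*s) (hs : s ≤ 1/2)
    (hsb : 2*s*(1-y) ≤ b)
    (c2 : a + x + 2*x*y ≤ 1 + b*x + 2*s*(1-x*y))
    (c3 : a*(1-y) ≤ x*(1-y)^2 + b*(2-x-x*y))
    (c5 : a + 3*x*y ≤ 2*b + x - b*x + 2*s*(1-x*y)) :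
    Cov (Pl x y (1+a) (1-b)) := by
  have hy1 : y ≤ 1 := hyb.trans hb1
  have k1 := mul_le_mul_of_nonneg_left c2 hy
  have k2 := mul_nonneg (sub_nonneg.2 hyb) hd.le
  have k3 := mul_nonneg (sub_nonneg.2 hs) hd.le
  have k4 := mul_nonneg (sub_nonneg.2 hsb) hd.le
  have k5 := mul_nonneg hy (sub_nonneg.2 hb1)
  have k6 := mul_nonneg (sub_nonneg.2 hy1) (sub_nonneg.2 hbs)
  refine rlem (s := s) (t := 1/2) hx hy hx1 hy1 hd (by linarith) hs le_rfl (by linarith)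
    (by linarith) ?_ ?_ ?_ ?_ ?_ ?_ ?_ ?_ ?_
  · linarith [mul_nonneg hy (sub_nonneg.2 hs)]
  · linarith
  · linarith
  · linarith
  · linarith
  · linarith
  · linarith
  · linarith
  · linarith

/-- T-type covers (`2 t y = b`) -/
theorem ttype {x y a b s t : ℝ} (hx : 0 ≤ x) (hy : 0 < y) (hx1 : x ≤ 1) (hy1 : y ≤ 1)
    (hd : 0 < 1 - x*y) (hb : 0 ≤ b) (hby : b ≤ y) (hs0 : 0 ≤ s) (hs : s ≤ 1/2)
    (ht : 2*(y*t) = b)
    (hsb : 2*s*(1-y) ≤ b)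
    (r1 : y*(1+a+x+b*x) ≤ 2*b + 2*y*s*(1-x*y))
    (r2s : a + x + 2*x*y ≤ 1 + b*x + 2*s*(1-x*y))
    (r2t : y*(a + x + 2*x*y) ≤ y*(1 + b*x) + b*(1-x*y))
    (r3 : y*((1+a)*(1-y) + (1-b)*(1-x)) ≤ (y+b)*(1-x*y))
    (r4 : y*(1+a+x-b*x) ≤ (y + b*y + b + 2*y^2*s)*(1-x*y))
    (r5s : 1+a+(1-b)*(2-x) ≤ (3+2*s)*(1-x*y))
    (r5t : y*(1+a+(1-b)*(2-x)) ≤ (3*y+b)*(1-x*y)) :
    Cov (Pl x y (1+a) (1-b)) := by
  have ht1 : t ≤ 1/2 := by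
    by_contra h
    push Not at h
    have := mul_lt_mul_of_pos_left h hy
    linarith
  have ht0 : 0 ≤ t := by
    by_contra h
    push Not at h
    have := mul_neg_of_pos_of_neg hy h
    linarith
  have can : ∀ u v : ℝ, y*u ≤ y*v → u ≤ v := fun u v h => le_of_mul_le_mul_left h hy
  refine rlem (s := s) (t := t) hx hy.le hx1 hy1 hd (by linarith) hs ht1 (by linarith)
    (by linarith) ?_ ?_ ?_ ?_ ?_ ?_ ?_ ?_ ?_
  · linarith [mul_nonneg hy.le (sub_nonneg.2 hs)]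
  · have := mul_nonneg (sub_nonneg.2 hy1) (sub_nonneg.2 ht1)
    linarith [mul_nonneg (sub_nonneg.2 hy1) hs0]
  · linarith
  · linarith
  · apply can
    have e : y*(2*(1+t)*(1-x*y)) = 2*y*(1-x*y) + (2*(y*t))*(1-x*y) := by ring
    rw [e, ht]; linarith
  · apply can
    have e : y*((1+a)*(1-y)+(1-b)*(1-x)+((1-b)-2*(t*(1-y)))*(1-x*y))
      = y*((1+a)*(1-y)+(1-b)*(1-x)) + (y*(1-b) - (2*(y*t))*(1-y))*(1-x*y) := by ring
    rw [e, ht]; linarith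
  · apply can
    have e : y*((1+a)+x*(1-b)+2*((1-b)-y*s-t*(1-y))*(1-x*y))
      = y*((1+a)+x*(1-b)) + (2*y*(1-b)-2*y^2*s - (2*(y*t))*(1-y))*(1-x*y) := by ring
    rw [e, ht]; linarith
  · linarith
  · apply can
    have e : y*((3+2*t)*(1-x*y)) = (3*y+2*(y*t))*(1-x*y) := by ring
    rw [e, ht]; linarith

end Pool.Agent.H52.SY
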